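import Mathlib

/-! The integral closure of a complete discrete valuation ring with finite residue field in a finite
separable extension is a complete discrete valuation ring with finite residue field. -/

open scoped BigOperators
open IsLocalRing

set_option linter.unusedSectionVars false

noncomputable section

namespace Pool.Agent.W90.Swan

lemma exists_idem_pow {R : Type*} [Ring R] [Finite R] (a : R) :
    ∃ n : ℕ, 0 < n ∧ a ^ n * a ^ n = a ^ n := by
  have hninj : ¬ Function.Injective (fun n : ℕ => a ^ n) := not_injective_infinite_finite _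
  simp only [Function.Injective, not_forall] at hninj
  obtain ⟨i, j, hij, hne⟩ := hninj
  wlog h : i < j generalizing i j
  · exact this j i hij.symm (Ne.symm hne) (by omega)
  obtain ⟨d, rfl⟩ : ∃ d, j = i + d := ⟨j - i, by omega⟩
  have h1 : ∀ m, i ≤ m → a ^ (m + d) = a ^ m := by
    intro m hm
    obtain ⟨c, rfl⟩ : ∃ c, m = i + c := ⟨m - i, by omega⟩
    have : i + c + d = (i + d) + c := by ring
    rw [this, pow_add, ← hij, ← pow_add]
  have h2 : ∀ t m, i ≤ m → a ^ (m + t * d) = a ^ m := by
    intro t
    induction t with
    | zero => intro m _; simp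
    | succ t ih =>
      intro m hm
      have : m + (t + 1) * d = (m + t * d) + d := by ring
      rw [this, h1 _ (by omega), ih m hm]
  have hd : 1 ≤ d := by omega
  have hm : i ≤ (i + 1) * d := by nlinarith
  refine ⟨(i + 1) * d, by positivity, ?_⟩
  rw [← pow_add, h2 (i + 1) _ hm]

section

variable (A F E : Type*) [CommRing A] [IsDomain A] [IsDiscreteValuationRing A]
  [IsAdicComplete (maximalIdeal A) A] [Finite (ResidueField A)]
  [Field F] [Algebra A F] [IsFractionRing A F] [Field E] [Algebra F E] [Algebra A E]
  [IsScalarTower A F E] [FiniteDimensional F E] [Algebra.IsSeparable F E]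

/-- the integral closure -/
abbrev OO := integralClosure A E

include F in
lemma OO_finite : Module.Finite A (OO A E) := IsIntegralClosure.finite A F E (OO A E)

include F in
lemma OO_torsionFree : Module.IsTorsionFree A (OO A E) := by
  have : FaithfulSMul A E := by
    rw [faithfulSMul_iff_algebraMap_injective, IsScalarTower.algebraMap_eq A F E]
    exact (algebraMap F E).injective.comp (IsFractionRing.injective A F)
  infer_instance

include F in
lemma OO_free : Module.Free A (OO A E) := by
  have := OO_finite A F E
  have := OO_torsionFree A F E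
  exact Module.free_of_finite_type_torsion_free'

/-- the extension of the maximal ideal -/
abbrev PP : Ideal (OO A E) := (maximalIdeal A).map (algebraMap A (OO A E))

lemma mem_map_iff {R S ι : Type*} [CommRing R] [CommRing S] [Algebra R S] [Fintype ι]
    (b : Module.Basis ι R S) (J : Ideal R) (x : S) :
    x ∈ J.map (algebraMap R S) ↔ ∀ j, b.repr x j ∈ J := by
  have h1 : x ∈ J.map (algebraMap R S) ↔ x ∈ (J • ⊤ : Submodule R S) := by
    rw [Ideal.smul_top_eq_map]
    rfl
  rw [h1]
  constructor
  · intro hx j
    refine Submodule.smul_induction_on hx ?_ ?_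
    · intro r hr n _
      rw [map_smul, Finsupp.smul_apply, smul_eq_mul]
      exact J.mul_mem_right _ hr
    · intro y z hy hz
      rw [map_add, Finsupp.add_apply]
      exact J.add_mem hy hz
  · intro h
    rw [← b.sum_repr x]
    exact Submodule.sum_mem _ fun j _ => Submodule.smul_mem_smul (h j) trivial

include F in
lemma OO_precomplete : IsPrecomplete (PP A E) (OO A E) := by
  have := OO_finite A F E
  have := OO_free A F E
  set b := Module.Free.chooseBasis A (OO A E) with hb
  refine ⟨fun f hf => ?_⟩
  have hJ : ∀ n, (PP A E) ^ n = ((maximalIdeal A) ^ n).map (algebraMap A (OO A E)) := by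
    intro n
    rw [Ideal.map_pow]
  have hcoord : ∀ j, ∃ L : A, ∀ n, b.repr (f n) j ≡ L [SMOD ((maximalIdeal A) ^ n • ⊤ :
      Submodule A A)] := by
    intro j
    apply IsPrecomplete.prec'
    intro m n hmn
    have h1 := hf hmn
    rw [SModEq.sub_mem, smul_eq_mul, Ideal.mul_top, hJ, mem_map_iff b] at h1
    rw [SModEq.sub_mem, smul_eq_mul, Ideal.mul_top]
    simpa using h1 j
  choose L hL using hcoord
  refine ⟨∑ j, L j • b j, fun n => ?_⟩
  rw [SModEq.sub_mem, smul_eq_mul, Ideal.mul_top, hJ, mem_map_iff b]
  intro j
  have h1 := hL j n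
  rw [SModEq.sub_mem, smul_eq_mul, Ideal.mul_top] at h1
  rw [map_sub, Finsupp.sub_apply, b.repr_sum_self]
  exact h1

include F in
lemma PP_ne_top : PP A E ≠ ⊤ := by
  have := OO_finite A F E
  have := OO_torsionFree A F E
  have : FaithfulSMul A (OO A E) := inferInstance
  intro h
  have h1 : (1 : OO A E) ∈ PP A E := by rw [h]; trivial
  obtain ⟨Q, hQ, hQ'⟩ := Ideal.exists_ideal_over_maximal_of_isIntegral (S := OO A E)
    (maximalIdeal A) (by
      rw [(RingHom.injective_iff_ker_eq_bot _).mp (FaithfulSMul.algebraMap_injective A (OO A E))]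
      exact bot_le)
  apply hQ.ne_top
  rw [Ideal.eq_top_iff_one]
  have h2 : PP A E ≤ Q := by
    rw [Ideal.map_le_iff_le_comap, hQ']
  exact h2 h1

include F in
lemma OO_dedekind : IsDedekindDomain (OO A E) := integralClosure.isDedekindDomain A F E

include F in
lemma OO_complete : IsAdicComplete (PP A E) (OO A E) := by
  have := OO_dedekind A F E
  have h1 : IsHausdorff (PP A E) (OO A E) := IsHausdorff.of_isDomain _ (PP_ne_top A F E)
  have h2 := OO_precomplete A F E
  exact { h1, h2 with }

include F in
lemma OO_quot_finite : Finite (OO A E ⧸ PP A E) := by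
  have := OO_finite A F E
  have := OO_free A F E
  set b := Module.Free.chooseBasis A (OO A E) with hb
  let φ : OO A E →+ (Module.Free.ChooseBasisIndex A (OO A E) → ResidueField A) :=
    { toFun := fun x j => residue A (b.repr x j)
      map_zero' := by ext; simp
      map_add' := fun x y => by ext; simp }
  have hφ : ∀ x, φ x = 0 ↔ x ∈ PP A E := by
    intro x
    rw [mem_map_iff b]
    constructor
    · intro h j
      have := congrFun h j
      exact (residue_eq_zero_iff _).mp this
    · intro h
      ext j
      exact (residue_eq_zero_iff _).mpr (h j)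
  have hinj : Function.Injective (QuotientAddGroup.lift (PP A E).toAddSubgroup φ
      (fun x hx => (hφ x).mpr hx)) := by
    rw [injective_iff_map_eq_zero]
    intro q
    obtain ⟨x, rfl⟩ := QuotientAddGroup.mk_surjective q
    intro hx
    rw [QuotientAddGroup.lift_mk] at hx
    exact (QuotientAddGroup.eq_zero_iff x).mpr ((hφ x).mp hx)
  exact Finite.of_injective (β := Module.Free.ChooseBasisIndex A (OO A E) → ResidueField A) _ hinj

include F in
theorem OO_local : IsLocalRing (OO A E) := by
  have hcomp := OO_complete A F E
  have hfin := OO_quot_finite A F E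
  have hjac : PP A E ≤ Ideal.jacobson ⊥ := IsAdicComplete.le_jacobson_bot _
  have : Nontrivial (OO A E) := inferInstance
  have hunit : ∀ x : OO A E, x - 1 ∈ PP A E → IsUnit x := by
    intro x hx
    have h1 := Ideal.mem_jacobson_bot.mp (hjac hx) 1
    simpa using h1
  refine IsLocalRing.of_isUnit_or_isUnit_one_sub_self fun a => ?_
  obtain ⟨n, hn, hidem⟩ := exists_idem_pow (Ideal.Quotient.mk (PP A E) a)
  have hH : HenselianRing (OO A E) (PP A E) := inferInstance
  have hc : a ^ n * a ^ n - a ^ n ∈ PP A E := by
    rw [← Ideal.Quotient.eq, map_mul, map_pow, hidem]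
  obtain ⟨e, he, hea⟩ := hH.is_henselian (Polynomial.X ^ 2 + -Polynomial.X)
    (Polynomial.monic_X_pow_add (by
      rw [Polynomial.degree_neg, Polynomial.degree_X]
      norm_num)) (a ^ n) (by
      simp only [Polynomial.eval_add, Polynomial.eval_pow, Polynomial.eval_X, Polynomial.eval_neg]
      rw [pow_two, ← sub_eq_add_neg]
      exact hc) (by
      simp only [Polynomial.derivative_add, Polynomial.derivative_X_pow, Polynomial.derivative_neg,
        Polynomial.derivative_X, Polynomial.eval_add, Polynomial.eval_mul, Polynomial.eval_neg,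
        Polynomial.eval_one, Polynomial.eval_C, Polynomial.eval_pow, Polynomial.eval_X]
      refine IsUnit.of_mul_eq_one (Ideal.Quotient.mk (PP A E) (2 * a ^ n - 1)) ?_
      rw [← map_mul, ← map_one (Ideal.Quotient.mk (PP A E)), Ideal.Quotient.eq]
      have h1 : ((2 : ℕ) : OO A E) * (a ^ n) ^ (2 - 1) + -1 = 2 * a ^ n - 1 := by
        push_cast
        ring
      rw [h1]
      have h2 : (2 * a ^ n - 1) * (2 * a ^ n - 1) - 1 = 4 * (a ^ n * a ^ n - a ^ n) := by ring
      rw [h2]
      exact Ideal.mul_mem_left _ _ hc)
  have he2 : e * (e - 1) = 0 := by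
    have h1 : e ^ 2 + -e = 0 := by
      simpa [Polynomial.IsRoot] using he
    rw [mul_sub, mul_one, ← pow_two, sub_eq_add_neg]
    exact h1
  rcases mul_eq_zero.mp he2 with h0 | h1
  · right
    rw [h0, zero_sub] at hea
    have h2 : a ^ n ∈ PP A E := by simpa using (PP A E).neg_mem hea
    have h3 : IsUnit (1 - a ^ n) := by
      apply hunit
      have : 1 - a ^ n - 1 = -(a ^ n) := by ring
      rw [this]
      exact (PP A E).neg_mem h2
    have h4 : (1 - a) ∣ (1 - a ^ n) := by
      have := sub_dvd_pow_sub_pow 1 a n
      rwa [one_pow] at this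
    exact isUnit_of_dvd_unit h4 h3
  · left
    have h2 : e = 1 := sub_eq_zero.mp h1
    rw [h2] at hea
    have h3 : IsUnit (a ^ n) := by
      apply hunit
      have : a ^ n - 1 = -(1 - a ^ n) := by ring
      rw [this]
      exact (PP A E).neg_mem hea
    exact (isUnit_pow_iff hn.ne').mp h3

include F in
lemma OO_not_field : ¬ IsField (OO A E) := by
  have := OO_finite A F E
  have := OO_torsionFree A F E
  intro h
  have h1 : IsField A := isField_of_isIntegral_of_isField
    (FaithfulSMul.algebraMap_injective A (OO A E)) h
  exact IsDiscreteValuationRing.not_isField A h1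

include F in
theorem OO_dvr : IsDiscreteValuationRing (OO A E) := by
  have := OO_dedekind A F E
  have := OO_local A F E
  have h := OO_not_field A F E
  have h2 : IsDiscreteValuationRing (OO A E) ↔ IsDedekindDomain (OO A E) :=
    (IsDiscreteValuationRing.TFAE (OO A E) h).out 0 2
  exact h2.mpr (OO_dedekind A F E)

include F in
theorem OO_frac : IsFractionRing (OO A E) E :=
  IsIntegralClosure.isFractionRing_of_finite_extension A F E (OO A E)

include F in
lemma PP_ne_bot : PP A E ≠ ⊥ := by
  have := OO_torsionFree A F E
  intro h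
  obtain ⟨x, hx, hx0⟩ := Submodule.exists_mem_ne_zero_of_ne_bot
    (IsDiscreteValuationRing.not_a_field A)
  have h1 : algebraMap A (OO A E) x ∈ PP A E := Ideal.mem_map_of_mem _ hx
  rw [h, Ideal.mem_bot] at h1
  apply hx0
  exact (FaithfulSMul.algebraMap_injective A (OO A E)) (by rw [h1, map_zero])

end

end Pool.Agent.W90.Swan
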