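import Pool.Agent.W90.Swan.Sw
import Pool.Agent.W90.Swan.Ring

/-! The Swan inequality for finite separable extensions of complete discretely valued fields with
finite residue field of characteristic two. -/

open scoped BigOperators
open Representation IsLocalRing

set_option linter.unusedSectionVars false

noncomputable section

namespace Pool.Agent.W90.Swan

section

variable (A F E : Type*) [CommRing A] [IsDomain A] [IsDiscreteValuationRing A]
  [IsAdicComplete (maximalIdeal A) A] [Finite (ResidueField A)]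
  [Field F] [Algebra A F] [IsFractionRing A F] [Field E] [Algebra F E] [Algebra A E]
  [IsScalarTower A F E] [FiniteDimensional F E] [Algebra.IsSeparable F E]
  [IsLocalRing (OO A E)]

include F in
lemma PP_eq_pow : ∃ r : ℕ, 1 ≤ r ∧ PP A E = maximalIdeal (OO A E) ^ r := by
  have := OO_dedekind A F E
  have h := OO_not_field A F E
  have h1 : IsDedekindDomain (OO A E) ↔
      ∀ (I : Ideal (OO A E)) (_ : I ≠ ⊥), ∃ n : ℕ, I = maximalIdeal (OO A E) ^ n :=
    (IsDiscreteValuationRing.TFAE (OO A E) h).out 2 6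
  obtain ⟨r, hr⟩ := (h1.mp this) _ (PP_ne_bot A F E)
  refine ⟨r, ?_, hr⟩
  by_contra hc
  have : r = 0 := by omega
  rw [this, pow_zero, Ideal.one_eq_top] at hr
  exact PP_ne_top A F E hr

include F in
lemma OO_cpl (f : ℕ → OO A E) (hf : ∀ n, f (n + 1) - f n ∈ maximalIdeal (OO A E) ^ n) :
    ∃ x, ∀ n, x - f n ∈ maximalIdeal (OO A E) ^ n := by
  obtain ⟨r, hr1, hr⟩ := PP_eq_pow A F E
  have hprec := OO_precomplete A F E
  have key : ∀ a b, a ≤ b → f b - f a ∈ maximalIdeal (OO A E) ^ a := by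
    intro a b hab
    induction b with
    | zero =>
      obtain rfl : a = 0 := by omega
      rw [sub_self]; exact Ideal.zero_mem _
    | succ b ih =>
      rcases Nat.lt_or_ge a (b + 1) with h | h
      · have e : f (b + 1) - f a = (f (b + 1) - f b) + (f b - f a) := by ring
        rw [e]
        exact Ideal.add_mem _ (Ideal.pow_le_pow_right (by omega) (hf b)) (ih (by omega))
      · obtain rfl : a = b + 1 := by omega
        rw [sub_self]; exact Ideal.zero_mem _
  have hP : ∀ n, PP A E ^ n = maximalIdeal (OO A E) ^ (r * n) := by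
    intro n
    rw [hr, pow_mul]
  obtain ⟨L, hL⟩ := hprec.prec' (fun n => f (r * n)) (by
    intro m n hmn
    rw [SModEq.sub_mem, smul_eq_mul, Ideal.mul_top, hP, ← neg_mem_iff, neg_sub]
    exact key _ _ (Nat.mul_le_mul_left r hmn))
  refine ⟨L, fun n => ?_⟩
  have h1 := hL n
  rw [SModEq.sub_mem, smul_eq_mul, Ideal.mul_top, hP, ← neg_mem_iff, neg_sub] at h1
  have hle : n ≤ r * n := Nat.le_mul_of_pos_left n (by omega)
  have e : L - f n = (L - f (r * n)) + (f (r * n) - f n) := by ring
  rw [e]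
  exact Ideal.add_mem _ (Ideal.pow_le_pow_right hle h1) (key _ _ hle)

include F in
lemma PP_le : PP A E ≤ maximalIdeal (OO A E) := le_maximalIdeal (PP_ne_top A F E)

include F in
lemma OO_residue_finite : Finite (ResidueField (OO A E)) := by
  have h1 := OO_quot_finite A F E
  exact Finite.of_surjective (Ideal.Quotient.factor (PP_le A F E))
    (Ideal.Quotient.factor_surjective (PP_le A F E))

omit [IsLocalRing (OO A E)] in
lemma OO_stable (g : E ≃ₐ[F] E) (x : OO A E) :
    ∃ y : OO A E, algebraMap (OO A E) E y = g • algebraMap (OO A E) E x :=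
  ⟨⟨g • (x : E), by
      have h3 : IsIntegral A (x : E) := x.2
      exact h3.map (g.restrictScalars A)⟩, rfl⟩

/-- the ramification groups are subgroups -/
lemma exists_ramSubgroup (i : ℕ) : ∃ S : Subgroup (E ≃ₐ[F] E), ∀ σ, σ ∈ S ↔
    ∀ x : OO A E, ∃ y ∈ maximalIdeal (OO A E) ^ (i + 1), (y : E) = σ (x : E) - x := by
  have hdvr : IsDiscreteValuationRing (OO A E) := OO_dvr A F E
  have hfr : IsFractionRing (OO A E) E := OO_frac A F E
  obtain ⟨ϖ, hϖ⟩ := IsDiscreteValuationRing.exists_irreducible (OO A E)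
  exact ⟨rg (E := E) (OO_stable A F E) hϖ i, fun σ => Iff.rfl⟩

/-- the ramification groups are eventually trivial -/
lemma ram_eventually_bot (R : ℕ → Subgroup (E ≃ₐ[F] E))
    (hR : ∀ i σ, σ ∈ R i ↔ ∀ x : OO A E, ∃ y ∈ maximalIdeal (OO A E) ^ (i + 1),
      (y : E) = σ (x : E) - x) : ∃ M, ∀ i, M ≤ i → R i = ⊥ := by
  have hdvr : IsDiscreteValuationRing (OO A E) := OO_dvr A F E
  have hfr : IsFractionRing (OO A E) E := OO_frac A F E
  obtain ⟨ϖ, hϖ⟩ := IsDiscreteValuationRing.exists_irreducible (OO A E)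
  have hanti : ∀ i j, i ≤ j → R j ≤ R i := by
    intro i j hij σ hσ
    rw [hR] at hσ ⊢
    intro x
    obtain ⟨y, hy, hy'⟩ := hσ x
    exact ⟨y, Ideal.pow_le_pow_right (by omega) hy, hy'⟩
  have h1 : ∀ σ : E ≃ₐ[F] E, σ ≠ 1 → ∃ i, σ ∉ R i := by
    intro σ hσ
    by_contra hc
    push Not at hc
    apply hσ
    ext z
    obtain ⟨a, b, hb, rfl⟩ := IsFractionRing.div_surjective (OO A E) z
    have key : ∀ x : OO A E, σ (x : E) = x := by
      intro x
      rw [← sub_eq_zero]
      apply (dvrFil E hϖ).sep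
      intro n
      have h2 := (hR n σ).mp (hc n) x
      obtain ⟨y, hy, hy'⟩ := h2
      exact (dvrFil_Ln hϖ).mpr ⟨y, Ideal.pow_le_pow_right (by omega) hy, hy'⟩
    have ha : σ (algebraMap (OO A E) E a) = algebraMap (OO A E) E a := key a
    have hb' : σ (algebraMap (OO A E) E b) = algebraMap (OO A E) E b := key b
    rw [map_div₀, ha, hb']
    rfl
  choose! k hk using h1
  obtain ⟨M, hM⟩ := (Set.finite_range k).bddAbove
  refine ⟨M, fun i hi => ?_⟩
  rw [eq_bot_iff]
  intro σ hσ
  by_contra hne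
  have hne' : σ ≠ 1 := fun h => hne (Subgroup.mem_bot.mpr h)
  exact hk σ hne' (hanti _ _ ((hM ⟨σ, rfl⟩).trans hi) hσ)

/-- the Swan inequality, general form -/
theorem swan_field (h2 : (2 : A) ∈ maximalIdeal A) (R : ℕ → Subgroup (E ≃ₐ[F] E))
    (hR : ∀ i σ, σ ∈ R i ↔ ∀ x : OO A E, ∃ y ∈ maximalIdeal (OO A E) ^ (i + 1),
      (y : E) = σ (x : E) - x)
    {V : Type*} [AddCommGroup V] [Module ℂ V] [FiniteDimensional ℂ V]
    (ρ : Representation ℂ (E ≃ₐ[F] E) V) :
    swan R (symSqRep ρ) - swan R (altSqRep ρ) ≤ swan R ρ := by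
  have hdvr : IsDiscreteValuationRing (OO A E) := OO_dvr A F E
  have hfr : IsFractionRing (OO A E) E := OO_frac A F E
  have hres := OO_residue_finite A F E
  refine swan_act (O := OO A E) (E := E) ?_ ?_ ?_ (OO_cpl A F E) R ?_ ρ
  · intro g x
    exact ⟨⟨g • (x : E), by
      have h3 : IsIntegral A (x : E) := x.2
      exact h3.map (g.restrictScalars A)⟩, rfl⟩
  · have h3 : algebraMap A (OO A E) 2 ∈ PP A E := Ideal.mem_map_of_mem _ h2
    rw [map_ofNat] at h3
    exact PP_le A F E h3
  · intro g hg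
    ext x
    exact hg x
  · intro i g
    exact hR i g

end

end Pool.Agent.W90.Swan
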