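import Mathlib

/-! Adapted vectors: a functional supported on the stabiliser of an adapted line. -/

open scoped BigOperators
open Representation

set_option linter.unusedSectionVars false

noncomputable section

namespace Pool.Agent.W90.Swan

variable {G : Type*} [Group G] [Finite G] {V : Type*} [AddCommGroup V] [Module ℂ V]
  (ρ : Representation ℂ G V)

/-- the subspace `W` is stable under the subgroup `N` -/
def Stb (N : Subgroup G) (W : Submodule ℂ V) : Prop := ∀ n ∈ N, ∀ w ∈ W, ρ n w ∈ W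

/-- the subspace `W` is an irreducible `N`-submodule -/
structure Irr (N : Subgroup G) (W : Submodule ℂ V) : Prop where
  ne : W ≠ ⊥
  stb : Stb ρ N W
  min : ∀ U : Submodule ℂ V, U ≤ W → U ≠ ⊥ → Stb ρ N U → U = W

lemma rho_mul (g h : G) (x : V) : ρ (g * h) x = ρ g (ρ h x) := by
  rw [map_mul]; rfl

lemma rho_inv_rho (g : G) (x : V) : ρ g⁻¹ (ρ g x) = x := by
  rw [← rho_mul, inv_mul_cancel, map_one]; rfl

lemma rho_rho_inv (g : G) (x : V) : ρ g (ρ g⁻¹ x) = x := by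
  rw [← rho_mul, mul_inv_cancel, map_one]; rfl

variable {ρ}

lemma Irr.schur [FiniteDimensional ℂ V] {N : Subgroup G} {W : Submodule ℂ V} (h : Irr ρ N W)
    (A : V →ₗ[ℂ] V)
    (hA : ∀ w ∈ W, A w ∈ W) (hc : ∀ n ∈ N, ∀ w ∈ W, A (ρ n w) = ρ n (A w)) :
    ∃ c : ℂ, ∀ w ∈ W, A w = c • w := by
  have hnt : Nontrivial W := Submodule.nontrivial_iff_ne_bot.mpr h.ne
  obtain ⟨c, hc'⟩ := Module.End.exists_eigenvalue (A.restrict hA)
  obtain ⟨⟨x, hx⟩, hx1, hx2⟩ := hc'.exists_hasEigenvector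
  rw [Module.End.mem_eigenspace_iff] at hx1
  have hx1' : A x = c • x := congrArg Subtype.val hx1
  have hx0 : x ≠ 0 := fun h0 => hx2 (Subtype.ext h0)
  refine ⟨c, ?_⟩
  set U : Submodule ℂ V := W ⊓ LinearMap.ker (A - c • LinearMap.id) with hU
  have hmem : ∀ u, u ∈ U ↔ u ∈ W ∧ A u = c • u := by
    intro u
    rw [hU, Submodule.mem_inf, LinearMap.mem_ker]
    simp [sub_eq_zero]
  have := h.min U inf_le_left (by
    intro h0
    have : x ∈ U := (hmem x).mpr ⟨hx, hx1'⟩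
    rw [h0, Submodule.mem_bot] at this
    exact hx0 this) (by
    intro n hn w hw
    rw [hmem] at hw ⊢
    exact ⟨h.stb n hn w hw.1, by rw [hc n hn w hw.1, hw.2, map_smul]⟩)
  intro w hw
  rw [← this, hmem] at hw
  exact hw.2

/-- an averaged projection onto a stable subspace -/
lemma exists_proj (N : Subgroup G) (U : Submodule ℂ V) (hU : Stb ρ N U) :
    ∃ P : V →ₗ[ℂ] V, (∀ u ∈ U, P u = u) ∧ (∀ x, P x ∈ U) ∧
      (∀ n ∈ N, ∀ x, P (ρ n x) = ρ n (P x)) := by
  classical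
  obtain ⟨p, hp⟩ := U.exists_isCompl
  set P0 : V →ₗ[ℂ] V := U.subtype ∘ₗ U.projectionOnto p hp with hP0
  have h1 : ∀ u ∈ U, P0 u = u := by
    intro u hu
    have := Submodule.projectionOnto_apply_left hp ⟨u, hu⟩
    simp only [hP0, LinearMap.comp_apply, Submodule.subtype_apply]
    exact congrArg Subtype.val this
  have h2 : ∀ x, P0 x ∈ U := fun x => Submodule.coe_mem _
  have := Fintype.ofFinite N
  have hc : (Nat.card N : ℂ) ≠ 0 := by exact_mod_cast Nat.card_pos.ne'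
  refine ⟨(Nat.card N : ℂ)⁻¹ • ∑ n : N, (ρ (n : G)) ∘ₗ P0 ∘ₗ (ρ ((n : G)⁻¹)), ?_, ?_, ?_⟩
  · intro u hu
    simp only [LinearMap.smul_apply, LinearMap.sum_apply, LinearMap.comp_apply]
    have : ∀ n : N, ρ (n : G) (P0 (ρ ((n : G)⁻¹) u)) = u := by
      intro n
      rw [h1 _ (hU _ (N.inv_mem n.2) u hu), rho_rho_inv]
    simp only [this]
    rw [Finset.sum_const, Finset.card_univ, ← Nat.card_eq_fintype_card, ← Nat.cast_smul_eq_nsmul ℂ,
      smul_smul, inv_mul_cancel₀ hc, one_smul]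
  · intro x
    simp only [LinearMap.smul_apply, LinearMap.sum_apply, LinearMap.comp_apply]
    exact U.smul_mem _ (U.sum_mem fun n _ => hU _ n.2 _ (h2 _))
  · intro m hm x
    simp only [LinearMap.smul_apply, LinearMap.sum_apply, LinearMap.comp_apply, map_smul, map_sum]
    congr 1
    refine Fintype.sum_equiv (Equiv.mulLeft (⟨m, hm⟩ : N)⁻¹) _ _ fun n => ?_
    simp only [Equiv.coe_mulLeft, Subgroup.coe_mul, InvMemClass.coe_inv, mul_inv_rev, inv_inv]
    rw [rho_mul ρ (m⁻¹) n, rho_mul ρ _ m, rho_rho_inv]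

lemma key [FiniteDimensional ℂ V] {N N' : Subgroup G} {W U U' : Submodule ℂ V} (hle : N ≤ N')
    (hn : ∀ g ∈ N', ∀ n ∈ N, g * n * g⁻¹ ∈ N)
    (hi : ∀ g ∈ N', ∀ h ∈ N', g ∉ N → h ∉ N → g * h ∈ N)
    (hW : Irr ρ N' W) (hU : Irr ρ N U) (hUW : U ≤ W) (hU' : Irr ρ N U') (hU'W : U' ≤ W)
    {P : V →ₗ[ℂ] V} (hP1 : ∀ u ∈ U, P u = u) (hP2 : ∀ x, P x ∈ U)
    (hP3 : ∀ n ∈ N, ∀ x, P (ρ n x) = ρ n (P x)) : U' = U ∨ ∀ u ∈ U', P u = 0 := by
  by_cases hNN : N' ≤ N
  · have e : N = N' := le_antisymm hle hNN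
    subst e
    left
    rw [hW.min U hUW hU.ne hU.stb, hW.min U' hU'W hU'.ne hU'.stb]
  obtain ⟨g, hg, hgN⟩ : ∃ g ∈ N', g ∉ N := by
    by_contra hc
    push Not at hc
    exact hNN hc
  obtain ⟨Q, hQ1, hQ2, hQ3⟩ := exists_proj N U' hU'.stb
  have hg1 : g⁻¹ ∈ N' := N'.inv_mem hg
  have hg1N : g⁻¹ ∉ N := fun h => hgN (by simpa using N.inv_mem h)
  have hgg : g * g ∈ N := hi g hg g hg hgN hgN
  have hcov : ∀ h ∈ N', h ∉ N → g⁻¹ * h ∈ N := fun h hh hhN => hi _ hg1 _ hh hg1N hhN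
  have hn' : ∀ n ∈ N, g⁻¹ * n * g ∈ N := by
    intro n hn0
    have := hn g⁻¹ hg1 n hn0
    simpa using this
  -- generic facts on averaged operators
  have gen : ∀ R : V →ₗ[ℂ] V, (∀ w ∈ W, R w ∈ W) → (∀ n ∈ N, ∀ x, R (ρ n x) = ρ n (R x)) →
      (∀ x, R (ρ g x) = ρ g (R x)) → ∃ c : ℂ, ∀ w ∈ W, R w = c • w := by
    intro R hR1 hR2 hR3
    refine hW.schur R hR1 ?_
    intro n hn0 w hw
    by_cases hnN : n ∈ N
    · exact hR2 n hnN w
    · have h1 : n = g * (g⁻¹ * n) := by group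
      rw [h1, rho_mul, hR3, hR2 _ (hcov n hn0 hnN), ← rho_mul ρ g]
  let cj : (V →ₗ[ℂ] V) → (V →ₗ[ℂ] V) := fun R => ρ g ∘ₗ R ∘ₗ ρ g⁻¹
  have cj_apply : ∀ R x, cj R x = ρ g (R (ρ g⁻¹ x)) := fun R x => rfl
  have cjN : ∀ R : V →ₗ[ℂ] V, (∀ n ∈ N, ∀ x, R (ρ n x) = ρ n (R x)) →
      (∀ n ∈ N, ∀ x, cj R (ρ n x) = ρ n (cj R x)) := by
    intro R hR n hn0 x
    rw [cj_apply, cj_apply]
    have h1 : ρ g⁻¹ (ρ n x) = ρ (g⁻¹ * n * g) (ρ g⁻¹ x) := by
      rw [rho_mul ρ _ g, rho_rho_inv, rho_mul]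
    rw [h1, hR _ (hn' n hn0), ← rho_mul ρ g, ← rho_mul ρ n]
    congr 2
    group
  have cjW : ∀ R : V →ₗ[ℂ] V, (∀ w ∈ W, R w ∈ W) → (∀ w ∈ W, cj R w ∈ W) := by
    intro R hR w hw
    exact hW.stb g hg _ (hR _ (hW.stb _ hg1 w hw))
  have cjg : ∀ (R : V →ₗ[ℂ] V) x, cj R (ρ g x) = ρ g (R x) := by
    intro R x
    rw [cj_apply, rho_inv_rho]
  have cjg' : ∀ (R : V →ₗ[ℂ] V), (∀ n ∈ N, ∀ x, R (ρ n x) = ρ n (R x)) →
      ∀ x, R (ρ g x) = ρ g (cj R x) := by
    intro R hR x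
    rw [cj_apply, ← rho_mul ρ g, ← hR _ hgg, rho_mul, rho_rho_inv]
  have hPW : ∀ w ∈ W, P w ∈ W := fun w _ => hUW (hP2 w)
  have hQW : ∀ w ∈ W, Q w ∈ W := fun w _ => hU'W (hQ2 w)
  obtain ⟨p, hp⟩ := gen (P + cj P) (fun w hw => W.add_mem (hPW w hw) (cjW P hPW w hw))
    (fun n hn0 x => by
      simp only [LinearMap.add_apply, hP3 n hn0, cjN P hP3 n hn0, map_add])
    (fun x => by
      simp only [LinearMap.add_apply, cjg, cjg' P hP3, map_add]
      rw [add_comm])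
  obtain ⟨q, hq⟩ := gen (Q + cj Q) (fun w hw => W.add_mem (hQW w hw) (cjW Q hQW w hw))
    (fun n hn0 x => by
      simp only [LinearMap.add_apply, hQ3 n hn0, cjN Q hQ3 n hn0, map_add])
    (fun x => by
      simp only [LinearMap.add_apply, cjg, cjg' Q hQ3, map_add]
      rw [add_comm])
  set B : V →ₗ[ℂ] V := P - cj P with hB
  set D : V →ₗ[ℂ] V := Q - cj Q with hD
  have hBg : ∀ x, B (ρ g x) = - ρ g (B x) := by
    intro x
    simp only [hB, LinearMap.sub_apply, cjg, cjg' P hP3, map_sub]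
    abel
  have hDg : ∀ x, D (ρ g x) = - ρ g (D x) := by
    intro x
    simp only [hD, LinearMap.sub_apply, cjg, cjg' Q hQ3, map_sub]
    abel
  have hBN : ∀ n ∈ N, ∀ x, B (ρ n x) = ρ n (B x) := by
    intro n hn0 x
    simp only [hB, LinearMap.sub_apply, hP3 n hn0, cjN P hP3 n hn0, map_sub]
  have hDN : ∀ n ∈ N, ∀ x, D (ρ n x) = ρ n (D x) := by
    intro n hn0 x
    simp only [hD, LinearMap.sub_apply, hQ3 n hn0, cjN Q hQ3 n hn0, map_sub]
  have hBW : ∀ w ∈ W, B w ∈ W := fun w hw => W.sub_mem (hPW w hw) (cjW P hPW w hw)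
  have hDW : ∀ w ∈ W, D w ∈ W := fun w hw => W.sub_mem (hQW w hw) (cjW Q hQW w hw)
  obtain ⟨β, hβ⟩ := gen (B ∘ₗ B) (fun w hw => hBW _ (hBW w hw))
    (fun n hn0 x => by simp only [LinearMap.comp_apply, hBN n hn0])
    (fun x => by simp only [LinearMap.comp_apply, hBg, map_neg, neg_neg])
  obtain ⟨γ, hγ⟩ := gen (D ∘ₗ B) (fun w hw => hDW _ (hBW w hw))
    (fun n hn0 x => by simp only [LinearMap.comp_apply, hBN n hn0, hDN n hn0])
    (fun x => by simp only [LinearMap.comp_apply, hBg, hDg, map_neg, neg_neg])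
  have hP2' : ∀ w ∈ W, (2 : ℂ) • P w = p • w + B w := by
    intro w hw
    have := hp w hw
    rw [← this, hB]
    simp only [LinearMap.add_apply, LinearMap.sub_apply, two_smul]
    abel
  have hQ2' : ∀ w ∈ W, (2 : ℂ) • Q w = q • w + D w := by
    intro w hw
    have := hq w hw
    rw [← this, hD]
    simp only [LinearMap.add_apply, LinearMap.sub_apply, two_smul]
    abel
  obtain ⟨u0, hu0, hu0n⟩ := Submodule.exists_mem_ne_zero_of_ne_bot hU.ne
  obtain ⟨u1, hu1, hu1n⟩ := Submodule.exists_mem_ne_zero_of_ne_bot hU'.ne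
  by_cases hβ0 : β = 0
  · -- B vanishes on W
    have hBB : ∀ w ∈ W, B (B w) = 0 := by
      intro w hw
      have := hβ w hw
      rw [hβ0, zero_smul] at this
      exact this
    set K : Submodule ℂ V := W ⊓ LinearMap.ker B with hK
    have hKne : K ≠ ⊥ := by
      intro hK0
      by_cases h1 : B u0 = 0
      · have : u0 ∈ K := ⟨hUW hu0, h1⟩
        rw [hK0, Submodule.mem_bot] at this
        exact hu0n this
      · have : B u0 ∈ K := ⟨hBW _ (hUW hu0), hBB _ (hUW hu0)⟩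
        rw [hK0, Submodule.mem_bot] at this
        exact h1 this
    have hKst : Stb ρ N' K := by
      intro n hn0 w hw
      refine ⟨hW.stb n hn0 w hw.1, ?_⟩
      show B (ρ n w) = 0
      have hw2 : B w = 0 := hw.2
      by_cases hnN : n ∈ N
      · rw [hBN n hnN, hw2, map_zero]
      · have h1 : n = g * (g⁻¹ * n) := by group
        rw [h1, rho_mul, hBg, hBN _ (hcov n hn0 hnN), hw2, map_zero, map_zero, neg_zero]
    have hKW := hW.min K inf_le_left hKne hKst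
    have hBz : ∀ w ∈ W, B w = 0 := by
      intro w hw
      rw [← hKW] at hw
      exact hw.2
    left
    have hp2 : p = 2 := by
      have h1 := hP2' u0 (hUW hu0)
      rw [hP1 u0 hu0, hBz _ (hUW hu0), add_zero] at h1
      have h2 : (2 - p) • u0 = 0 := by rw [sub_smul, h1, sub_self]
      exact (sub_eq_zero.mp ((smul_eq_zero.mp h2).resolve_right hu0n)).symm
    have hWU : W ≤ U := by
      intro w hw
      have h1 := hP2' w hw
      rw [hBz w hw, add_zero, hp2] at h1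
      have h2 : P w = w := smul_right_injective V (two_ne_zero (α := ℂ)) h1
      rw [← h2]
      exact hP2 w
    have hUW' : U = W := le_antisymm hUW hWU
    exact hU.min U' (hUW' ▸ hU'W) hU'.ne hU'.stb
  · have hDB : ∀ w ∈ W, D w = (γ / β) • B w := by
      intro w hw
      have h1 := hγ (B w) (hBW w hw)
      simp only [LinearMap.comp_apply] at h1
      have h2 := hβ w hw
      simp only [LinearMap.comp_apply] at h2
      rw [h2, map_smul] at h1
      rw [div_eq_inv_mul, mul_smul, ← h1, smul_smul, inv_mul_cancel₀ hβ0, one_smul]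
    set c := γ / β with hc
    set a : ℂ := (q - c * p) / 2 with ha
    have hQP : ∀ w ∈ W, Q w = a • w + c • P w := by
      intro w hw
      apply smul_right_injective V (two_ne_zero (α := ℂ))
      simp only
      rw [hQ2' w hw, hDB w hw]
      have h1 : B w = (2 : ℂ) • P w - p • w := by rw [hP2' w hw]; abel
      rw [h1, ha]
      module
    by_cases hc0 : c = 0
    · left
      have ha1 : a = 1 := by
        have h1 := hQP u1 (hU'W hu1)
        rw [hQ1 u1 hu1, hc0, zero_smul, add_zero] at h1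
        have h2 : (1 - a) • u1 = 0 := by rw [sub_smul, one_smul, ← h1, sub_self]
        exact (sub_eq_zero.mp ((smul_eq_zero.mp h2).resolve_right hu1n)).symm
      have hWU : W ≤ U' := by
        intro w hw
        have h1 := hQP w hw
        rw [hc0, zero_smul, add_zero, ha1, one_smul] at h1
        rw [← h1]
        exact hQ2 w
      have hUW' : U' = W := le_antisymm hU'W hWU
      exact (hU'.min U (hUW' ▸ hUW) hU.ne hU.stb).symm
    · set t : ℂ := (1 - a) / c with ht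
      have hPt : ∀ u ∈ U', P u = t • u := by
        intro u hu
        have h1 := hQP u (hU'W hu)
        rw [hQ1 u hu] at h1
        have h2 : c • P u = (1 - a) • u := by
          rw [sub_smul, one_smul]
          nth_rewrite 2 [h1]
          abel
        rw [ht, div_eq_inv_mul, mul_smul, ← h2, smul_smul, inv_mul_cancel₀ hc0, one_smul]
      have htt : t * t = t := by
        have h1 := hPt u1 hu1
        have h2 : P (P u1) = P u1 := hP1 _ (hP2 _)
        rw [h1, map_smul, h1, smul_smul] at h2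
        have h3 : (t * t - t) • u1 = 0 := by rw [sub_smul, h2, sub_self]
        exact sub_eq_zero.mp ((smul_eq_zero.mp h3).resolve_right hu1n)
      have htt' : t * (t - 1) = 0 := by rw [mul_sub, htt, mul_one, sub_self]
      rcases mul_eq_zero.mp htt' with h0 | h1
      · right
        intro u hu
        rw [hPt u hu, h0, zero_smul]
      · left
        have h1' : t = 1 := sub_eq_zero.mp h1
        apply hU.min U' _ hU'.ne hU'.stb
        intro u hu
        have := hPt u hu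
        rw [h1', one_smul] at this
        rw [← this]
        exact hP2 u

variable (ρ) in
/-- the span of the `N`-orbit of `v` -/
def orb (N : Subgroup G) (v : V) : Submodule ℂ V := Submodule.span ℂ {w | ∃ n ∈ N, w = ρ n v}

lemma mem_orb_self (N : Subgroup G) (v : V) : v ∈ orb ρ N v :=
  Submodule.subset_span ⟨1, N.one_mem, by simp⟩

lemma mem_orb {N : Subgroup G} {n : G} (hn : n ∈ N) (v : V) : ρ n v ∈ orb ρ N v :=
  Submodule.subset_span ⟨n, hn, rfl⟩

lemma orb_le {N : Subgroup G} {v : V} {W : Submodule ℂ V} (hW : Stb ρ N W) (hv : v ∈ W) :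
    orb ρ N v ≤ W := by
  rw [orb, Submodule.span_le]
  rintro _ ⟨n, hn, rfl⟩
  exact hW n hn v hv

lemma orb_mono {N N' : Subgroup G} (h : N ≤ N') (v : V) : orb ρ N v ≤ orb ρ N' v := by
  rw [orb, Submodule.span_le]
  rintro _ ⟨n, hn, rfl⟩
  exact mem_orb (h hn) v

lemma orb_stb (N : Subgroup G) (v : V) : Stb ρ N (orb ρ N v) := by
  intro n hn w hw
  have h1 : orb ρ N v ≤ (orb ρ N v).comap (ρ n) := by
    conv_lhs => rw [orb]
    rw [Submodule.span_le]
    rintro _ ⟨m, hm, rfl⟩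
    show ρ n (ρ m v) ∈ orb ρ N v
    rw [← rho_mul]
    exact mem_orb (N.mul_mem hn hm) v
  exact h1 hw

/-- the orbit span of `ρ g v` -/
lemma orb_rho {N : Subgroup G} (hn : ∀ g : G, ∀ n ∈ N, g * n * g⁻¹ ∈ N) (g : G) (v : V) :
    orb ρ N (ρ g v) = (orb ρ N v).map (ρ g) := by
  apply le_antisymm
  · rw [orb, Submodule.span_le]
    rintro _ ⟨n, hn0, rfl⟩
    refine ⟨ρ (g⁻¹ * n * g) v, mem_orb (by simpa using hn g⁻¹ n hn0) v, ?_⟩
    rw [← rho_mul, ← rho_mul]
    congr 2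
    group
  · rw [orb, Submodule.map_span, Submodule.span_le]
    rintro _ ⟨_, ⟨n, hn0, rfl⟩, rfl⟩
    rw [← rho_mul]
    have : g * n = (g * n * g⁻¹) * g := by group
    rw [this, rho_mul]
    exact mem_orb (hn g n hn0) _

lemma Irr.rho {N : Subgroup G} (hn : ∀ g : G, ∀ n ∈ N, g * n * g⁻¹ ∈ N) {W : Submodule ℂ V}
    (h : Irr ρ N W) (g : G) : Irr ρ N (W.map (ρ g)) where
  ne h0 := by
    obtain ⟨w, hw, hw0⟩ := Submodule.exists_mem_ne_zero_of_ne_bot h.ne
    have h1 : ρ g w ∈ W.map (ρ g) := Submodule.mem_map_of_mem hw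
    rw [h0, Submodule.mem_bot] at h1
    apply hw0
    rw [← rho_inv_rho ρ g w, h1, map_zero]
  stb := by
    rintro n hn0 _ ⟨w, hw, rfl⟩
    refine ⟨ρ (g⁻¹ * n * g) w, h.stb _ (by simpa using hn g⁻¹ n hn0) w hw, ?_⟩
    rw [← rho_mul, ← rho_mul]
    congr 2
    group
  min U hU hU0 hUs := by
    have h1 : U.map (ρ g⁻¹) = W := by
      apply h.min
      · rintro _ ⟨u, hu, rfl⟩
        obtain ⟨w, hw, rfl⟩ := hU hu
        rw [rho_inv_rho]
        exact hw
      · intro h0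
        obtain ⟨u, hu, hu0⟩ := Submodule.exists_mem_ne_zero_of_ne_bot hU0
        have h1 : ρ g⁻¹ u ∈ U.map (ρ g⁻¹) := Submodule.mem_map_of_mem hu
        rw [h0, Submodule.mem_bot] at h1
        apply hu0
        rw [← rho_rho_inv ρ g u, h1, map_zero]
      · rintro n hn0 _ ⟨u, hu, rfl⟩
        refine ⟨ρ (g * n * g⁻¹) u, hUs _ (hn g n hn0) u hu, ?_⟩
        rw [← rho_mul, ← rho_mul]
        congr 2
        group
    rw [← h1]
    ext x
    constructor
    · intro hx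
      exact ⟨ρ g⁻¹ x, Submodule.mem_map_of_mem hx, rho_rho_inv ρ g x⟩
    · rintro ⟨_, ⟨u, hu, rfl⟩, rfl⟩
      rw [rho_rho_inv]
      exact hu

variable (ρ) in
/-- `v` is adapted to the chain `N 0 ≤ N 1 ≤ …` up to level `r` -/
def Ad (N : ℕ → Subgroup G) (r : ℕ) (v : V) : Prop :=
  v ≠ 0 ∧ ∀ k ≤ r, Irr ρ (N k) (orb ρ (N k) v)

lemma exists_irr [FiniteDimensional ℂ V] (N : Subgroup G) (W : Submodule ℂ V) (hW : W ≠ ⊥)
    (hs : Stb ρ N W) : ∃ U ≤ W, Irr ρ N U := by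
  obtain ⟨U, ⟨hU1, hU2, hU3⟩, hmin⟩ := WellFounded.has_min
    (wellFounded_lt (α := Submodule ℂ V)) {U | U ≤ W ∧ U ≠ ⊥ ∧ Stb ρ N U} ⟨W, le_rfl, hW, hs⟩
  refine ⟨U, hU1, hU2, hU3, fun U' h1 h2 h3 => ?_⟩
  by_contra hne
  exact hmin U' ⟨h1.trans hU1, h2, h3⟩ (lt_of_le_of_ne h1 hne)

lemma exists_adapted [FiniteDimensional ℂ V] (N : ℕ → Subgroup G)
    (hm : ∀ k, N k ≤ N (k + 1)) (k : ℕ) :
    ∀ W : Submodule ℂ V, Irr ρ (N k) W → ∃ v ∈ W, Ad ρ N k v := by
  induction k with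
  | zero =>
    intro W hW
    obtain ⟨v, hv, hv0⟩ := Submodule.exists_mem_ne_zero_of_ne_bot hW.ne
    refine ⟨v, hv, hv0, fun j hj => ?_⟩
    obtain rfl : j = 0 := Nat.le_zero.mp hj
    have : orb ρ (N 0) v = W := by
      apply hW.min _ (orb_le hW.stb hv) _ (orb_stb _ _)
      intro h
      have := mem_orb_self (ρ := ρ) (N 0) v
      rw [h, Submodule.mem_bot] at this
      exact hv0 this
    rw [this]
    exact hW
  | succ k ih =>
    intro W hW
    obtain ⟨U, hUW, hU⟩ := exists_irr (N k) W hW.ne (fun n hn => hW.stb n (hm k hn))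
    obtain ⟨v, hv, hv0, hvA⟩ := ih U hU
    refine ⟨v, hUW hv, hv0, fun j hj => ?_⟩
    rcases Nat.lt_or_ge j (k + 1) with h | h
    · exact hvA j (by omega)
    · obtain rfl : j = k + 1 := by omega
      have : orb ρ (N (k + 1)) v = W := by
        apply hW.min _ (orb_le hW.stb (hUW hv)) _ (orb_stb _ _)
        intro h
        have := mem_orb_self (ρ := ρ) (N (k + 1)) v
        rw [h, Submodule.mem_bot] at this
        exact hv0 this
      rw [this]
      exact hW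

/-- the functional supported on the stabiliser -/
lemma exists_functional [FiniteDimensional ℂ V] (N : ℕ → Subgroup G) (h0 : N 0 = ⊥)
    (hm : ∀ k, N k ≤ N (k + 1))
    (hn : ∀ k, ∀ g : G, ∀ n ∈ N k, g * n * g⁻¹ ∈ N k)
    (hi : ∀ k, ∀ g ∈ N (k + 1), ∀ h ∈ N (k + 1), g ∉ N k → h ∉ N k → g * h ∈ N k) (k : ℕ) :
    ∀ v : V, Ad ρ N k v → ∃ φ : V →ₗ[ℂ] ℂ, φ v = 1 ∧
      ∀ v' : V, Ad ρ N k v' → orb ρ (N k) v' = orb ρ (N k) v →
        v' ∉ Submodule.span ℂ {v} → φ v' = 0 := by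
  induction k with
  | zero =>
    intro v hv
    obtain ⟨φ, hφ⟩ := Module.Projective.exists_dual_eq_one ℂ hv.1
    refine ⟨φ, hφ, fun v' hv' horb hsp => ?_⟩
    exfalso
    apply hsp
    have h1 : v' ∈ orb ρ (N 0) v := horb ▸ mem_orb_self _ _
    rw [orb, h0] at h1
    have h2 : {w | ∃ n ∈ (⊥ : Subgroup G), w = ρ n v} = {v} := by
      ext w
      simp
    rwa [h2] at h1
  | succ k ih =>
    intro v hv
    obtain ⟨φ, hφ1, hφ2⟩ := ih v ⟨hv.1, fun j hj => hv.2 j (by omega)⟩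
    obtain ⟨P, hP1, hP2, hP3⟩ := exists_proj (ρ := ρ) (N k) (orb ρ (N k) v) (orb_stb _ _)
    refine ⟨φ ∘ₗ P, by rw [LinearMap.comp_apply, hP1 v (mem_orb_self _ _), hφ1], ?_⟩
    intro v' hv' horb hsp
    have hU := hv.2 k (by omega)
    have hU' := hv'.2 k (by omega)
    have hW := hv.2 (k + 1) le_rfl
    rcases key (hm k) (fun g _ n hn0 => hn k g n hn0) (hi k) hW hU (orb_mono (hm k) v) hU'
      (horb ▸ orb_mono (hm k) v') hP1 hP2 hP3 with h | h
    · have h1 : P v' = v' := hP1 v' (h ▸ mem_orb_self _ _)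
      rw [LinearMap.comp_apply, h1]
      exact hφ2 v' ⟨hv'.1, fun j hj => hv'.2 j (by omega)⟩ h hsp
    · rw [LinearMap.comp_apply, h v' (mem_orb_self _ _), map_zero]

end Pool.Agent.W90.Swan
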