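import Pool.Agent.W90.Swan.Arith1

/-! Herbrand-type formula and the shift of a pair of fixed fields. -/

open scoped BigOperators Polynomial

set_option linter.unusedSectionVars false

noncomputable section

namespace Pool.Agent.W90.Swan

namespace Dat

variable {G E : Type*} [Group G] [Finite G] [Field E] [MulSemiringAction G E] {D : Dat G E}

variable (D) in
/-- `v (g π - π)` for `g ≠ 1`, and `1` for `g = 1` -/
def e (g : G) : ℤ :=
  open Classical in
  if h : g • D.π - D.π ≠ 0 then (Fil.exists_V (F := D.toFil) h).choose else 1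

lemma e_one : e D 1 = 1 := by
  simp [e]

lemma e_V {g : G} (hg : g ≠ 1) : D.V (e D g) (g • D.π - D.π) := by
  have h : g • D.π - D.π ≠ 0 := fun h => hg (D.faith g (sub_eq_zero.mp h))
  rw [e, dif_pos h]
  exact (Fil.exists_V (F := D.toFil) h).choose_spec.1

lemma fix_of_unif {N : Subgroup G} {ϖ : E} (hϖ : ϖ ∈ K (E := E) N) (hϖV : D.V (Nat.card N) ϖ)
    {σ : G} (h : σ • ϖ = ϖ) : σ ∈ N := by
  refine mem_of_fix (fun z hz => ?_) D
  have hpos : (0 : ℤ) < Nat.card N := by exact_mod_cast Nat.card_pos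
  have hzp : ∀ j : ℤ, σ • ϖ ^ j = ϖ ^ j := by
    intro j
    have := map_zpow₀ (MulSemiringAction.toRingHom G E σ) ϖ j
    have h2 : (MulSemiringAction.toRingHom G E σ) ϖ = ϖ := h
    rw [h2] at this
    exact this
  have key : ∀ (t : ℕ) (j : ℤ) (z : E), z ∈ K (E := E) N → D.L (j * Nat.card N) z →
      D.L (j * Nat.card N + t) (σ • z - z) := by
    intro t
    induction t with
    | zero =>
      intro j z hz hL
      exact D.mono (D.wild σ hL) (by push_cast; omega)
    | succ t ih =>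
      intro j z hz hL
      have hϖj : D.V (j * Nat.card N) (ϖ ^ j) := hϖV.zpow j
      obtain ⟨c, hc, hc0, hc'⟩ := rep' hϖj hL
      have hr : z - c * ϖ ^ j ∈ K (E := E) N :=
        (K N).sub_mem hz ((K N).mul_mem (K_anti le_top hc) (zpow_mem hϖ _))
      have h1 := ih (j + 1) _ hr (L_up hr hc')
      have e : σ • z - z = (σ • (z - c * ϖ ^ j) - (z - c * ϖ ^ j)) := by
        rw [smul_sub, smul_mul', hc σ trivial, hzp]
        ring
      rw [e]
      apply D.mono h1
      have : (j + 1) * (Nat.card N : ℤ) = j * Nat.card N + Nat.card N := by ring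
      rw [this]
      push_cast
      omega
  by_cases hz0 : z = 0
  · rw [hz0, smul_zero]
  obtain ⟨m, hm, -⟩ := Fil.exists_V (F := D.toFil) hz0
  obtain ⟨b, hb⟩ := dvd hz hm
  rw [mul_comm] at hb
  rw [← sub_eq_zero]
  apply D.sep
  intro k
  have h1 := key (k + m.natAbs) b z hz (hb ▸ hm.1)
  have h2 := neg_abs_le m
  exact D.mono h1 (by rw [← hb]; push_cast; omega)

lemma pol_natDegree (N : Subgroup G) : (pol D N).natDegree = Nat.card N ∧ (pol D N).Monic := by
  let := Fintype.ofFinite N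
  constructor
  · rw [pol, Polynomial.natDegree_prod_of_monic _ _ fun τ _ => Polynomial.monic_X_sub_C _]
    simp
  · rw [pol]
    exact Polynomial.monic_prod_of_monic _ _ fun τ _ => Polynomial.monic_X_sub_C _

lemma pol_coeff_zero (N : Subgroup G) : D.V (Nat.card N) ((pol D N).coeff 0) := by
  let := Fintype.ofFinite N
  rw [pol, Polynomial.coeff_zero_eq_eval_zero, Polynomial.eval_prod]
  simp only [Polynomial.eval_sub, Polynomial.eval_X, Polynomial.eval_C, zero_sub]
  have h1 := Fil.V_prod (F := D.toFil) Finset.univ (fun g : N => -((g : G) • D.π)) (fun _ => 1)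
      (fun g _ => (V_act _ D.Vπ).neg)
  simpa using h1

lemma pol_coeff_L (N : Subgroup G) {i : ℕ} (hi : i < Nat.card N) : D.L 1 ((pol D N).coeff i) := by
  let := Fintype.ofFinite N
  rw [pol]
  refine (coeff_prod D.toFil Finset.univ _ (fun τ _ => (V_act _ D.Vπ).1) i).2 ?_
  rwa [Finset.card_univ, ← Nat.card_eq_fintype_card]

/-- Herbrand's formula -/
lemma herbrand {N : Subgroup G} {σ : G} (hσ : σ ∉ N) :
    D.V (∑ᶠ τ : N, e D (σ * τ)) (σ • (pol D N).coeff 0 - (pol D N).coeff 0) := by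
  let := Fintype.ofFinite N
  have hpos : 0 < Nat.card N := Nat.card_pos
  rw [finsum_eq_sum_of_fintype]
  set ϖ := (pol D N).coeff 0 with hϖd
  have hϖ : ϖ ∈ K (E := E) N := pol_coeff_mem N 0
  have hϖV : D.V (Nat.card N) ϖ := pol_coeff_zero N
  have hne : σ • ϖ - ϖ ≠ 0 := fun h => hσ (fix_of_unif hϖ hϖV (sub_eq_zero.mp h))
  obtain ⟨m, hm, -⟩ := Fil.exists_V (F := D.toFil) hne
  obtain ⟨s, rfl⟩ : ∃ s, m = Nat.card N + s := ⟨m - Nat.card N, by ring⟩
  set f := pol D N with hf
  set g : E[X] := f.map (MulSemiringAction.toRingHom G E σ) - f with hg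
  have hgc : ∀ i, g.coeff i = σ • f.coeff i - f.coeff i := by
    intro i
    rw [hg, Polynomial.coeff_sub, Polynomial.coeff_map]
    rfl
  have hev : g.eval D.π = ∏ τ : N, (D.π - (σ * τ : G) • D.π) := by
    rw [hg, Polynomial.eval_sub, hf, pol_eval, sub_zero, pol_map_eval]
  have hV1 : D.V (∑ τ : N, e D (σ * τ)) (g.eval D.π) := by
    rw [hev]
    refine Fil.V_prod (F := D.toFil) Finset.univ _ _ (fun τ _ => ?_)
    have h1 : σ * (τ : G) ≠ 1 := by
      intro h
      apply hσ
      rw [eq_inv_of_mul_eq_one_left h]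
      exact N.inv_mem τ.2
    have h2 := (e_V (D := D) h1).neg
    rwa [neg_sub] at h2
  have hV2 : D.V (Nat.card N + s) (g.eval D.π) := by
    have hdeg : g.natDegree < Nat.card N + 1 := by
      have h1 : g.natDegree ≤ max (f.map (MulSemiringAction.toRingHom G E σ)).natDegree f.natDegree :=
        Polynomial.natDegree_sub_le _ _
      have h2 : (f.map (MulSemiringAction.toRingHom G E σ)).natDegree ≤ f.natDegree :=
        Polynomial.natDegree_map_le
      have h3 : f.natDegree = Nat.card N := (pol_natDegree N).1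
      omega
    rw [Polynomial.eval_eq_sum_range' hdeg, Finset.sum_range_succ']
    rw [pow_zero, mul_one, hgc 0]
    rw [add_comm (∑ k ∈ Finset.range (Nat.card N), g.coeff (k + 1) * D.π ^ (k + 1))]
    refine hm.add ?_
    refine Fil.L_sum _ _ fun i hi => ?_
    rw [Finset.mem_range] at hi
    rw [hgc]
    rcases Nat.lt_or_ge (i + 1) (Nat.card N) with h | h
    · have h1 : D.L (1 * Nat.card N) (f.coeff (i + 1)) := by
        have h2 := pol_coeff_L (D := D) N h
        have h3 : D.L (0 * Nat.card N + 1) (f.coeff (i + 1)) := by simpa using h2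
        have h4 := L_up (pol_coeff_mem N (i + 1)) h3
        simpa using h4
      have h5 := shift_mul hϖ hϖV hm (pol_coeff_mem N (i + 1)) h1
      have h6 : D.V ((i + 1 : ℕ) * 1) (D.π ^ (i + 1)) := D.Vπ.pow (i + 1)
      exact Fil.mul h5 h6.1 (by push_cast; omega)
    · have h1 : i + 1 = Nat.card N := by omega
      have h2 : f.coeff (i + 1) = 1 := by
        rw [h1, ← (pol_natDegree (D := D) N).1]
        exact (pol_natDegree (D := D) N).2
      rw [h2, smul_one, sub_self, zero_mul]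
      exact D.zero _
  rw [← hV1.unique hV2]
  exact hm

/-- a pair of subgroups of relative index two with an element of the difference -/
structure Pr (N H : Subgroup G) (σ : G) : Prop where
  le : N ≤ H
  mem : σ ∈ H
  nmem : σ ∉ N
  nrm : ∀ h ∈ H, ∀ n ∈ N, h * n * h⁻¹ ∈ N
  cov : ∀ h ∈ H, h ∉ N → σ⁻¹ * h ∈ N

variable (D) in
/-- the sum of the jumps over a subgroup -/
def J (N : Subgroup G) : ℤ := ∑ᶠ g ∈ (N : Set G), (e D g - 1)

namespace Pr

variable {N H : Subgroup G} {σ : G}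

lemma coe (P : Pr N H σ) : (H : Set G) = (N : Set G) ∪ (fun n => σ * n) '' (N : Set G) := by
  ext h
  constructor
  · intro hh
    by_cases hN : h ∈ N
    · exact Or.inl hN
    · exact Or.inr ⟨σ⁻¹ * h, P.cov h hh hN, by simp⟩
  · rintro (h1 | ⟨n, hn, rfl⟩)
    · exact P.le h1
    · exact H.mul_mem P.mem (P.le hn)

lemma disj (P : Pr N H σ) : Disjoint (N : Set G) ((fun n => σ * n) '' (N : Set G)) := by
  rw [Set.disjoint_left]
  rintro _ hx ⟨n, hn, rfl⟩
  apply P.nmem
  have h1 : σ = (σ * n) * n⁻¹ := by group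
  rw [h1]
  exact N.mul_mem hx (N.inv_mem hn)

lemma card (P : Pr N H σ) : Nat.card H = 2 * Nat.card N := by
  have h1 : Nat.card H = (H : Set G).ncard := rfl
  have h2 : Nat.card N = (N : Set G).ncard := rfl
  rw [h1, h2, P.coe, Set.ncard_union_eq P.disj (Set.toFinite _) (Set.toFinite _),
    Set.ncard_image_of_injective _ (mul_right_injective σ)]
  ring

lemma lam (P : Pr N H σ) : ∑ᶠ τ : N, (e D (σ * τ) - 1) = J D H - J D N := by
  rw [J, P.coe, finsum_mem_union P.disj (Set.toFinite _) (Set.toFinite _), J]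
  rw [finsum_mem_image (mul_right_injective σ).injOn]
  have h1 : ∑ᶠ τ : N, (e D (σ * τ) - 1) = ∑ᶠ i ∈ (N : Set G), (e D (σ * i) - 1) :=
    finsum_set_coe_eq_finsum_mem (N : Set G)
      (f := fun i => e D (σ * i) - 1)
  rw [h1]
  ring

lemma fix2 (P : Pr N H σ) : σ * σ ∈ N := by
  by_contra h
  have h1 := P.cov _ (H.mul_mem P.mem P.mem) h
  simp only [inv_mul_cancel_left] at h1
  exact P.nmem h1

lemma nrm' (P : Pr N H σ) {n : G} (hn : n ∈ N) : σ⁻¹ * n * σ ∈ N := by
  simpa using P.nrm σ⁻¹ (H.inv_mem P.mem) n hn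

lemma act_mem (P : Pr N H σ) {z : E} (hz : z ∈ K (E := E) N) : σ • z ∈ K (E := E) N := by
  intro n hn
  have : n * σ = σ * (σ⁻¹ * n * σ) := by group
  rw [← mul_smul, this, mul_smul, hz _ (P.nrm' hn)]

lemma act_act (P : Pr N H σ) {z : E} (hz : z ∈ K (E := E) N) : σ • σ • z = z := by
  rw [← mul_smul]
  exact hz _ P.fix2

lemma mem_of (P : Pr N H σ) {z : E} (hz : z ∈ K (E := E) N) (h : σ • z = z) :
    z ∈ K (E := E) H := by
  intro g hg
  by_cases hgN : g ∈ N
  · exact hz g hgN
  · have : g = σ * (σ⁻¹ * g) := by group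
    rw [this, mul_smul, hz _ (P.cov g hg hgN), h]

lemma tr_mem (P : Pr N H σ) {z : E} (hz : z ∈ K (E := E) N) : z + σ • z ∈ K (E := E) H := by
  apply P.mem_of ((K N).add_mem hz (P.act_mem hz))
  rw [smul_add, P.act_act hz, add_comm]

lemma nm_mem (P : Pr N H σ) {z : E} (hz : z ∈ K (E := E) N) : z * σ • z ∈ K (E := E) H := by
  apply P.mem_of ((K N).mul_mem hz (P.act_mem hz))
  rw [smul_mul', P.act_act hz, mul_comm]

lemma mem_N (P : Pr N H σ) {z : E} (hz : z ∈ K (E := E) H) : z ∈ K (E := E) N := K_anti P.le hz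

end Pr

/-- the shift of a pair -/
structure Sh (D : Dat G E) (N : Subgroup G) (σ : G) (s : ℤ) : Prop where
  s1 : 1 ≤ s
  dvs : (Nat.card N : ℤ) ∣ s
  shift : ∀ {a : ℤ} {z : E}, z ∈ K (E := E) N → D.L a z → D.L (a + s) (σ • z - z)
  odd : ∀ {a : ℤ} {z : E}, z ∈ K (E := E) N → D.V a z → ¬ (2 * (Nat.card N : ℤ)) ∣ a →
    D.V (a + s) (σ • z - z)
  even : ∀ {a : ℤ} {z : E}, z ∈ K (E := E) N → D.L a z → (2 * (Nat.card N : ℤ)) ∣ a →
    D.L (a + s + 1) (σ • z - z)

theorem Pr.sh {N H : Subgroup G} {σ : G} (P : Pr N H σ) (D : Dat G E) :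
    Sh D N σ (J D H - J D N) := by
  have hher := herbrand (D := D) P.nmem
  set ϖ := (pol D N).coeff 0 with hϖd
  have hϖ : ϖ ∈ K (E := E) N := pol_coeff_mem N 0
  have hϖV : D.V (Nat.card N) ϖ := pol_coeff_zero N
  have hs : D.V (Nat.card N + (J D H - J D N)) (σ • ϖ - ϖ) := by
    rw [← P.lam]
    let := Fintype.ofFinite N
    rw [finsum_eq_sum_of_fintype, Finset.sum_sub_distrib]
    rw [finsum_eq_sum_of_fintype] at hher
    have e1 : (Nat.card N : ℤ) + (∑ x : N, e D (σ * x) - ∑ x : N, 1) = ∑ x : N, e D (σ * x) := by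
      rw [Finset.sum_const, Finset.card_univ, ← Nat.card_eq_fintype_card]
      simp
    rw [e1]
    exact hher
  refine ⟨one_le_s hϖV hs, ?_, fun hz hL => shift hϖ hϖV hs hz hL,
    fun hz hV ha => shift_odd hϖ hϖV hs hz hV ha, fun hz hL ha => shift_even hϖ hϖV hs hz hL ha⟩
  have h1 := dvd ((K N).sub_mem (P.act_mem hϖ) hϖ) hs
  exact (dvd_add_right (dvd_refl _)).mp h1

end Dat

end Pool.Agent.W90.Swan
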