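import Mathlib

/-! Refinement of a normal series of a finite `2`-group to steps of index at most two. -/

set_option linter.unusedSectionVars false

noncomputable section

namespace Pool.Agent.W90.Swan

variable {G : Type*} [Group G] [Finite G]

/-- between two normal subgroups of a `2`-group there is one of relative index two -/
lemma pstep (hG : IsPGroup 2 G) (X Y : Subgroup G) (hX : X.Normal) (hY : Y.Normal) (hXY : X < Y) :
    ∃ X' : Subgroup G, X'.Normal ∧ X < X' ∧ X' ≤ Y ∧
      ∀ g ∈ X', ∀ h ∈ X', g ∉ X → h ∉ X → g * h ∈ X := by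
  have hQ : IsPGroup 2 (G ⧸ X) := hG.to_quotient X
  set Z : Subgroup (G ⧸ X) := Y.map (QuotientGroup.mk' X) with hZ
  have hZn : Z.Normal := hY.map _ (QuotientGroup.mk'_surjective X)
  obtain ⟨y, hyY, hyX⟩ := SetLike.exists_of_lt hXY
  have hZnt : Nontrivial Z := by
    rw [Subgroup.nontrivial_iff_exists_ne_one]
    refine ⟨(y : G ⧸ X), ⟨y, hyY, rfl⟩, ?_⟩
    intro h
    exact hyX ((QuotientGroup.eq_one_iff y).mp h)
  have hZp : IsPGroup 2 Z := hQ.to_subgroup Z
  have h2 : 2 ∣ Nat.card Z := by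
    obtain ⟨n, hn⟩ := (IsPGroup.iff_card (p := 2)).mp hZp
    have hgt : 1 < Nat.card Z := Finite.one_lt_card
    rw [hn] at hgt ⊢
    have : n ≠ 0 := by rintro rfl; simp at hgt
    exact dvd_pow_self 2 this
  have hCp : IsPGroup 2 (ConjAct (G ⧸ X)) := hQ
  obtain ⟨b, hb, hb1⟩ := hCp.exists_fixed_point_of_prime_dvd_card_of_fixed_point Z h2
    (a := 1) (by
      intro g
      exact smul_one g)
  have hbc : ∀ q : G ⧸ X, q * (b : G ⧸ X) = b * q := by
    intro q
    have h3 := hb (ConjAct.toConjAct q)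
    have h4 := congrArg Subtype.val h3
    rw [ConjAct.Subgroup.val_conj_smul, ConjAct.smul_def, ConjAct.ofConjAct_toConjAct] at h4
    calc q * (b : G ⧸ X) = (q * b * q⁻¹) * q := by group
      _ = b * q := by rw [h4]
  -- a power of order two
  obtain ⟨n, hn⟩ := (IsPGroup.iff_orderOf.mp hQ) (b : G ⧸ X)
  have hb1' : (b : G ⧸ X) ≠ 1 := fun h => hb1 (Subtype.ext h).symm
  have hn0 : n ≠ 0 := by
    rintro rfl
    rw [pow_zero, orderOf_eq_one_iff] at hn
    exact hb1' hn
  obtain ⟨m, rfl⟩ := Nat.exists_eq_succ_of_ne_zero hn0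
  set z : G ⧸ X := (b : G ⧸ X) ^ (2 ^ m) with hz
  have hz2 : z * z = 1 := by
    rw [hz, ← pow_add, ← two_mul, ← pow_succ', ← hn]
    exact pow_orderOf_eq_one _
  have hz1 : z ≠ 1 := by
    intro h
    have := orderOf_dvd_of_pow_eq_one h
    rw [hn] at this
    have := Nat.pow_dvd_pow_iff_le_right (le_refl 2) |>.mp this
    omega
  have hzc : ∀ q : G ⧸ X, q * z = z * q := by
    intro q
    have : Commute q (b : G ⧸ X) := hbc q
    exact (this.pow_right _).eq
  have hzZ : z ∈ Z := Z.pow_mem b.2 _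
  let T : Subgroup (G ⧸ X) :=
    { carrier := {q | q = 1 ∨ q = z}
      mul_mem' := by
        rintro a c (rfl | rfl) (rfl | rfl) <;> simp [hz2]
      one_mem' := Or.inl rfl
      inv_mem' := by
        rintro a (rfl | rfl)
        · left; simp
        · right
          exact inv_eq_of_mul_eq_one_left hz2 }
  have hT : ∀ q, q ∈ T ↔ q = 1 ∨ q = z := fun q => Iff.rfl
  have hTn : T.Normal := by
    refine ⟨fun t ht g => ?_⟩
    rw [hT] at ht ⊢
    rcases ht with rfl | rfl
    · left; simp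
    · right
      rw [hzc]; simp
  refine ⟨T.comap (QuotientGroup.mk' X), hTn.comap _, ?_, ?_, ?_⟩
  · rw [SetLike.lt_iff_le_and_exists]
    constructor
    · intro x hx
      left
      exact (QuotientGroup.eq_one_iff x).mpr hx
    · obtain ⟨w, hw⟩ := QuotientGroup.mk'_surjective X z
      refine ⟨w, Or.inr hw, fun hwX => hz1 ?_⟩
      rw [← hw]
      exact (QuotientGroup.eq_one_iff w).mpr hwX
  · intro x hx
    rcases hx with hx | hx
    · exact hXY.le ((QuotientGroup.eq_one_iff x).mp hx)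
    · rw [← hx] at hzZ
      obtain ⟨y', hy', hyx⟩ := hzZ
      have h5 : y'⁻¹ * x ∈ X := (QuotientGroup.eq).mp hyx
      have h6 : x = y' * (y'⁻¹ * x) := by group
      rw [h6]
      exact Y.mul_mem hy' (hXY.le h5)
  · intro g hg h hh hgX hhX
    have hg' : (QuotientGroup.mk' X) g = z := by
      rcases hg with h | h
      · exact absurd ((QuotientGroup.eq_one_iff g).mp h) hgX
      · exact h
    have hh' : (QuotientGroup.mk' X) h = z := by
      rcases hh with h' | h'
      · exact absurd ((QuotientGroup.eq_one_iff h).mp h') hhX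
      · exact h'
    apply (QuotientGroup.eq_one_iff _).mp
    show (QuotientGroup.mk' X) (g * h) = 1
    rw [map_mul, hg', hh', hz2]

lemma next (hG : IsPGroup 2 G) (R : ℕ → Subgroup G) (hR : Antitone R) (hRn : ∀ i, (R i).Normal)
    (M : ℕ) (hM : R M = ⊥) (X : Subgroup G) (hX : X.Normal) (hXR : ∀ i, X ≤ R i ∨ R i ≤ X)
    (hXt : X ≠ ⊤) : ∃ X' : Subgroup G, X'.Normal ∧ X < X' ∧ (∀ i, R i ≤ X ∨ X' ≤ R i) ∧
      ∀ g ∈ X', ∀ h ∈ X', g ∉ X → h ∉ X → g * h ∈ X := by
  classical
  obtain ⟨Y, hY, hXY, hYR⟩ : ∃ Y : Subgroup G, Y.Normal ∧ X < Y ∧ ∀ i, R i ≤ X ∨ Y ≤ R i := by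
    by_cases hex : ∃ i, ¬ R i ≤ X
    · set i0 := Nat.findGreatest (fun i => ¬ R i ≤ X) M with hi0
      obtain ⟨i1, hi1⟩ := hex
      have hi1M : i1 ≤ M := by
        by_contra h
        apply hi1
        have := hR (le_of_not_ge h)
        rw [hM] at this
        exact this.trans bot_le
      have hP : ¬ R i0 ≤ X := Nat.findGreatest_spec (P := fun i => ¬ R i ≤ X) hi1M hi1
      refine ⟨R i0, hRn i0, lt_of_le_of_ne ((hXR i0).resolve_right hP) ?_, ?_⟩
      · intro h
        exact hP h.ge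
      · intro i
        by_cases hi : R i ≤ X
        · exact Or.inl hi
        · right
          have hiM : i ≤ M := by
            by_contra h
            apply hi
            have := hR (le_of_not_ge h)
            rw [hM] at this
            exact this.trans bot_le
          exact hR (Nat.le_findGreatest hiM hi)
    · push Not at hex
      exact ⟨⊤, inferInstance, lt_top_iff_ne_top.mpr hXt, fun i => Or.inl (hex i)⟩
  obtain ⟨X', h1, h2, h3, h4⟩ := pstep hG X Y hX hY hXY
  exact ⟨X', h1, h2, fun i => (hYR i).imp id (fun h => h3.trans h), h4⟩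

/-- the refined chain -/
theorem exists_chain (hG : IsPGroup 2 G) (R : ℕ → Subgroup G) (hR : Antitone R)
    (hRn : ∀ i, (R i).Normal) (M : ℕ) (hM : R M = ⊥) :
    ∃ (N : ℕ → Subgroup G) (r : ℕ), N 0 = ⊥ ∧ (∀ k, N k ≤ N (k + 1)) ∧
      (∀ k, ∀ g : G, ∀ n ∈ N k, g * n * g⁻¹ ∈ N k) ∧
      (∀ k, ∀ g ∈ N (k + 1), ∀ h ∈ N (k + 1), g ∉ N k → h ∉ N k → g * h ∈ N k) ∧
      N r = ⊤ ∧ ∀ i, ∃ k ≤ r, R i = N k := by
  classical
  let St := {X : Subgroup G // X.Normal ∧ ∀ i, X ≤ R i ∨ R i ≤ X}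
  have hst : ∀ X : St, ∃ X' : St, X.1 ≤ X'.1 ∧ (X.1 ≠ ⊤ → X.1 < X'.1) ∧
      (∀ i, R i ≤ X.1 ∨ X'.1 ≤ R i ∨ X.1 = ⊤) ∧
      ∀ g ∈ X'.1, ∀ h ∈ X'.1, g ∉ X.1 → h ∉ X.1 → g * h ∈ X.1 := by
    rintro ⟨X, hX, hXR⟩
    by_cases hXt : X = ⊤
    · exact ⟨⟨X, hX, hXR⟩, le_rfl, fun h => absurd hXt h, fun i => Or.inr (Or.inr hXt),
        fun g hg h hh h1 => absurd hg h1⟩
    · obtain ⟨X', h1, h2, h3, h4⟩ := next hG R hR hRn M hM X hX hXR hXt
      refine ⟨⟨X', h1, fun i => ?_⟩, h2.le, fun _ => h2, fun i => ?_, h4⟩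
      · rcases h3 i with h | h
        · exact Or.inr (h.trans h2.le)
        · exact Or.inl h
      · rcases h3 i with h | h
        · exact Or.inl h
        · exact Or.inr (Or.inl h)
  choose f hf1 hf2 hf3 hf4 using hst
  let s : ℕ → St := fun k => Nat.rec ⟨⊥, inferInstance, fun i => Or.inl bot_le⟩ (fun _ X => f X) k
  have hs0 : (s 0).1 = ⊥ := rfl
  have hss : ∀ k, s (k + 1) = f (s k) := fun k => rfl
  have hmono : ∀ k, (s k).1 ≤ (s (k + 1)).1 := fun k => hf1 (s k)
  have hgrow : ∀ k, (s k).1 = ⊤ ∨ k < Nat.card (s k).1 := by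
    intro k
    induction k with
    | zero => right; exact Nat.card_pos
    | succ k ih =>
      by_cases ht : (s k).1 = ⊤
      · left
        exact top_le_iff.mp (ht ▸ hmono k)
      · right
        have h1 := ih.resolve_left ht
        have h2 := hf2 (s k) ht
        have h3 : Nat.card (s k).1 < Nat.card (s (k + 1)).1 := by
          have := Set.ncard_lt_ncard (SetLike.coe_ssubset_coe.mpr h2)
            (Set.toFinite _)
          exact this
        omega
  set r := Nat.card G with hr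
  have hrt : (s r).1 = ⊤ := by
    rcases hgrow r with h | h
    · exact h
    · exfalso
      have := Subgroup.card_le_card_group (s r).1
      omega
  refine ⟨fun k => (s k).1, r, hs0, hmono, fun k g n hn => (s k).2.1.conj_mem n hn g,
    fun k => hf4 (s k), hrt, fun i => ?_⟩
  by_cases hi : R i = ⊤
  · exact ⟨r, le_rfl, by rw [hi]; exact hrt.symm⟩
  · have hex : ∃ k, ¬ (s k).1 ≤ R i := ⟨r, by rw [hrt, top_le_iff]; exact hi⟩
    set k0 := Nat.find hex with hk0
    have h1 : ¬ (s k0).1 ≤ R i := Nat.find_spec hex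
    have h2 : k0 ≤ r := Nat.find_min' hex (by rw [hrt, top_le_iff]; exact hi)
    have h3 : k0 ≠ 0 := by
      intro h
      apply h1
      rw [h, hs0]
      exact bot_le
    obtain ⟨k, hk⟩ := Nat.exists_eq_succ_of_ne_zero h3
    have h4 : (s k).1 ≤ R i := by
      by_contra h
      exact Nat.find_min hex (m := k) (by omega) h
    refine ⟨k, by omega, le_antisymm ?_ h4⟩
    rcases hf3 (s k) i with h | h | h
    · exact h
    · exfalso
      apply h1
      rw [hk]
      exact h
    · exfalso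
      apply hi
      rw [h] at h4
      exact top_le_iff.mp h4

end Pool.Agent.W90.Swan
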