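import Pool.Agent.W90.Swan.FS
import Pool.Agent.W90.Swan.Adapt

/-! Monomial structure of an irreducible representation along a chain of normal subgroups. -/

open scoped BigOperators TensorProduct
open Representation

set_option linter.unusedSectionVars false

noncomputable section

namespace Pool.Agent.W90.Swan

section one
variable {G : Type*} [Group G] [Fintype G] {V : Type*} [AddCommGroup V] [Module ℂ V]
  [FiniteDimensional ℂ V] (ρ : Representation ℂ G V)

lemma tr1 [IsIrreducible ρ] (v : V) (φ : V →ₗ[ℂ] ℂ) (hφ : φ v = 1) (u : V) :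
    (Module.finrank ℂ V : ℂ) • ∑ y : G, φ (ρ y⁻¹ u) • ρ y v = (Nat.card G : ℂ) • u := by
  set Q : V →ₗ[ℂ] V := LinearMap.toSpanSingleton ℂ V v ∘ₗ φ with hQ
  have hQa : ∀ x, Q x = φ x • v := fun x => by simp [hQ]
  set A : V →ₗ[ℂ] V := ∑ y : G, ρ y ∘ₗ Q ∘ₗ ρ y⁻¹ with hA
  have hAa : ∀ x, A x = ∑ y : G, φ (ρ y⁻¹ x) • ρ y v := by
    intro x
    simp [hA, LinearMap.sum_apply, hQa]
  have hint : ∀ g x, A (ρ g x) = ρ g (A x) := by
    intro g x
    rw [hAa, hAa, map_sum]
    refine Fintype.sum_equiv (Equiv.mulLeft g⁻¹) _ _ fun y => ?_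
    rw [Equiv.coe_mulLeft, map_smul, ← rho_mul ρ g, ← rho_mul ρ y⁻¹]
    congr 3
    · congr 2
      group
    · group
  let a : IntertwiningMap ρ ρ :=
    { toLinearMap := A
      isIntertwining' := fun g => by ext x; exact hint g x }
  obtain ⟨c, hc⟩ := (IsIrreducible.algebraMap_intertwiningMap_bijective_of_isAlgClosed
      (ρ := ρ)).2 a
  have hAc : A = c • LinearMap.id := by
    apply LinearMap.ext
    intro x
    have h1 : (algebraMap ℂ (IntertwiningMap ρ ρ) c) x = a x := by rw [hc]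
    exact h1.symm
  have htr : LinearMap.trace ℂ V A = (Nat.card G : ℂ) := by
    rw [hA, map_sum]
    have : ∀ y : G, LinearMap.trace ℂ V (ρ y ∘ₗ Q ∘ₗ ρ y⁻¹) = 1 := by
      intro y
      rw [LinearMap.trace_comp_comm' , LinearMap.comp_assoc]
      have h2 : ρ y⁻¹ ∘ₗ ρ y = LinearMap.id := by
        ext x
        exact rho_inv_rho ρ y x
      rw [h2, LinearMap.comp_id, hQ, LinearMap.trace_comp_comm']
      have h3 : φ ∘ₗ LinearMap.toSpanSingleton ℂ V v = LinearMap.id := by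
        ext
        simp [hφ]
      rw [h3, LinearMap.trace_id]
      simp
    simp only [this]
    simp
  rw [hAc, map_smul, LinearMap.trace_id, smul_eq_mul] at htr
  rw [← hAa, hAc, LinearMap.smul_apply, LinearMap.id_apply, smul_smul, mul_comm, htr]

lemma tr2 [IsIrreducible ρ] (v : V) (φ : V →ₗ[ℂ] ℂ) (hφ : φ v = 1) (g : G) :
    (Nat.card G : ℂ) * ρ.character g =
      (Module.finrank ℂ V : ℂ) * ∑ y : G, φ (ρ (y⁻¹ * g * y) v) := by
  have h1 : (Nat.card G : ℂ) • ρ g = (Module.finrank ℂ V : ℂ) •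
      ∑ y : G, (LinearMap.toSpanSingleton ℂ V (ρ y v) ∘ₗ (φ ∘ₗ ρ (y⁻¹ * g))) := by
    apply LinearMap.ext
    intro u
    have := tr1 ρ v φ hφ (ρ g u)
    simp only [LinearMap.smul_apply, LinearMap.sum_apply, LinearMap.comp_apply,
      LinearMap.toSpanSingleton_apply, rho_mul]
    exact this.symm
  have h2 := congrArg (LinearMap.trace ℂ V) h1
  rw [map_smul, map_smul, map_sum, smul_eq_mul, smul_eq_mul] at h2
  rw [Representation.character, h2]
  congr 1
  refine Finset.sum_congr rfl fun y _ => ?_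
  rw [LinearMap.trace_comp_comm']
  have h3 : (φ ∘ₗ ρ (y⁻¹ * g)) ∘ₗ LinearMap.toSpanSingleton ℂ V (ρ y v) =
      (φ (ρ (y⁻¹ * g * y) v)) • LinearMap.id := by
    ext
    simp
  rw [h3, map_smul, LinearMap.trace_id]
  simp

lemma tr3 [IsIrreducible ρ] (v : V) (φ : V →ₗ[ℂ] ℂ) (hφ : φ v = 1) (R : Subgroup G)
    (hR : ∀ g : G, ∀ n ∈ R, g * n * g⁻¹ ∈ R) [Fintype R] :
    ∑ n : R, ρ.character ((n : G) ^ 2) =
      (Module.finrank ℂ V : ℂ) * ∑ m : R, φ (ρ ((m : G) ^ 2) v) := by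
  apply mul_left_cancel₀ (cardG_ne (G := G))
  rw [Finset.mul_sum]
  simp only [tr2 ρ v φ hφ]
  rw [← Finset.mul_sum, Finset.sum_comm]
  have : ∀ y : G, ∑ n : R, φ (ρ (y⁻¹ * (n : G) ^ 2 * y) v) = ∑ m : R, φ (ρ ((m : G) ^ 2) v) := by
    intro y
    refine Fintype.sum_equiv ⟨fun n => ⟨y⁻¹ * n * y, by simpa using hR y⁻¹ n n.2⟩,
      fun n => ⟨y * n * y⁻¹, hR y n n.2⟩, fun n => ?_, fun n => ?_⟩ _ _ fun n => ?_
    · ext; simp; group
    · ext; simp; group
    · simp only [Equiv.coe_fn_mk]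
      congr 3
      simp only [pow_two]
      group
  simp only [this]
  rw [Finset.sum_const, Finset.card_univ, ← Nat.card_eq_fintype_card, nsmul_eq_mul]
  ring

lemma tr3' [IsIrreducible ρ] (v : V) (φ : V →ₗ[ℂ] ℂ) (hφ : φ v = 1) :
    ∑ n : G, ρ.character (n ^ 2) =
      (Module.finrank ℂ V : ℂ) * ∑ m : G, φ (ρ (m ^ 2) v) := by
  apply mul_left_cancel₀ (cardG_ne (G := G))
  rw [Finset.mul_sum]
  simp only [tr2 ρ v φ hφ]
  rw [← Finset.mul_sum, Finset.sum_comm]
  have : ∀ y : G, ∑ n : G, φ (ρ (y⁻¹ * n ^ 2 * y) v) = ∑ m : G, φ (ρ (m ^ 2) v) := by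
    intro y
    refine Fintype.sum_equiv (MulAut.conj y⁻¹).toEquiv _ _ fun n => ?_
    congr 3
    simp only [pow_two, MulEquiv.toEquiv_eq_coe, EquivLike.coe_coe, MulAut.conj_apply]
    group
  simp only [this]
  rw [Finset.sum_const, Finset.card_univ, ← Nat.card_eq_fintype_card, nsmul_eq_mul]
  ring

lemma tr4 [IsIrreducible ρ] (v : V) (φ : V →ₗ[ℂ] ℂ) (hφ : φ v = 1) (H : Subgroup G)
    (hH : ∀ g, g ∈ H ↔ ρ g v ∈ Submodule.span ℂ {v}) (hφ' : ∀ g, g ∉ H → φ (ρ g v) = 0) :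
    (Module.finrank ℂ V : ℂ) * Nat.card H = Nat.card G := by
  classical
  have h1 := tr1 ρ v φ hφ v
  have h2 : ∀ y : G, φ (ρ y⁻¹ v) • ρ y v = if y ∈ H then v else 0 := by
    intro y
    split_ifs with hy
    · obtain ⟨c, hc⟩ := Submodule.mem_span_singleton.mp ((hH y).mp hy)
      rw [← hc, smul_smul]
      have h3 : c • ρ y⁻¹ v = v := by rw [← map_smul, hc, rho_inv_rho]
      have h4 : φ (ρ y⁻¹ v) * c = 1 := by
        rw [mul_comm, ← smul_eq_mul, ← map_smul, h3, hφ]
      rw [h4, one_smul]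
    · rw [hφ' _ (fun h => hy (by simpa using H.inv_mem h)), zero_smul]
  simp only [h2] at h1
  rw [← Finset.sum_filter, Finset.sum_const, ← Nat.cast_smul_eq_nsmul ℂ, smul_smul] at h1
  have h5 := congrArg φ h1
  rw [map_smul, map_smul, hφ, smul_eq_mul, smul_eq_mul, mul_one, mul_one] at h5
  rw [← h5]
  congr 2
  rw [Nat.card_eq_fintype_card, Fintype.card_subtype]

end one

section two
variable {G : Type*} [Group G] [Finite G] {V : Type*} [AddCommGroup V] [Module ℂ V]
  (ρ : Representation ℂ G V)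

/-- restriction to a subgroup and a stable subspace -/
def res (N : Subgroup G) (W : Submodule ℂ V) (hs : Stb ρ N W) : Representation ℂ N W where
  toFun n := (ρ (n : G)).restrict (hs n n.2)
  map_one' := by ext; simp
  map_mul' x y := by ext; simp

lemma res_apply (N : Subgroup G) (W : Submodule ℂ V) (hs : Stb ρ N W) (n : N) (w : W) :
    ((res ρ N W hs n w : W) : V) = ρ (n : G) (w : V) := rfl

variable {ρ}

lemma Irr.isIrreducible {N : Subgroup G} {W : Submodule ℂ V} (h : Irr ρ N W) :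
    IsIrreducible (res ρ N W h.stb) := by
  have hnt : Nontrivial W := Submodule.nontrivial_iff_ne_bot.mpr h.ne
  refine { exists_pair_ne := ⟨⊥, ⊤, ?_⟩, eq_bot_or_eq_top := ?_ }
  · intro h0
    have h1 : (⊥ : Submodule ℂ W) = ⊤ := congrArg Subrepresentation.toSubmodule h0
    exact bot_ne_top h1
  · intro S
    by_cases hb : S.toSubmodule = ⊥
    · left
      exact Subrepresentation.toSubmodule_injective hb
    · right
      apply Subrepresentation.toSubmodule_injective
      have h1 : S.toSubmodule.map W.subtype = W := by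
        apply h.min
        · exact Submodule.map_subtype_le _ _
        · intro h0
          apply hb
          rw [eq_bot_iff]
          intro x hx
          have h2 : (x : V) ∈ S.toSubmodule.map W.subtype := ⟨x, hx, rfl⟩
          rw [h0, Submodule.mem_bot] at h2
          exact (Submodule.mem_bot ℂ).mpr (Subtype.ext h2)
        · rintro n hn _ ⟨w, hw, rfl⟩
          exact ⟨res ρ N W h.stb ⟨n, hn⟩ w, S.apply_mem_toSubmodule ⟨n, hn⟩ hw, rfl⟩
      show S.toSubmodule = ⊤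
      rw [eq_top_iff]
      rintro ⟨x, hx⟩ -
      have h2 : x ∈ S.toSubmodule.map W.subtype := by rw [h1]; exact hx
      obtain ⟨y, hy, hy'⟩ := h2
      have : y = ⟨x, hx⟩ := Subtype.ext hy'
      exact this ▸ hy

lemma irr_top (h : Irr ρ ⊤ ⊤) : IsIrreducible ρ := by
  have hnt : Nontrivial V := (Submodule.nontrivial_iff ℂ).mp ⟨⊥, ⊤, h.ne.symm⟩
  refine { exists_pair_ne := ⟨⊥, ⊤, ?_⟩, eq_bot_or_eq_top := ?_ }
  · intro h0
    have h1 : (⊥ : Submodule ℂ V) = ⊤ := congrArg Subrepresentation.toSubmodule h0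
    exact bot_ne_top h1
  · intro S
    by_cases hb : S.toSubmodule = ⊥
    · left
      exact Subrepresentation.toSubmodule_injective hb
    · right
      apply Subrepresentation.toSubmodule_injective
      exact h.min _ le_top hb (fun n _ w hw => S.apply_mem_toSubmodule n hw)

lemma mono_aux [FiniteDimensional ℂ V] (hρ : Irr ρ ⊤ ⊤) (v : V) (φ : V →ₗ[ℂ] ℂ) (hφ1 : φ v = 1)
    (H : Subgroup G) (hH : ∀ g, g ∈ H ↔ ρ g v ∈ Submodule.span ℂ {v})
    (hφ4 : ∀ g, g ∉ H → φ (ρ g v) = 0) (R : Subgroup G) (hRn : ∀ g : G, ∀ n ∈ R, g * n * g⁻¹ ∈ R)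
    (hRirr : Irr ρ R (orb ρ R v)) : ∃ ν : ℤ,
      (ν = 0 ∨ ν = 1 ∨ ν = -1) ∧
      ((∑ᶠ n : R, ρ.character ((n : G) ^ 2)) =
        (Module.finrank ℂ V : ℂ) * (Nat.card (H ⊓ R : Subgroup G) * ν)) ∧
      ((∀ h ∈ H, h ∈ R → φ (ρ h v) ^ 2 = 1) → ν = 1) ∧
      (R ≤ H → ν ≠ -1) ∧
      ((∀ h ∈ H, h ∈ R → φ (ρ h v) = 1) → ∀ n ∈ R, ρ n = 1) ∧
      (¬ (∀ h ∈ H, h ∈ R → φ (ρ h v) = 1) → ∀ x, (∀ n ∈ R, ρ n x = x) → x = 0) := by
  classical
  have hIrr := irr_top hρ
  have := Fintype.ofFinite G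
  have := Fintype.ofFinite R
  have hch : ∀ g, g ∈ H → ρ g v = φ (ρ g v) • v := by
    intro g hg
    obtain ⟨c, hc⟩ := Submodule.mem_span_singleton.mp ((hH g).mp hg)
    rw [← hc, map_smul, hφ1, smul_eq_mul, mul_one]
  have hmul : ∀ g ∈ H, ∀ h : G, φ (ρ (h * g) v) = φ (ρ h v) * φ (ρ g v) := by
    intro g hg h
    rw [rho_mul, hch g hg, map_smul, map_smul, map_smul, hφ1, smul_eq_mul, smul_eq_mul]
    ring
  have hcard : ∑ n : R, (if (n : G) ∈ H then (1 : ℂ) else 0) =
      (Nat.card (H ⊓ R : Subgroup G) : ℂ) := by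
    rw [Finset.sum_boole]
    congr 1
    rw [← Fintype.card_subtype, ← Nat.card_eq_fintype_card]
    refine Nat.card_congr ⟨fun x => ⟨x.1, x.2, x.1.2⟩, fun x => ⟨⟨x.1, x.2.2⟩, x.2.1⟩, ?_, ?_⟩
    · intro x; rfl
    · intro x; rfl
  have hcardpos : (Nat.card (H ⊓ R : Subgroup G) : ℂ) ≠ 0 := by
    exact_mod_cast Nat.card_pos.ne'
  set W : Submodule ℂ V := orb ρ R v with hW
  have hσ := hRirr.isIrreducible
  set σ : Representation ℂ R W := res ρ R W hRirr.stb with hσd
  set v' : W := ⟨v, mem_orb_self _ _⟩ with hv'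
  set φ' : W →ₗ[ℂ] ℂ := φ ∘ₗ W.subtype with hφ'
  have hφ'v : φ' v' = 1 := by simp [hφ', hv', hφ1]
  have hσv : ∀ m : R, φ' (σ m v') = φ (ρ (m : G) v) := fun m => rfl
  obtain ⟨ν, hν, hνs, hνt⟩ := fs σ
  have hS1 := tr3' σ v' φ' hφ'v
  rw [hνs] at hS1
  have hS3 := tr3 ρ v φ hφ1 R hRn
  have hd := tr4 σ v' φ' hφ'v (H.subgroupOf R) (by
    intro g
    rw [Subgroup.mem_subgroupOf, hH]
    constructor
    · intro h
      obtain ⟨c, hc⟩ := Submodule.mem_span_singleton.mp h
      refine Submodule.mem_span_singleton.mpr ⟨c, ?_⟩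
      apply Subtype.ext
      exact hc
    · intro h
      obtain ⟨c, hc⟩ := Submodule.mem_span_singleton.mp h
      refine Submodule.mem_span_singleton.mpr ⟨c, ?_⟩
      exact congrArg Subtype.val hc) (by
    intro g hg
    rw [hσv]
    exact hφ4 _ (fun h => hg (Subgroup.mem_subgroupOf.mpr h)))
  have hcard2 : Nat.card (H.subgroupOf R) = Nat.card (H ⊓ R : Subgroup G) := by
    rw [← Subgroup.inf_subgroupOf_right H R]
    exact Nat.card_congr (Subgroup.subgroupOfEquivOfLe inf_le_right).toEquiv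
  rw [hcard2] at hd
  set S : ℂ := ∑ m : R, φ (ρ ((m : G) ^ 2) v) with hSd
  have hS1' : (Nat.card R : ℂ) * ν = (Module.finrank ℂ W : ℂ) * S := by
    rw [hS1, hSd]
    rfl
  have hdim : (Module.finrank ℂ W : ℂ) ≠ 0 := by
    intro h0
    rw [h0, zero_mul] at hd
    exact cardG_ne (G := R) hd.symm
  have hS : S = (Nat.card (H ⊓ R : Subgroup G) : ℂ) * ν := by
    apply mul_left_cancel₀ hdim
    rw [← hS1', ← hd]
    ring
  refine ⟨ν, hν, ?_, ?_, ?_, ?_, ?_⟩
  · rw [finsum_eq_sum_of_fintype, hS3, hS]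
  · intro hsq
    apply hνt
    refine ⟨∑ n : R, σ n v' ⊗ₜ[ℂ] σ n v', ?_, ?_, ?_⟩
    · intro h0
      have h1 := congrArg (LinearMap.mul' ℂ ℂ ∘ₗ TensorProduct.map φ' φ') h0
      rw [map_sum, map_zero] at h1
      simp only [LinearMap.comp_apply, TensorProduct.map_tmul, LinearMap.mul'_apply, hσv] at h1
      have h2 : ∀ n : R, φ (ρ (n : G) v) * φ (ρ (n : G) v) = if (n : G) ∈ H then (1 : ℂ) else 0 := by
        intro n
        split_ifs with h
        · rw [← pow_two, hsq _ h n.2]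
        · rw [hφ4 _ h, mul_zero]
      simp only [h2] at h1
      rw [hcard] at h1
      exact hcardpos h1
    · intro g
      rw [map_sum]
      simp only [TensorProduct.map_tmul]
      refine Fintype.sum_equiv (Equiv.mulLeft g) _ _ fun n => ?_
      simp only [Equiv.coe_mulLeft]
      rw [rho_mul σ g n]
    · rw [map_sum]
      simp
  · intro hRH hneg
    have hSsq : S = ∑ m : R, φ (ρ (m : G) v) ^ 2 := by
      rw [hSd]
      refine Finset.sum_congr rfl fun m _ => ?_
      rw [pow_two, hmul _ (hRH m.2), pow_two]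
    let ψ : R →* ℂ :=
      { toFun := fun m => φ (ρ (m : G) v) ^ 2
        map_one' := by simp [hφ1]
        map_mul' := by
          intro a b
          simp only [Subgroup.coe_mul]
          rw [hmul _ (hRH b.2), mul_pow] }
    have hc : (Nat.card (H ⊓ R : Subgroup G) : ℂ) ≠ 0 := hcardpos
    by_cases hψ : ψ = 1
    · have h1 : S = Nat.card R := by
        rw [hSsq]
        have : ∀ m : R, φ (ρ (m : G) v) ^ 2 = 1 := fun m => DFunLike.congr_fun hψ m
        simp [this]
      rw [h1, hneg] at hS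
      have h2 : ((Nat.card R : ℕ) : ℤ) = (Nat.card (H ⊓ R : Subgroup G) : ℤ) * (-1) := by
        exact_mod_cast hS
      have h3 : 0 < Nat.card R := Nat.card_pos
      omega
    · have h1 : S = 0 := by
        rw [hSsq]
        exact sum_hom_units_eq_zero ψ hψ
      rw [h1, hneg] at hS
      apply hc
      have : (Nat.card (H ⊓ R : Subgroup G) : ℂ) = - ((Nat.card (H ⊓ R : Subgroup G) : ℂ) * ((-1 : ℤ) : ℂ)) := by
        push_cast; ring
      rw [this, ← hS, neg_zero]
  · intro htriv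
    set I : Submodule ℂ V :=
      { carrier := {x | ∀ n ∈ R, ρ n x = x}
        add_mem' := fun {a b} ha hb n hn => by rw [map_add, ha n hn, hb n hn]
        zero_mem' := fun n _ => map_zero _
        smul_mem' := fun c x hx n hn => by rw [map_smul, hx n hn] } with hI
    have hmemI : ∀ x, x ∈ I ↔ ∀ n ∈ R, ρ n x = x := fun x => Iff.rfl
    have hIn : I ≠ ⊥ := by
      intro h0
      have hu : ∑ n : R, ρ (n : G) v ∈ I := by
        rw [hmemI]
        intro m hm
        rw [map_sum]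
        refine Fintype.sum_equiv (Equiv.mulLeft (⟨m, hm⟩ : R)) _ _ fun n => ?_
        simp only [Equiv.coe_mulLeft, Subgroup.coe_mul]
        rw [rho_mul ρ m n]
      rw [h0, Submodule.mem_bot] at hu
      have h1 := congrArg φ hu
      rw [map_sum, map_zero] at h1
      have h2 : ∀ n : R, φ (ρ (n : G) v) = if (n : G) ∈ H then (1 : ℂ) else 0 := by
        intro n
        split_ifs with h
        · rw [htriv _ h n.2]
        · rw [hφ4 _ h]
      simp only [h2] at h1
      rw [hcard] at h1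
      exact hcardpos h1
    have hItop : I = ⊤ := by
      apply hρ.min I le_top hIn
      intro g _ x hx
      rw [hmemI] at hx ⊢
      intro n hn
      have h1 : n * g = g * (g⁻¹ * n * g) := by group
      rw [← rho_mul, h1, rho_mul, hx _ (by simpa using hRn g⁻¹ n hn)]
    intro n hn
    ext x
    have : x ∈ I := hItop ▸ Submodule.mem_top
    exact this n hn
  · intro hnt x hx
    set I : Submodule ℂ V :=
      { carrier := {x | ∀ n ∈ R, ρ n x = x}
        add_mem' := fun {a b} ha hb n hn => by rw [map_add, ha n hn, hb n hn]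
        zero_mem' := fun n _ => map_zero _
        smul_mem' := fun c x hx n hn => by rw [map_smul, hx n hn] } with hI
    have hmemI : ∀ x, x ∈ I ↔ ∀ n ∈ R, ρ n x = x := fun x => Iff.rfl
    by_contra hx0
    have hIn : I ≠ ⊥ := by
      intro h0
      have : x ∈ I := hx
      rw [h0, Submodule.mem_bot] at this
      exact hx0 this
    have hItop : I = ⊤ := by
      apply hρ.min I le_top hIn
      intro g _ x hx
      rw [hmemI] at hx ⊢
      intro n hn
      have h1 : n * g = g * (g⁻¹ * n * g) := by group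
      rw [← rho_mul, h1, rho_mul, hx _ (by simpa using hRn g⁻¹ n hn)]
    apply hnt
    intro h _ hhR
    have : v ∈ I := hItop ▸ Submodule.mem_top
    rw [this h hhR, hφ1]

/-- main structure theorem: an irreducible representation is monomial compatibly with a chain of
normal subgroups with steps of index at most two -/
theorem mono [FiniteDimensional ℂ V] (N : ℕ → Subgroup G) (h0 : N 0 = ⊥)
    (hm : ∀ k, N k ≤ N (k + 1))
    (hn : ∀ k, ∀ g : G, ∀ n ∈ N k, g * n * g⁻¹ ∈ N k)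
    (hi : ∀ k, ∀ g ∈ N (k + 1), ∀ h ∈ N (k + 1), g ∉ N k → h ∉ N k → g * h ∈ N k)
    (r : ℕ) (hr : N r = ⊤) (hρ : Irr ρ ⊤ ⊤) (R : ℕ → Subgroup G)
    (hR : ∀ i, ∃ k ≤ r, R i = N k) :
    ∃ (H : Subgroup G) (χ : H →* ℂˣ) (ν : ℕ → ℤ), ∀ i,
      (ν i = 0 ∨ ν i = 1 ∨ ν i = -1) ∧
      ((∑ᶠ n : R i, ρ.character ((n : G) ^ 2)) =
        (Module.finrank ℂ V : ℂ) * (Nat.card (H ⊓ R i : Subgroup G) * ν i)) ∧
      ((∀ h : H, (h : G) ∈ R i → χ h ^ 2 = 1) → ν i = 1) ∧
      (R i ≤ H → ν i ≠ -1) ∧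
      ((∀ h : H, (h : G) ∈ R i → χ h = 1) → ∀ n ∈ R i, ρ n = 1) ∧
      (¬ (∀ h : H, (h : G) ∈ R i → χ h = 1) → ∀ x, (∀ n ∈ R i, ρ n x = x) → x = 0) := by
  classical
  obtain ⟨v, -, hv⟩ := exists_adapted (ρ := ρ) N hm r ⊤ (hr ▸ hρ)
  obtain ⟨φ, hφ1, hφ2⟩ := exists_functional (ρ := ρ) N h0 hm hn hi r v hv
  have horb : ∀ g, Ad ρ N r (ρ g v) := by
    intro g
    refine ⟨?_, fun k hk => ?_⟩
    · intro h
      apply hv.1
      rw [← rho_inv_rho ρ g v, h, map_zero]
    · rw [orb_rho (hn k) g v]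
      exact (hv.2 k hk).rho (hn k) g
  have horbtop : ∀ g, orb ρ (N r) (ρ g v) = ⊤ := by
    intro g
    rw [hr]
    apply hρ.min _ le_top _ (orb_stb _ _)
    intro h
    have := mem_orb_self (ρ := ρ) ⊤ (ρ g v)
    rw [h, Submodule.mem_bot] at this
    exact (horb g).1 this
  have hφ3 : ∀ g, ρ g v ∉ Submodule.span ℂ {v} → φ (ρ g v) = 0 := by
    intro g hg
    refine hφ2 _ (horb g) ?_ hg
    have h1 := horbtop 1
    rw [map_one] at h1
    rw [horbtop g]
    exact h1.symm
  -- the stabiliser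
  let H : Subgroup G :=
    { carrier := {g | ρ g v ∈ Submodule.span ℂ {v}}
      mul_mem' := by
        intro a b ha hb
        obtain ⟨c, hc⟩ := Submodule.mem_span_singleton.mp ha
        obtain ⟨d, hd⟩ := Submodule.mem_span_singleton.mp hb
        refine Submodule.mem_span_singleton.mpr ⟨d * c, ?_⟩
        rw [rho_mul, ← hd, map_smul, ← hc, smul_smul]
      one_mem' := by
        refine Submodule.mem_span_singleton.mpr ⟨1, ?_⟩
        simp
      inv_mem' := by
        intro a ha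
        obtain ⟨c, hc⟩ := Submodule.mem_span_singleton.mp ha
        have hc0 : c ≠ 0 := by
          rintro rfl
          rw [zero_smul] at hc
          exact (horb a).1 hc.symm
        refine Submodule.mem_span_singleton.mpr ⟨c⁻¹, ?_⟩
        apply smul_right_injective V hc0
        simp only
        rw [smul_smul, mul_inv_cancel₀ hc0, one_smul, ← map_smul, hc, rho_inv_rho] }
  have hH : ∀ g, g ∈ H ↔ ρ g v ∈ Submodule.span ℂ {v} := fun g => Iff.rfl
  have hφ4 : ∀ g, g ∉ H → φ (ρ g v) = 0 := fun g hg => hφ3 g hg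
  have hch : ∀ g, g ∈ H → ρ g v = φ (ρ g v) • v := by
    intro g hg
    obtain ⟨c, hc⟩ := Submodule.mem_span_singleton.mp ((hH g).mp hg)
    rw [← hc, map_smul, hφ1, smul_eq_mul, mul_one]
  have hmul : ∀ g ∈ H, ∀ h : G, φ (ρ (h * g) v) = φ (ρ h v) * φ (ρ g v) := by
    intro g hg h
    rw [rho_mul, hch g hg, map_smul, map_smul, map_smul, hφ1, smul_eq_mul, smul_eq_mul]
    ring
  have hone : φ (ρ 1 v) = 1 := by simp [hφ1]
  let χ : H →* ℂˣ :=
    { toFun := fun h => ⟨φ (ρ (h : G) v), φ (ρ ((h : G)⁻¹) v), by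
          rw [← hmul _ (H.inv_mem h.2), mul_inv_cancel, hone], by
          rw [← hmul _ h.2, inv_mul_cancel, hone]⟩
      map_one' := by ext; simp [hφ1]
      map_mul' := by
        intro a b
        ext
        simp only [Units.val_mul]
        exact hmul b b.2 a }
  have hχ : ∀ h : H, ((χ h : ℂˣ) : ℂ) = φ (ρ (h : G) v) := fun h => rfl
  have hRn : ∀ i, ∀ g : G, ∀ n ∈ R i, g * n * g⁻¹ ∈ R i := by
    intro i
    obtain ⟨k, -, hk⟩ := hR i
    rw [hk]
    exact hn k
  have hRirr : ∀ i, Irr ρ (R i) (orb ρ (R i) v) := by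
    intro i
    obtain ⟨k, hkr, hk⟩ := hR i
    rw [hk]
    exact hv.2 k hkr
  choose ν hν using fun i => mono_aux hρ v φ hφ1 H hH hφ4 (R i) (hRn i) (hRirr i)
  refine ⟨H, χ, ν, fun i => ?_⟩
  obtain ⟨h1, h2, h3, h4, h5, h6⟩ := hν i
  have e1 : (∀ h : H, (h : G) ∈ R i → χ h = 1) ↔ (∀ h ∈ H, h ∈ R i → φ (ρ h v) = 1) := by
    constructor
    · intro h g hg hgR
      have := h ⟨g, hg⟩ hgR
      rw [← hχ ⟨g, hg⟩, this, Units.val_one]
    · intro h g hgR
      ext
      rw [hχ, h g g.2 hgR, Units.val_one]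
  refine ⟨h1, h2, ?_, h4, ?_, ?_⟩
  · intro h
    apply h3
    intro g hg hgR
    have := h ⟨g, hg⟩ hgR
    have h7 := congrArg (fun u : ℂˣ => (u : ℂ)) this
    simpa [hχ] using h7
  · rw [e1]; exact h5
  · rw [e1]; exact h6

end two

end Pool.Agent.W90.Swan
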