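import Mathlib

/-! Frobenius–Schur indicator: the trace of the swap on the invariants of `W ⊗ W`. -/

open scoped BigOperators TensorProduct
open Representation

set_option linter.unusedSectionVars false

noncomputable section

namespace Pool.Agent.W90.Swan

section lin
variable {V : Type*} [AddCommGroup V] [Module ℂ V]

/-- the swap on the tensor square -/
def swp (V : Type*) [AddCommGroup V] [Module ℂ V] : V ⊗[ℂ] V →ₗ[ℂ] V ⊗[ℂ] V :=
  (TensorProduct.comm ℂ V V).toLinearMap

@[simp] lemma swp_tmul (x y : V) : swp V (x ⊗ₜ y) = y ⊗ₜ x := by simp [swp]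

lemma swp_swp : swp V ∘ₗ swp V = LinearMap.id := by
  ext a b
  simp

lemma swp_swp_apply (t : V ⊗[ℂ] V) : swp V (swp V t) = t := by
  have := LinearMap.congr_fun (swp_swp (V := V)) t
  simpa using this

lemma swp_map (f : V →ₗ[ℂ] V) : swp V ∘ₗ TensorProduct.map f f = TensorProduct.map f f ∘ₗ swp V := by
  ext a b
  simp

lemma trace_swp [FiniteDimensional ℂ V] (f : V →ₗ[ℂ] V) :
    LinearMap.trace ℂ (V ⊗[ℂ] V) (TensorProduct.map f f ∘ₗ swp V) = LinearMap.trace ℂ V (f ∘ₗ f) := by
  set b := Module.finBasis ℂ V with hb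
  rw [LinearMap.trace_eq_matrix_trace ℂ (b.tensorProduct b), LinearMap.trace_eq_matrix_trace ℂ b,
    LinearMap.toMatrix_comp b b b]
  simp only [Matrix.trace, Matrix.diag_apply, Matrix.mul_apply]
  rw [Fintype.sum_prod_type]
  refine Finset.sum_congr rfl fun i _ => Finset.sum_congr rfl fun j _ => ?_
  rw [LinearMap.toMatrix_apply, LinearMap.toMatrix_apply, LinearMap.toMatrix_apply]
  rw [Module.Basis.tensorProduct_apply]
  simp only [swp, LinearMap.comp_apply, LinearEquiv.coe_coe, TensorProduct.comm_tmul,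
    TensorProduct.map_tmul]
  rw [Module.Basis.tensorProduct_repr_tmul_apply]
  simp only [smul_eq_mul]
  ring

end lin

section grp
variable {G : Type*} [Group G] [Fintype G] {V : Type*} [AddCommGroup V] [Module ℂ V]
  (ρ : Representation ℂ G V)

lemma cardG_ne : (Nat.card G : ℂ) ≠ 0 := by
  exact_mod_cast Nat.card_pos.ne'

/-- the averaging operator on the tensor square -/
def avg2 : V ⊗[ℂ] V →ₗ[ℂ] V ⊗[ℂ] V :=
  (Nat.card G : ℂ)⁻¹ • ∑ g : G, TensorProduct.map (ρ g) (ρ g)

lemma avg2_apply (t : V ⊗[ℂ] V) :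
    avg2 ρ t = (Nat.card G : ℂ)⁻¹ • ∑ g : G, TensorProduct.map (ρ g) (ρ g) t := by
  simp [avg2, LinearMap.sum_apply]

lemma tmap_mul (g h : G) (t : V ⊗[ℂ] V) :
    TensorProduct.map (ρ g) (ρ g) (TensorProduct.map (ρ h) (ρ h) t) =
      TensorProduct.map (ρ (g * h)) (ρ (g * h)) t := by
  rw [← LinearMap.comp_apply, ← TensorProduct.map_comp]
  simp [map_mul, Module.End.mul_eq_comp]

lemma tmap_avg2 (g : G) (t : V ⊗[ℂ] V) :
    TensorProduct.map (ρ g) (ρ g) (avg2 ρ t) = avg2 ρ t := by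
  rw [avg2_apply, map_smul, map_sum]
  congr 1
  simp only [tmap_mul]
  exact Fintype.sum_equiv (Equiv.mulLeft g) _ _ fun _ => rfl

lemma avg2_of_inv {t : V ⊗[ℂ] V} (h : ∀ g, TensorProduct.map (ρ g) (ρ g) t = t) :
    avg2 ρ t = t := by
  rw [avg2_apply]
  simp only [h]
  rw [Finset.sum_const, Finset.card_univ, ← Nat.card_eq_fintype_card, ← Nat.cast_smul_eq_nsmul ℂ,
      smul_smul, inv_mul_cancel₀ cardG_ne, one_smul]

lemma avg2_avg2 (t : V ⊗[ℂ] V) : avg2 ρ (avg2 ρ t) = avg2 ρ t :=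
  avg2_of_inv ρ fun g => tmap_avg2 ρ g t

lemma avg2_swp (t : V ⊗[ℂ] V) : avg2 ρ (swp V t) = swp V (avg2 ρ t) := by
  rw [avg2_apply, avg2_apply, map_smul, map_sum]
  congr 1
  refine Finset.sum_congr rfl fun g _ => ?_
  have := LinearMap.congr_fun (swp_map (ρ g)) t
  simpa using this.symm

variable [FiniteDimensional ℂ V]

lemma trace_avg2_swp : LinearMap.trace ℂ _ (avg2 ρ ∘ₗ swp V) =
    (Nat.card G : ℂ)⁻¹ * ∑ g : G, ρ.character (g ^ 2) := by
  have h1 : avg2 ρ ∘ₗ swp V = (Nat.card G : ℂ)⁻¹ • ∑ g : G, (TensorProduct.map (ρ g) (ρ g) ∘ₗ swp V) := by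
    apply LinearMap.ext
    intro t
    simp [avg2, LinearMap.sum_apply]
  rw [h1, map_smul, map_sum, smul_eq_mul]
  congr 1
  refine Finset.sum_congr rfl fun g _ => ?_
  rw [trace_swp]
  have : ρ (g ^ 2) = ρ g ∘ₗ ρ g := by
    rw [pow_two, map_mul]
    rfl
  rw [Representation.character, this]

lemma trace_avg2 : LinearMap.trace ℂ _ (avg2 ρ) =
    (Nat.card G : ℂ)⁻¹ * ∑ g : G, ρ.character g * ρ.character g := by
  rw [avg2, map_smul, map_sum, smul_eq_mul]
  congr 1
  refine Finset.sum_congr rfl fun g _ => ?_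
  rw [LinearMap.trace_tensorProduct']
  rfl

lemma avg2_isProj : LinearMap.IsProj (LinearMap.range (avg2 ρ)) (avg2 ρ) where
  map_mem x := LinearMap.mem_range_self _ _
  map_id x hx := by
    obtain ⟨y, rfl⟩ := hx
    exact avg2_avg2 ρ y

lemma trace_avg2_eq : LinearMap.trace ℂ _ (avg2 ρ) = (Module.finrank ℂ (LinearMap.range (avg2 ρ)) : ℂ) :=
  (avg2_isProj ρ).trace

lemma finrank_interwine_le [IsIrreducible ρ] {W : Type*} [AddCommGroup W] [Module ℂ W]
    [FiniteDimensional ℂ W] (τ : Representation ℂ G W)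
    (hd : Module.finrank ℂ W = Module.finrank ℂ V) :
    Module.finrank ℂ (IntertwiningMap τ ρ) ≤ 1 := by
  by_cases h : ∃ g : IntertwiningMap τ ρ, g ≠ 0
  · obtain ⟨g, hg⟩ := h
    apply finrank_le_one g
    intro f
    have hs : Function.Surjective g := (IsIrreducible.surjective_or_eq_zero g).resolve_right hg
    have hi : Function.Injective g := by
      have : Function.Injective g.toLinearMap :=
        (LinearMap.injective_iff_surjective_of_finrank_eq_finrank hd).mpr hs
      exact this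
    let e : W ≃ₗ[ℂ] V := LinearEquiv.ofBijective g.toLinearMap ⟨hi, hs⟩
    have he : ∀ x, g (e.symm x) = x := fun x => e.apply_symm_apply x
    let a : IntertwiningMap ρ ρ :=
      { toLinearMap := f.toLinearMap ∘ₗ e.symm.toLinearMap
        isIntertwining' := by
          intro x
          ext y
          simp only [LinearMap.comp_apply, LinearEquiv.coe_coe]
          have h2 : e.symm (ρ x y) = τ x (e.symm y) := by
            apply e.injective
            rw [e.apply_symm_apply]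
            have h3 := IntertwiningMap.isIntertwining τ ρ g x (e.symm y)
            rw [he] at h3
            exact h3.symm
          rw [h2]
          exact IntertwiningMap.isIntertwining τ ρ f x (e.symm y) }
    obtain ⟨c, hc⟩ := (IsIrreducible.algebraMap_intertwiningMap_bijective_of_isAlgClosed
      (ρ := ρ)).2 a
    refine ⟨c, ?_⟩
    ext x
    have h4 : (algebraMap ℂ (IntertwiningMap ρ ρ) c) (g x) = a (g x) := by rw [hc]
    have h5 : a (g x) = f (e.symm (g x)) := rfl
    have h6 : e.symm (g x) = x := e.symm_apply_apply x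
    rw [h5, h6] at h4
    exact h4
  · push Not at h
    have : Subsingleton (IntertwiningMap τ ρ) := ⟨fun a b => by rw [h a, h b]⟩
    rw [Module.finrank_zero_of_subsingleton]
    exact Nat.zero_le _

lemma finrank_range_avg2_le [IsIrreducible ρ] :
    Module.finrank ℂ (LinearMap.range (avg2 ρ)) ≤ 1 := by
  have : Invertible (Nat.card G : ℂ) := invertibleOfNonzero cardG_ne
  have h1 := card_inv_mul_sum_char_mul_char_eq_finrank (G := G) ρ.dual ρ
  simp only [char_dual, inv_inv] at h1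
  rw [← trace_avg2, trace_avg2_eq] at h1
  have h2 : Module.finrank ℂ (LinearMap.range (avg2 ρ)) =
      Module.finrank ℂ (IntertwiningMap ρ.dual ρ) := by exact_mod_cast h1
  rw [h2]
  exact finrank_interwine_le ρ ρ.dual Subspace.dual_finrank_eq

/-- Frobenius–Schur: the indicator is `0` or the sign of the swap on the invariant line -/
theorem fs [IsIrreducible ρ] : ∃ ν : ℤ, (ν = 0 ∨ ν = 1 ∨ ν = -1) ∧
    ∑ g : G, ρ.character (g ^ 2) = (Nat.card G : ℂ) * ν ∧
    ((∃ t : V ⊗[ℂ] V, t ≠ 0 ∧ (∀ g, TensorProduct.map (ρ g) (ρ g) t = t) ∧ swp V t = t) → ν = 1) := by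
  have hsum : ∀ ν : ℤ, LinearMap.trace ℂ _ (avg2 ρ ∘ₗ swp V) = (ν : ℂ) →
      ∑ g : G, ρ.character (g ^ 2) = (Nat.card G : ℂ) * ν := by
    intro ν h
    rw [trace_avg2_swp] at h
    rw [← h, ← mul_assoc, mul_inv_cancel₀ cardG_ne, one_mul]
  rcases Nat.le_one_iff_eq_zero_or_eq_one.mp (finrank_range_avg2_le ρ) with h0 | h1
  · have hr : LinearMap.range (avg2 ρ) = ⊥ := Submodule.finrank_eq_zero.mp h0
    have hz : avg2 ρ = 0 := LinearMap.range_eq_bot.mp hr
    refine ⟨0, Or.inl rfl, hsum 0 ?_, ?_⟩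
    · rw [hz]; simp
    · rintro ⟨t, ht0, hti, -⟩
      exfalso
      apply ht0
      rw [← avg2_of_inv ρ hti, hz]
      rfl
  · obtain ⟨⟨t0, ht0⟩, hne, hspan⟩ := finrank_eq_one_iff'.mp h1
    have ht0' : t0 ≠ 0 := fun h => hne (Subtype.ext h)
    have hspan' : ∀ u, ∃ c : ℂ, c • t0 = avg2 ρ u := by
      intro u
      obtain ⟨c, hc⟩ := hspan ⟨avg2 ρ u, LinearMap.mem_range_self _ _⟩
      exact ⟨c, congrArg Subtype.val hc⟩
    have ht0a : avg2 ρ t0 = t0 := by
      obtain ⟨y, rfl⟩ := ht0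
      exact avg2_avg2 ρ y
    obtain ⟨ε, hε⟩ := hspan' (swp V t0)
    have hs : swp V t0 = ε • t0 := by
      rw [hε, avg2_swp, ht0a]
    have hε2 : ε * ε = 1 := by
      have h2 : swp V (swp V t0) = t0 := swp_swp_apply t0
      rw [hs, map_smul, hs, smul_smul] at h2
      have h3 : (ε * ε - 1) • t0 = 0 := by rw [sub_smul, h2, one_smul, sub_self]
      exact sub_eq_zero.mp ((smul_eq_zero.mp h3).resolve_right ht0')
    have hcomp : avg2 ρ ∘ₗ swp V = ε • avg2 ρ := by
      apply LinearMap.ext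
      intro u
      obtain ⟨c, hc⟩ := hspan' u
      simp only [LinearMap.comp_apply, LinearMap.smul_apply]
      rw [avg2_swp, ← hc, map_smul, hs, smul_comm]
    have htr : LinearMap.trace ℂ _ (avg2 ρ ∘ₗ swp V) = ε := by
      rw [hcomp, map_smul, trace_avg2_eq, h1]
      simp
    have hsym : (∃ t : V ⊗[ℂ] V, t ≠ 0 ∧ (∀ g, TensorProduct.map (ρ g) (ρ g) t = t) ∧
        swp V t = t) → ε = 1 := by
      rintro ⟨t, htn, hti, hts⟩
      obtain ⟨c, hc⟩ := hspan' t
      rw [avg2_of_inv ρ hti] at hc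
      have h4 : ε • t = t := by
        conv_rhs => rw [← hts, ← hc, map_smul, hs, smul_comm, hc]
      have h3 : (ε - 1) • t = 0 := by rw [sub_smul, h4, one_smul, sub_self]
      exact sub_eq_zero.mp ((smul_eq_zero.mp h3).resolve_right htn)
    rcases mul_self_eq_one_iff.mp hε2 with h | h
    · refine ⟨1, Or.inr (Or.inl rfl), hsum 1 (by rw [htr, h]; simp), fun _ => rfl⟩
    · refine ⟨-1, Or.inr (Or.inr rfl), hsum (-1) (by rw [htr, h]; simp), fun hx => ?_⟩
      have := hsym hx
      rw [h] at this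
      norm_num at this

end grp

end Pool.Agent.W90.Swan
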