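import Pool.Agent.W90.Swan.Tower

/-! The jump inequality for characters of subgroups. -/

open scoped BigOperators

set_option linter.unusedSectionVars false

noncomputable section

namespace Pool.Agent.W90.Swan

namespace Dat

variable {G E : Type*} [Group G] [Finite G] [Field E] [MulSemiringAction G E] (D : Dat G E)

/-- the ramification groups -/
def Ram (i : ℕ) : Subgroup G where
  carrier := {g | ∀ (n : ℤ) (x : E), D.L n x → D.L (n + i) (g • x - x)}
  mul_mem' := by
    intro a b ha hb n x hx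
    have e : (a * b) • x - x = (a • (b • x) - b • x) + (b • x - x) := by
      rw [mul_smul]; ring
    rw [e]
    exact D.add (ha n _ (D.act b hx)) (hb n x hx)
  one_mem' := by
    intro n x _
    rw [one_smul, sub_self]
    exact D.zero _
  inv_mem' := by
    intro a ha n x hx
    have e : a⁻¹ • x - x = -(a⁻¹ • (a • x - x)) := by
      rw [smul_sub, inv_smul_smul]; ring
    rw [e]
    exact D.neg (D.act a⁻¹ (ha n x hx))

variable {D}

lemma mem_K_bot (x : E) : x ∈ K (E := E) (⊥ : Subgroup G) := by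
  intro g hg
  rw [Subgroup.mem_bot.mp hg, one_smul]

lemma mem_Ram {i : ℕ} {g : G} (hg : g ≠ 1) : g ∈ Ram D i ↔ (i : ℤ) + 1 ≤ e D g := by
  constructor
  · intro h
    have := (e_V (D := D) hg).le (h 1 D.π D.hπ.1)
    omega
  · intro h n x hx
    have hc : (Nat.card (⊥ : Subgroup G) : ℤ) = 1 := by simp
    have h1 : D.V (Nat.card (⊥ : Subgroup G)) D.π := by rw [hc]; exact D.Vπ
    have h2 : D.V (Nat.card (⊥ : Subgroup G) + (e D g - 1)) (g • D.π - D.π) := by
      rw [hc, add_sub_cancel]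
      exact e_V hg
    exact D.mono (Dat.shift (mem_K_bot _) h1 h2 (mem_K_bot x) hx) (by omega)

lemma Ram_anti : Antitone (Ram D) := by
  intro i j hij g hg n x hx
  exact D.mono (hg n x hx) (by omega)

lemma Ram_one : Ram D 1 = ⊤ := by
  rw [eq_top_iff]
  intro g _ n x hx
  exact D.wild g hx

lemma Ram_normal (i : ℕ) : (Ram D i).Normal := by
  refine ⟨fun g hg h n x hx => ?_⟩
  have e : (h * g * h⁻¹) • x - x = h • (g • (h⁻¹ • x) - h⁻¹ • x) := by
    rw [smul_sub, smul_inv_smul, mul_smul, mul_smul]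
  rw [e]
  exact D.act h (hg n _ (D.act h⁻¹ hx))

variable (D) in
lemma exists_Ram_bot : ∃ M, Ram D M = ⊥ := by
  have hb : ∃ M : ℕ, ∀ g : G, e D g ≤ M := by
    obtain ⟨M, hM⟩ := (Set.finite_range (fun g : G => (e D g).toNat)).bddAbove
    refine ⟨M, fun g => ?_⟩
    have h1 : (e D g).toNat ≤ M := hM ⟨g, rfl⟩
    omega
  obtain ⟨M, hM⟩ := hb
  refine ⟨M, ?_⟩
  rw [eq_bot_iff]
  intro g hg
  by_contra h1
  have h2 := (mem_Ram (D := D) (fun h => h1 (Subgroup.mem_bot.mpr h))).mp hg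
  have := hM g
  omega

lemma J_eq {M : ℕ} (hM : Ram D M = ⊥) (N : Subgroup G) :
    J D N = ∑ i ∈ Finset.Icc 1 M, ((Nat.card (N ⊓ Ram D i : Subgroup G) : ℤ) - 1) := by
  classical
  have hfin : (N : Set G).Finite := Set.toFinite _
  rw [J, finsum_mem_eq_finite_toFinset_sum _ hfin]
  have h1 : ∀ g ∈ hfin.toFinset, e D g - 1 =
      ∑ i ∈ Finset.Icc 1 M, if (g ≠ 1 ∧ g ∈ Ram D i) then (1 : ℤ) else 0 := by
    intro g _
    by_cases hg : g = 1
    · subst hg
      simp [e_one]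
    · have h2 : (2 : ℤ) ≤ e D g := by
        have := (e_V (D := D) hg).le (D.wild g D.hπ.1)
        omega
      have h3 : e D g - 1 < M := by
        by_contra hc
        have : g ∈ Ram D M := (mem_Ram hg).mpr (by omega)
        rw [hM, Subgroup.mem_bot] at this
        exact hg this
      obtain ⟨t, ht⟩ := Int.eq_ofNat_of_zero_le (show 0 ≤ e D g - 1 by omega)
      rw [Finset.sum_boole]
      have h4 : (Finset.Icc 1 M).filter (fun i => g ≠ 1 ∧ g ∈ Ram D i) =
          Finset.Icc 1 t := by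
        ext i
        simp only [Finset.mem_filter, Finset.mem_Icc, mem_Ram hg, ne_eq, hg, not_false_eq_true,
          true_and]
        omega
      rw [h4, Nat.card_Icc]
      omega
  rw [Finset.sum_congr rfl h1, Finset.sum_comm]
  refine Finset.sum_congr rfl fun i _ => ?_
  rw [Finset.sum_boole]
  have h5 : (hfin.toFinset.filter (fun g => g ≠ 1 ∧ g ∈ Ram D i)) =
      ((N ⊓ Ram D i : Subgroup G) : Set G).toFinite.toFinset.erase 1 := by
    ext g
    simp only [Finset.mem_filter, Set.Finite.mem_toFinset, SetLike.mem_coe, Finset.mem_erase,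
      Subgroup.mem_inf]
    tauto
  rw [h5, Finset.card_erase_of_mem (by simp)]
  have h6 : (((N ⊓ Ram D i : Subgroup G) : Set G).toFinite.toFinset).card =
      Nat.card (N ⊓ Ram D i : Subgroup G) := by
    rw [← Set.ncard_eq_toFinset_card]
    rfl
  rw [h6]
  have h7 : 0 < Nat.card (N ⊓ Ram D i : Subgroup G) := Nat.card_pos
  push_cast [Nat.cast_sub h7]
  ring

lemma cnt {N H : Subgroup G} {σ : G} (P : Pr N H σ) (X : Subgroup G) :
    (H ⊓ X ≤ N → Nat.card (H ⊓ X : Subgroup G) = Nat.card (N ⊓ X : Subgroup G)) ∧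
    (¬ H ⊓ X ≤ N → Nat.card (H ⊓ X : Subgroup G) = 2 * Nat.card (N ⊓ X : Subgroup G)) := by
  constructor
  · intro h
    have : H ⊓ X = N ⊓ X := le_antisymm (le_inf h inf_le_right) (inf_le_inf_right X P.le)
    rw [this]
  · intro h
    obtain ⟨h0, hh, hN⟩ : ∃ h0 ∈ H ⊓ X, h0 ∉ N := by
      by_contra hc
      push Not at hc
      exact h hc
    have P' : Pr (N ⊓ X) (H ⊓ X) h0 :=
      { le := inf_le_inf_right X P.le
        mem := hh
        nmem := fun h1 => hN h1.1
        nrm := fun g hg n hn => ⟨P.nrm g hg.1 n hn.1, X.mul_mem (X.mul_mem hg.2 hn.2)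
          (X.inv_mem hg.2)⟩
        cov := fun g hg hgn => ⟨by
          have hgN : g ∉ N := fun h1 => hgn ⟨h1, hg.2⟩
          have h1 := P.cov g hg.1 hgN
          have h2 := P.cov h0 hh.1 hN
          have h3 : h0⁻¹ * g = (σ⁻¹ * h0)⁻¹ * (σ⁻¹ * g) := by group
          rw [h3]
          exact N.mul_mem (N.inv_mem h2) h1, X.mul_mem (X.inv_mem hh.2) hg.2⟩ }
    exact P'.card

variable (D) in
/-- the weighted number of jumps of `H` not in `C` -/
def TT (M : ℕ) (H C : Subgroup G) : ℤ :=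
  open Classical in
  ∑ i ∈ Finset.Icc 1 M, if H ⊓ Ram D i ≤ C then 0 else (Nat.card (H ⊓ Ram D i : Subgroup G) : ℤ)

lemma lam_eq {M : ℕ} (hM : Ram D M = ⊥) (N H : Subgroup G) :
    J D H - J D N = ∑ i ∈ Finset.Icc 1 M,
      ((Nat.card (H ⊓ Ram D i : Subgroup G) : ℤ) - Nat.card (N ⊓ Ram D i : Subgroup G)) := by
  rw [J_eq hM, J_eq hM, ← Finset.sum_sub_distrib]
  refine Finset.sum_congr rfl fun i _ => ?_
  ring

section towers

variable {B : ℕ → Subgroup G} {σ : G} {k M : ℕ} (hM : Ram D M = ⊥)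

include hM

lemma TT_one (T : Tow B σ 1) : TT D M (B 0) (B 1) = 2 * (J D (B 0) - J D (B 1)) := by
  rw [lam_eq hM, TT, Finset.mul_sum]
  refine Finset.sum_congr rfl fun i _ => ?_
  obtain ⟨h1, h2⟩ := cnt T.pr (Ram D i)
  split_ifs with h
  · rw [h1 h]; ring
  · rw [h2 h]; push_cast; ring

lemma TT_succ (T : Tow B σ (k + 2)) : TT D M (B 0) (B (k + 2)) =
    TT D M (B 1) (B (k + 2)) + (J D (B 0) - J D (B 1)) := by
  rw [lam_eq hM, TT, TT, ← Finset.sum_add_distrib]
  refine Finset.sum_congr rfl fun i _ => ?_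
  obtain ⟨h1, h2⟩ := cnt T.pr (Ram D i)
  have hle : B (k + 2) ≤ B 1 := T.mono (by omega) le_rfl
  have hle2 : B (k + 2) ≤ B 2 := T.mono (by omega) le_rfl
  by_cases hA : B 0 ⊓ Ram D i ≤ B (k + 2)
  · have hB : B 1 ⊓ Ram D i ≤ B (k + 2) := (inf_le_inf_right _ T.pr.le).trans hA
    rw [if_pos hA, if_pos hB, h1 (hA.trans hle)]
    ring
  · rw [if_neg hA]
    by_cases hC : B 0 ⊓ Ram D i ≤ B 1
    · have e : B 0 ⊓ Ram D i = B 1 ⊓ Ram D i :=
        le_antisymm (le_inf hC inf_le_right) (inf_le_inf_right _ T.pr.le)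
      rw [if_neg (by rw [← e]; exact hA), h1 hC]
      ring
    · have hB : ¬ B 1 ⊓ Ram D i ≤ B (k + 2) := by
        intro hB
        obtain ⟨h0, hh, hN⟩ : ∃ h0 ∈ B 0 ⊓ Ram D i, h0 ∉ B 1 := by
          by_contra hc
          push Not at hc
          exact hC hc
        apply T.sqr 0 (by omega) h0 hh.1 hN
        apply hle2
        apply hB
        refine ⟨?_, (Ram D i).mul_mem hh.2 hh.2⟩
        have := T.cov 0 (by omega) h0⁻¹ ((B 0).inv_mem hh.1) h0 hh.1
          (fun h => hN (by simpa using (B 1).inv_mem h)) hN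
        simpa using this
      rw [if_neg hB]
      ring

lemma lam_le (T : Tow B σ (k + 2)) : J D (B 0) - J D (B 1) ≤ TT D M (B 1) (B (k + 2)) := by
  rw [lam_eq hM, TT]
  refine Finset.sum_le_sum fun i _ => ?_
  obtain ⟨h1, h2⟩ := cnt T.pr (Ram D i)
  have hle : B (k + 2) ≤ B 1 := T.mono (by omega) le_rfl
  have hle2 : B (k + 2) ≤ B 2 := T.mono (by omega) le_rfl
  by_cases hC : B 0 ⊓ Ram D i ≤ B 1
  · rw [h1 hC, sub_self]
    split_ifs
    · exact le_rfl
    · positivity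
  · have hB : ¬ B 1 ⊓ Ram D i ≤ B (k + 2) := by
      intro hB
      obtain ⟨h0, hh, hN⟩ : ∃ h0 ∈ B 0 ⊓ Ram D i, h0 ∉ B 1 := by
        by_contra hc
        push Not at hc
        exact hC hc
      apply T.sqr 0 (by omega) h0 hh.1 hN
      apply hle2
      apply hB
      refine ⟨?_, (Ram D i).mul_mem hh.2 hh.2⟩
      have := T.cov 0 (by omega) h0⁻¹ ((B 0).inv_mem hh.1) h0 hh.1
        (fun h => hN (by simpa using (B 1).inv_mem h)) hN
      simpa using this
    rw [if_neg hB, h2 hC]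
    push_cast
    linarith

lemma two_lam_le (T : Tow B σ (k + 1)) :
    2 * (J D (B 0) - J D (B 1)) ≤ TT D M (B 0) (B (k + 1)) := by
  cases k with
  | zero => rw [TT_one hM T]
  | succ k =>
    rw [TT_succ hM T]
    have := lam_le hM T
    linarith

lemma TT_self (H : Subgroup G) : TT D M H H = 0 := by
  rw [TT]
  apply Finset.sum_eq_zero
  intro i _
  rw [if_pos inf_le_left]

lemma TT_shift_le (T : Tow B σ (k + 1)) :
    TT D M (B 1) (B (k + 1)) + (J D (B 0) - J D (B 1)) ≤ TT D M (B 0) (B (k + 1)) := by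
  cases k with
  | zero =>
    have h1 := (T.pr.sh D).s1
    rw [TT_one hM T, TT_self hM]
    linarith
  | succ k => rw [TT_succ hM T]

end towers

/-- (N1) deep units are norms -/
theorem n1 {M : ℕ} (hM : Ram D M = ⊥) : ∀ {k : ℕ} {B : ℕ → Subgroup G} {σ : G}, Tow B σ k →
    ∀ {y : E}, y ∈ K (E := E) (B 0) → D.L (TT D M (B 0) (B k) + 1) (y - 1) →
    ∃ x ∈ K (E := E) (B k), NN k σ x = y := by
  intro k
  induction k with
  | zero =>
    intro B σ T y hy _
    exact ⟨y, hy, NN_zero _ _⟩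
  | succ k ih =>
    intro B σ T y hy hL
    have h1 := two_lam_le hM T
    have h2 := TT_shift_le hM T
    obtain ⟨y1, hy1, hL1, hn⟩ := q2 T.pr (T.pr.sh D) hy (by linarith) hL
    obtain ⟨x, hx, hx'⟩ := ih T.shift hy1 (D.mono hL1 (by simp only [zero_add]; linarith))
    refine ⟨x, hx, ?_⟩
    rw [NN_succ, hx', hn]

lemma depth {M : ℕ} (hM : Ram D M = ⊥) : ∀ {k : ℕ} {B : ℕ → Subgroup G} {σ : G},
    Tow B σ (k + 1) → ∀ {w : E}, w ∈ K (E := E) (B k) →
    D.L (TT D M (B k) (B (k + 1))) (w - 1) →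
    D.L (TT D M (B 0) (B (k + 1))) (NN k σ w - 1) := by
  intro k
  induction k with
  | zero =>
    intro B σ T w _ h
    rw [NN_zero]
    exact h
  | succ k ih =>
    intro B σ T w hw h
    have h1 := ih T.shift hw h
    have h2 := q1 T.pr (T.pr.sh D) (NN_mem T.trunc.shift hw) (lam_le hM T) h1
    rw [NN_succ]
    rw [TT_succ hM T]
    exact h2

/-- (N2) shallow non-norms -/
theorem n2 {M : ℕ} (hM : Ram D M = ⊥) {k : ℕ} {B : ℕ → Subgroup G} {σ : G}
    (T : Tow B σ (k + 1)) : ∃ a ∈ K (E := E) (B 0), D.L (TT D M (B 0) (B (k + 1))) (a - 1) ∧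
      a ≠ 0 ∧ ∀ x ∈ K (E := E) (B (k + 1)), NN (k + 1) σ x ≠ a := by
  have P := T.last
  obtain ⟨w, hw, hwL, hwV, hwn⟩ := q3 P (P.sh D)
  have hlast : TT D M (B k) (B (k + 1)) = 2 * (J D (B k) - J D (B (k + 1))) := by
    have T' : Tow (fun j => B (k + j)) (σ ^ (2 ^ k)) 1 :=
      { le := fun j hj => T.le (k + j) (by omega)
        mem := P.mem
        nmem := fun _ => P.nmem
        cov := fun j hj => T.cov (k + j) (by omega)
        sqr := fun j hj => by omega
        nrm := fun j hj h hh => T.nrm (k + j) (by omega) h (T.mono (by omega) (by omega) hh) }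
    exact TT_one hM T'
  refine ⟨NN k σ w, NN_mem T.trunc hw, depth hM T hw (by rw [hlast]; exact hwL),
    NN_ne_zero k σ hwV.ne, ?_⟩
  intro x hx hxa
  have hx0 : x ≠ 0 := by
    rintro rfl
    apply NN_ne_zero k σ hwV.ne
    rw [← hxa, NN]
    refine Finset.prod_eq_zero (i := 0) (Finset.mem_range.mpr (by positivity)) ?_
    simp
  rw [NN_succ''] at hxa
  set z := x * σ ^ (2 ^ k) • x with hz
  have hzK : z ∈ K (E := E) (B k) := P.nm_mem hx
  have hz0 : z ≠ 0 := by
    refine mul_ne_zero hx0 ?_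
    intro h
    apply hx0
    rw [← inv_smul_smul (σ ^ (2 ^ k)) x, h, smul_zero]
  have hu : NN k σ (w / z) = 1 := by
    rw [div_eq_mul_inv, NN_mul, NN_inv, hxa, mul_inv_cancel₀ (NN_ne_zero k σ hwV.ne)]
  obtain ⟨b, hb, hb0, hb'⟩ := h90 D T.trunc ((K _).div_mem hw hzK) hu
  have hσ0 : σ ∈ B 0 := T.mem
  have hσ0' : σ⁻¹ ∈ B 0 := (B 0).inv_mem hσ0
  have hq := q5 P (P.sh D) (τ := σ) (by rw [← pow_succ', ← pow_succ])
    (fun x hx => T.act_mem le_rfl hσ0 hx) (fun x hx => T.act_mem le_rfl hσ0' hx)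
    (fun x hx => T.act_mem (by omega) hσ0 hx) hb hb0
  have hzN : IsN (B (k + 1)) (σ ^ (2 ^ k)) z := ⟨x, hx, rfl⟩
  apply hwn
  have h1 := hzN.mul hq.inv
  have hσb : σ • b ≠ 0 := by
    intro h
    apply hb0
    rw [← inv_smul_smul σ b, h, smul_zero]
  have e : z * (σ • b / b)⁻¹ = w := by
    rw [inv_div]
    nth_rewrite 1 [← hb']
    field_simp
  rwa [e] at h1

/-- the jump inequality for a cyclic tower -/
theorem jump {M : ℕ} (hM : Ram D M = ⊥) {k : ℕ} {B : ℕ → Subgroup G} {σ : G}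
    (T : Tow B σ (k + 2)) {e' : ℤ} (he : D.L e' 2) :
    min (TT D M (B 0) (B (k + 1))) e' + TT D M (B 0) (B (k + 1)) ≤ TT D M (B 0) (B (k + 2)) := by
  obtain ⟨a, ha, haL, ha0, han⟩ := n2 hM T.trunc
  set T1 := TT D M (B 0) (B (k + 1)) with hT1
  by_contra hc
  push Not at hc
  have h1 : D.L (min T1 e' + T1) (a * a - 1) := by
    have e1 : a * a - 1 = (a - 1) * (a - 1) + 2 * (a - 1) := by ring
    rw [e1]
    refine D.add (Fil.mul haL haL ?_) (Fil.mul he haL ?_)
    · have := min_le_left T1 e'; omega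
    · have := min_le_right T1 e'; omega
  obtain ⟨x, hx, hx'⟩ := n1 hM T ((K _).mul_mem ha ha) (D.mono h1 (by omega))
  obtain ⟨w, hw, hw'⟩ := sq_norm D T ha ha0 hx hx'
  exact han w hw hw'

end Dat

end Pool.Agent.W90.Swan
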