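import Pool.Agent.W90.Swan.Jump

/-! The jump inequality for characters of subgroups; existence of overgroups of index two. -/

open scoped BigOperators

set_option linter.unusedSectionVars false

noncomputable section

namespace Pool.Agent.W90.Swan

/-- the tower of kernels of a character of `2`-power order -/
def kt {G : Type*} [Group G] (H : Subgroup G) (χ : H →* ℂˣ) (k j : ℕ) : Subgroup G :=
  ((χ ^ (2 ^ (k - j))).ker).map H.subtype

lemma mem_kt {G : Type*} [Group G] {H : Subgroup G} {χ : H →* ℂˣ} {k j : ℕ} {g : G} :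
    g ∈ kt H χ k j ↔ ∃ h : g ∈ H, χ ⟨g, h⟩ ^ (2 ^ (k - j)) = 1 := by
  rw [kt, Subgroup.mem_map]
  constructor
  · rintro ⟨⟨x, hx⟩, h1, rfl⟩
    exact ⟨hx, h1⟩
  · rintro ⟨h, h1⟩
    exact ⟨⟨g, h⟩, h1, rfl⟩

lemma unit_sq {a : ℂˣ} (h : a ^ 2 = 1) (h1 : a ≠ 1) : a = -1 := by
  have h2 : (a : ℂ) * (a : ℂ) = 1 := by
    rw [← Units.val_mul, ← pow_two, h, Units.val_one]
  rcases mul_self_eq_one_iff.mp h2 with h3 | h3
  · exact absurd (Units.ext h3) h1
  · exact Units.ext h3

/-- overgroups of index two -/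
lemma exists_over {G : Type*} [Group G] [Finite G] (hG : IsPGroup 2 G) (H R : Subgroup G)
    (hR : R.Normal) (hRH : ¬ R ≤ H) : ∃ (K : Subgroup G) (σ : G), Dat.Pr H K σ ∧ ¬ K ⊓ R ≤ H := by
  set L : Subgroup G := H ⊔ R with hL
  have hHL : H ≤ L := le_sup_left
  have hHne : H ≠ L := by
    intro h
    apply hRH
    rw [h]
    exact le_sup_right
  obtain ⟨n, hn⟩ := (IsPGroup.iff_card (p := 2)).mp (hG.to_subgroup H)
  obtain ⟨m, hm⟩ := (IsPGroup.iff_card (p := 2)).mp (hG.to_subgroup L)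
  have hnm : n < m := by
    by_contra hc
    apply hHne
    apply Subgroup.eq_of_le_of_card_ge hHL
    rw [hn, hm]
    exact Nat.pow_le_pow_right (by norm_num) (by omega)
  have hH'c : Nat.card (H.subgroupOf L) = 2 ^ n := by
    rw [← hn]
    exact Nat.card_congr (Subgroup.subgroupOfEquivOfLe hHL).toEquiv
  obtain ⟨K', hK'c, hK'⟩ := Sylow.exists_subgroup_card_pow_succ (G := L) (p := 2)
    (by rw [hm]; exact pow_dvd_pow 2 hnm) hH'c
  set K : Subgroup G := K'.map L.subtype with hK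
  have hKc : Nat.card K = 2 ^ (n + 1) := by
    rw [hK, Subgroup.card_map_of_injective L.subtype_injective, hK'c]
  have hHK : H ≤ K := by
    intro h hh
    exact ⟨⟨h, hHL hh⟩, hK' (Subgroup.mem_subgroupOf.mpr hh), rfl⟩
  have hKL : K ≤ L := Subgroup.map_subtype_le K'
  have hidx : (H.subgroupOf K).index = 2 := by
    have h1 := Subgroup.card_mul_index (H.subgroupOf K)
    have h2 : Nat.card (H.subgroupOf K) = 2 ^ n := by
      rw [← hn]
      exact Nat.card_congr (Subgroup.subgroupOfEquivOfLe hHK).toEquiv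
    rw [h2, hKc, pow_succ] at h1
    exact Nat.eq_of_mul_eq_mul_left (by positivity) h1
  have hmul : ∀ a ∈ K, ∀ b ∈ K, (a * b ∈ H ↔ (a ∈ H ↔ b ∈ H)) := by
    intro a ha b hb
    have := Subgroup.mul_mem_iff_of_index_two hidx (a := ⟨a, ha⟩) (b := ⟨b, hb⟩)
    simpa [Subgroup.mem_subgroupOf] using this
  obtain ⟨σ, hσ, hσH⟩ : ∃ σ ∈ K, σ ∉ H := by
    by_contra hc
    push Not at hc
    have : K = H := le_antisymm hc hHK
    rw [this, hn] at hKc
    have := Nat.pow_right_injective (le_refl 2) hKc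
    omega
  refine ⟨K, σ, ⟨hHK, hσ, hσH, ?_, ?_⟩, ?_⟩
  · intro h hh n hn0
    have h1 := hmul (h * n) (K.mul_mem hh (hHK hn0)) h⁻¹ (K.inv_mem hh)
    have h2 := hmul h hh n (hHK hn0)
    rw [h1, h2, H.inv_mem_iff]
    tauto
  · intro h hh hhH
    rw [hmul σ⁻¹ (K.inv_mem hσ) h hh, H.inv_mem_iff]
    tauto
  · intro hle
    obtain ⟨h, hh, r, hr, hhr⟩ := Subgroup.mem_sup_of_normal_right.mp (hKL hσ)
    apply hσH
    have h1 : r ∈ K := by
      have : r = h⁻¹ * σ := by rw [← hhr]; group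
      rw [this]
      exact K.mul_mem (K.inv_mem (hHK hh)) hσ
    rw [← hhr]
    exact H.mul_mem hh (hle ⟨h1, hr⟩)

namespace Dat

variable {G E : Type*} [Group G] [Finite G] [Field E] [MulSemiringAction G E] {D : Dat G E}

/-- the jump inequality for a character -/
theorem jump_char {M : ℕ} (hM : Ram D M = ⊥) (H : Subgroup G) (χ : H →* ℂˣ) {e' : ℤ}
    (he : D.L e' 2) (T0 T1 : ℤ)
    (hT0 : T0 = open Classical in ∑ i ∈ Finset.Icc 1 M, if (∀ h : H, (h : G) ∈ Ram D i → χ h = 1)
      then 0 else (Nat.card (H ⊓ Ram D i : Subgroup G) : ℤ))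
    (hT1 : T1 = open Classical in ∑ i ∈ Finset.Icc 1 M,
      if (∀ h : H, (h : G) ∈ Ram D i → χ h ^ 2 = 1)
      then 0 else (Nat.card (H ⊓ Ram D i : Subgroup G) : ℤ)) :
    min T1 e' + T1 ≤ T0 := by
  classical
  obtain ⟨m, hm⟩ := (IsPGroup.iff_card (p := 2)).mp (D.pg.to_subgroup H)
  have hex : ∃ k : ℕ, ∀ h : H, χ h ^ (2 ^ k) = 1 := by
    refine ⟨m, fun h => ?_⟩
    rw [← map_pow, ← hm, pow_card_eq_one', map_one]
  set k := Nat.find hex with hk
  have hk1 : ∀ h : H, χ h ^ (2 ^ k) = 1 := Nat.find_spec hex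
  have hkmin : ∀ j < k, ∃ h : H, χ h ^ (2 ^ j) ≠ 1 := by
    intro j hj
    have := Nat.find_min hex hj
    push Not at this
    exact this
  have hT0nn : 0 ≤ T0 := by
    rw [hT0]
    refine Finset.sum_nonneg fun i _ => ?_
    split_ifs <;> positivity
  rcases Nat.lt_or_ge k 2 with hk2 | hk2
  · have h1 : T1 = 0 := by
      rw [hT1]
      apply Finset.sum_eq_zero
      intro i _
      rw [if_pos]
      intro h _
      have h2 := hk1 h
      have h3 : χ h ^ 2 = (χ h ^ (2 ^ k)) ^ (2 ^ (1 - k)) := by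
        rw [← pow_mul, ← pow_add]
        have : k + (1 - k) = 1 := by omega
        rw [this, pow_one]
      rw [h3, h2, one_pow]
    rw [h1]
    have := min_le_left 0 e'
    omega
  · obtain ⟨k', hk'⟩ : ∃ k', k = k' + 2 := ⟨k - 2, by omega⟩
    obtain ⟨σ, hσ⟩ := hkmin (k - 1) (by omega)
    have T : Tow (kt H χ k) (σ : G) (k' + 2) :=
      { le := by
          intro j hj g hg
          rw [mem_kt] at hg ⊢
          obtain ⟨h, h1⟩ := hg
          refine ⟨h, ?_⟩
          have : k - j = (k - (j + 1)) + 1 := by omega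
          rw [this, pow_succ, pow_mul, h1, one_pow]
        mem := by
          rw [mem_kt]
          exact ⟨σ.2, hk1 σ⟩
        nmem := by
          intro _ h
          rw [mem_kt] at h
          obtain ⟨h, h1⟩ := h
          exact hσ h1
        cov := by
          intro j hj g hg h hh hgn hhn
          rw [mem_kt] at hg hh hgn hhn ⊢
          obtain ⟨hg0, hg1⟩ := hg
          obtain ⟨hh0, hh1⟩ := hh
          push Not at hgn hhn
          have e1 : k - j = (k - (j + 1)) + 1 := by omega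
          rw [e1, pow_succ, pow_mul] at hg1 hh1
          have h1 := unit_sq hg1 (hgn hg0)
          have h2 := unit_sq hh1 (hhn hh0)
          refine ⟨H.mul_mem (H.inv_mem hg0) hh0, ?_⟩
          have h3 : (⟨g⁻¹ * h, H.mul_mem (H.inv_mem hg0) hh0⟩ : H) = (⟨g, hg0⟩ : H)⁻¹ * ⟨h, hh0⟩ := rfl
          rw [h3, map_mul, map_inv, mul_pow, inv_pow, h1, h2]
          simp
        sqr := by
          intro j hj h hh hhn hhh
          rw [mem_kt] at hh hhn hhh
          obtain ⟨hh0, hh1⟩ := hh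
          push Not at hhn
          obtain ⟨h0, h1⟩ := hhh
          apply hhn hh0
          have h3 : (⟨h * h, h0⟩ : H) = (⟨h, hh0⟩ : H) ^ 2 := by
            rw [pow_two]; rfl
          rw [h3, map_pow, ← pow_mul, ← pow_succ'] at h1
          have e1 : k - (j + 1) = (k - (j + 2)) + 1 := by omega
          rw [e1]
          exact h1
        nrm := by
          intro j hj h hh g hg
          rw [mem_kt] at hh hg ⊢
          obtain ⟨hh0, -⟩ := hh
          obtain ⟨hg0, hg1⟩ := hg
          refine ⟨H.mul_mem (H.mul_mem hh0 hg0) (H.inv_mem hh0), ?_⟩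
          have h3 : (⟨h * g * h⁻¹, H.mul_mem (H.mul_mem hh0 hg0) (H.inv_mem hh0)⟩ : H) =
              (⟨h, hh0⟩ : H) * ⟨g, hg0⟩ * (⟨h, hh0⟩ : H)⁻¹ := rfl
          rw [h3, map_mul, map_mul, map_inv, mul_inv_cancel_comm]
          exact hg1 }
    have hB0 : kt H χ k 0 = H := by
      ext g
      rw [mem_kt]
      exact ⟨fun h => h.1, fun h => ⟨h, hk1 ⟨g, h⟩⟩⟩
    have hTT0 : TT D M (kt H χ k 0) (kt H χ k (k' + 2)) = T0 := by
      rw [TT, hT0, hB0]
      refine Finset.sum_congr rfl fun i _ => ?_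
      have hiff : H ⊓ Ram D i ≤ kt H χ k (k' + 2) ↔ (∀ h : H, (h : G) ∈ Ram D i → χ h = 1) := by
        constructor
        · intro h g hg
          obtain ⟨h1, h2⟩ := mem_kt.mp (h (⟨g.2, hg⟩ : (g : G) ∈ H ⊓ Ram D i))
          have : k - (k' + 2) = 0 := by omega
          rw [this, pow_zero, pow_one] at h2
          exact h2
        · intro h g hg
          rw [mem_kt]
          refine ⟨hg.1, ?_⟩
          rw [h ⟨g, hg.1⟩ hg.2, one_pow]
      simp only [hiff]
    have hTT1 : TT D M (kt H χ k 0) (kt H χ k (k' + 1)) = T1 := by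
      rw [TT, hT1, hB0]
      refine Finset.sum_congr rfl fun i _ => ?_
      have hiff : H ⊓ Ram D i ≤ kt H χ k (k' + 1) ↔
          (∀ h : H, (h : G) ∈ Ram D i → χ h ^ 2 = 1) := by
        have e1 : k - (k' + 1) = 1 := by omega
        constructor
        · intro h g hg
          obtain ⟨h1, h2⟩ := mem_kt.mp (h (⟨g.2, hg⟩ : (g : G) ∈ H ⊓ Ram D i))
          rw [e1, pow_one] at h2
          exact h2
        · intro h g hg
          rw [mem_kt]
          refine ⟨hg.1, ?_⟩
          rw [e1, pow_one]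
          exact h ⟨g, hg.1⟩ hg.2
      simp only [hiff]
    have := jump hM T he
    rw [hTT0, hTT1] at this
    exact this

end Dat

end Pool.Agent.W90.Swan
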