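import Pool.Agent.W90.Swan.Combine

/-! From a complete discrete valuation ring with a group action to the abstract data. -/

open scoped BigOperators
open IsLocalRing

set_option linter.unusedSectionVars false

noncomputable section

namespace Pool.Agent.W90.Swan

section

variable {O E : Type*} [CommRing O] [IsDomain O] [IsDiscreteValuationRing O] [Field E] [Algebra O E]
  [IsFractionRing O E]

lemma pow_irr {ϖ : O} (hϖ : Irreducible ϖ) {x : O} {n : ℕ} :
    x ∈ maximalIdeal O ^ n ↔ ∃ y, x = ϖ ^ n * y := by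
  rw [hϖ.maximalIdeal_eq, Ideal.span_singleton_pow, Ideal.mem_span_singleton]
  exact Iff.rfl

lemma alg_inj : Function.Injective (algebraMap O E) := IsFractionRing.injective O E

lemma alg_ne {ϖ : O} (hϖ : Irreducible ϖ) : algebraMap O E ϖ ≠ 0 := by
  intro h
  apply hϖ.ne_zero
  apply alg_inj (O := O) (E := E)
  rw [h, map_zero]

/-- the filtration of the fraction field of a discrete valuation ring -/
def dvrFil (E : Type*) [Field E] [Algebra O E] [IsFractionRing O E] {ϖ : O} (hϖ : Irreducible ϖ) :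
    Fil E where
  L n x := ∃ y : O, x = (algebraMap O E ϖ) ^ n * algebraMap O E y
  zero n := ⟨0, by simp⟩
  add := by
    rintro n x y ⟨a, rfl⟩ ⟨b, rfl⟩
    exact ⟨a + b, by rw [map_add]; ring⟩
  neg := by
    rintro n x ⟨a, rfl⟩
    exact ⟨-a, by rw [map_neg]; ring⟩
  mono := by
    rintro m n x ⟨a, rfl⟩ hmn
    obtain ⟨k, hk⟩ := Int.eq_ofNat_of_zero_le (show 0 ≤ n - m by omega)
    refine ⟨ϖ ^ k * a, ?_⟩
    have : n = m + k := by omega
    rw [this, zpow_add₀ (alg_ne hϖ), zpow_natCast, map_mul, map_pow, mul_assoc]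
  mul' := by
    rintro m n x y ⟨a, rfl⟩ ⟨b, rfl⟩
    refine ⟨a * b, ?_⟩
    rw [zpow_add₀ (alg_ne hϖ), map_mul]
    ring
  one := ⟨1, by simp⟩
  one' := by
    rintro ⟨y, hy⟩
    rw [zpow_one, ← map_mul, ← map_one (algebraMap O E)] at hy
    exact hϖ.not_isUnit (IsUnit.of_mul_eq_one y (alg_inj hy).symm)
  inv' := by
    intro x hx
    obtain ⟨a, b, hb, rfl⟩ := IsFractionRing.div_surjective O x
    have hb0 : b ≠ 0 := nonZeroDivisors.ne_zero hb
    have ha0 : a ≠ 0 := by
      rintro rfl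
      simp at hx
    obtain ⟨i, u, hu⟩ := IsDiscreteValuationRing.eq_unit_mul_pow_irreducible ha0 hϖ
    obtain ⟨j, w, hw⟩ := IsDiscreteValuationRing.eq_unit_mul_pow_irreducible hb0 hϖ
    have hϖ0 := alg_ne (E := E) hϖ
    have hu0 : algebraMap O E u ≠ 0 := (u.isUnit.map (algebraMap O E)).ne_zero
    have hw0 : algebraMap O E w ≠ 0 := (w.isUnit.map (algebraMap O E)).ne_zero
    have hui : algebraMap O E ((u⁻¹ : Oˣ) : O) = (algebraMap O E u)⁻¹ :=
      eq_inv_of_mul_eq_one_right (by rw [← map_mul, Units.mul_inv, map_one])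
    have hwi : algebraMap O E ((w⁻¹ : Oˣ) : O) = (algebraMap O E w)⁻¹ :=
      eq_inv_of_mul_eq_one_right (by rw [← map_mul, Units.mul_inv, map_one])
    refine ⟨(i : ℤ) - j, ⟨(u * w⁻¹ : Oˣ), ?_⟩, ⟨(w * u⁻¹ : Oˣ), ?_⟩⟩
    · rw [hu, hw, zpow_sub₀ hϖ0, zpow_natCast, zpow_natCast]
      simp only [map_mul, map_pow, Units.val_mul, hwi]
      field_simp
    · rw [hu, hw, neg_sub, zpow_sub₀ hϖ0, zpow_natCast, zpow_natCast]
      simp only [map_mul, map_pow, Units.val_mul, hui]
      field_simp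
  sep := by
    intro x hx
    obtain ⟨y0, hy0⟩ := hx 0
    rw [Nat.cast_zero, zpow_zero, one_mul] at hy0
    rw [hy0]
    by_contra hne
    have hy0n : y0 ≠ 0 := by
      rintro rfl
      simp at hne
    obtain ⟨k, u, hu⟩ := IsDiscreteValuationRing.eq_unit_mul_pow_irreducible hy0n hϖ
    obtain ⟨y, hy⟩ := hx (k + 1)
    rw [hy0, zpow_natCast, ← map_pow, ← map_mul] at hy
    have h1 := alg_inj hy
    rw [hu, pow_succ, mul_comm, mul_assoc] at h1
    have h2 : (u : O) = ϖ * y := mul_left_cancel₀ (pow_ne_zero k hϖ.ne_zero) h1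
    exact hϖ.not_isUnit (isUnit_of_mul_isUnit_left (h2 ▸ u.isUnit))

lemma dvrFil_L {ϖ : O} (hϖ : Irreducible ϖ) {n : ℕ} {x : O} :
    (dvrFil E hϖ).L n (algebraMap O E x) ↔ x ∈ maximalIdeal O ^ n := by
  rw [pow_irr hϖ]
  constructor
  · rintro ⟨y, hy⟩
    refine ⟨y, alg_inj (E := E) ?_⟩
    rw [hy, map_mul, map_pow, zpow_natCast]
  · rintro ⟨y, rfl⟩
    refine ⟨y, ?_⟩
    rw [map_mul, map_pow, zpow_natCast]

lemma dvrFil_L0 {ϖ : O} (hϖ : Irreducible ϖ) {x : E} :
    (dvrFil E hϖ).L 0 x ↔ ∃ y : O, x = algebraMap O E y := by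
  constructor
  · rintro ⟨y, hy⟩
    exact ⟨y, by rw [hy]; simp⟩
  · rintro ⟨y, rfl⟩
    exact ⟨y, by simp⟩

lemma dvrFil_Ln {ϖ : O} (hϖ : Irreducible ϖ) {n : ℕ} {x : E} :
    (dvrFil E hϖ).L n x ↔ ∃ y ∈ maximalIdeal O ^ n, algebraMap O E y = x := by
  constructor
  · rintro ⟨y, hy⟩
    refine ⟨ϖ ^ n * y, (pow_irr hϖ).mpr ⟨y, rfl⟩, ?_⟩
    rw [hy, map_mul, map_pow, zpow_natCast]
  · rintro ⟨y, hy, rfl⟩
    exact (dvrFil_L hϖ).mpr hy

end

section field

variable {k : Type*} [Field k] [Finite k] (h2 : (2 : k) = 0)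

include h2

lemma k_sq (a : k) : ∃ w : k, w ^ 2 = a := by
  have hinj : Function.Injective (fun x : k => x ^ 2) := by
    intro x y hxy
    have h1 : (x - y) ^ 2 = 0 := by
      have : (x - y) ^ 2 = x ^ 2 - y ^ 2 - 2 * (x * y - y ^ 2) := by ring
      simp only at hxy
      rw [this, hxy, h2]
      ring
    exact sub_eq_zero.mp (pow_eq_zero_iff (two_ne_zero) |>.mp h1)
  exact Finite.surjective_of_injective hinj a

/-- the Artin–Schreier map -/
def asMap (h2 : (2 : k) = 0) : k →+ k where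
  toFun x := x ^ 2 + x
  map_zero' := by simp
  map_add' x y := by
    have : (x + y) ^ 2 + (x + y) = x ^ 2 + x + (y ^ 2 + y) + 2 * (x * y) := by ring
    rw [this, h2]
    ring

lemma k_as1 : ∃ a : k, ∀ x : k, x ^ 2 + x ≠ a := by
  by_contra hc
  push Not at hc
  have hs : Function.Surjective (asMap h2) := hc
  have hi := Finite.injective_iff_surjective.mpr hs
  have h1 : asMap h2 1 = asMap h2 0 := by
    show (1 : k) ^ 2 + 1 = 0 ^ 2 + 0
    rw [one_pow, one_add_one_eq_two, h2]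
    ring
  exact one_ne_zero (hi h1)

lemma k_as2 (a b : k) : (∃ x : k, x ^ 2 + x = a) ∨ (∃ x : k, x ^ 2 + x = b) ∨
    (∃ x : k, x ^ 2 + x = a + b) := by
  have hker : Nat.card (asMap h2).ker = 2 := by
    have h1 : ((asMap h2).ker : Set k) = {0, 1} := by
      ext x
      simp only [SetLike.mem_coe, AddMonoidHom.mem_ker, Set.mem_insert_iff, Set.mem_singleton_iff]
      show x ^ 2 + x = 0 ↔ _
      have e : x ^ 2 + x = x * (x + 1) := by ring
      rw [e, mul_eq_zero]
      have h3 : (-1 : k) = 1 := by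
        have : (1 : k) + 1 = 0 := by rw [one_add_one_eq_two, h2]
        exact neg_eq_of_add_eq_zero_left this
      rw [← h3, eq_neg_iff_add_eq_zero, h3]
    have h2' : Nat.card (asMap h2).ker = ((asMap h2).ker : Set k).ncard := rfl
    rw [h2', h1, Set.ncard_pair zero_ne_one]
  have h3 := AddSubgroup.card_mul_index (asMap h2).ker
  have h4 := AddSubgroup.index_ker (asMap h2)
  have h5 := AddSubgroup.card_mul_index (asMap h2).range
  have hpos : 0 < Nat.card (asMap h2).range := Nat.card_pos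
  have hidx : (asMap h2).range.index = 2 := by
    rw [hker, h4, ← h5, mul_comm] at h3
    exact (Nat.eq_of_mul_eq_mul_left hpos h3).symm
  by_cases ha : a ∈ (asMap h2).range
  · left; exact ha
  · by_cases hb : b ∈ (asMap h2).range
    · right; left; exact hb
    · right; right
      have := (AddSubgroup.add_mem_iff_of_index_two hidx (a := a) (b := b)).mpr
        (by tauto)
      exact this

end field

section act

variable (O : Type*) {E 𝒢 : Type*} [CommRing O] [IsDomain O] [IsDiscreteValuationRing O] [Field E]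
  [Algebra O E] [IsFractionRing O E] [Group 𝒢] [Finite 𝒢] [MulSemiringAction 𝒢 E]

/-- `g x - x ∈ 𝔪^{i+1}` for all `x` in the valuation ring -/
def InRam (i : ℕ) (g : 𝒢) : Prop :=
  ∀ x : O, ∃ y ∈ maximalIdeal O ^ (i + 1), algebraMap O E y = g • algebraMap O E x - algebraMap O E x

variable {O} (hst : ∀ (g : 𝒢) (x : O), ∃ y : O, algebraMap O E y = g • algebraMap O E x)
  {ϖ : O} (hϖ : Irreducible ϖ)

include hst hϖ

lemma act_unif (g : 𝒢) : ∃ c c' : O, g • algebraMap O E ϖ = algebraMap O E ϖ * algebraMap O E c ∧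
    algebraMap O E c * algebraMap O E c' = 1 := by
  have key : ∀ g : 𝒢, ∃ c : O, g • algebraMap O E ϖ = algebraMap O E ϖ * algebraMap O E c := by
    intro g
    obtain ⟨y, hy⟩ := hst g ϖ
    have hy' : y ∈ maximalIdeal O := by
      rw [mem_maximalIdeal, mem_nonunits_iff]
      intro hu
      obtain ⟨z, hz⟩ := hu.exists_right_inv
      obtain ⟨w, hw⟩ := hst g⁻¹ z
      apply hϖ.not_isUnit
      refine IsUnit.of_mul_eq_one w (alg_inj (E := E) ?_)
      rw [map_mul, hw, map_one]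
      have : algebraMap O E ϖ = g⁻¹ • algebraMap O E y := by rw [hy, inv_smul_smul]
      rw [this, ← smul_mul', ← map_mul, hz, map_one, smul_one]
    rw [hϖ.maximalIdeal_eq, Ideal.mem_span_singleton] at hy'
    obtain ⟨c, hc⟩ := hy'
    exact ⟨c, by rw [← hy, hc, map_mul]⟩
  obtain ⟨c, hc⟩ := key g
  obtain ⟨d, hd⟩ := key g⁻¹
  obtain ⟨c', hc'⟩ := hst g d
  refine ⟨c, c', hc, ?_⟩
  have h1 : g • g⁻¹ • algebraMap O E ϖ = algebraMap O E ϖ := smul_inv_smul _ _
  rw [hd, smul_mul', hc, ← hc', mul_assoc] at h1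
  exact mul_left_cancel₀ (alg_ne hϖ) (by rw [h1, mul_one])

lemma zpow_int {c c' : O} (h : algebraMap O E c * algebraMap O E c' = 1) (n : ℤ) :
    ∃ y : O, (algebraMap O E c) ^ n = algebraMap O E y := by
  obtain ⟨m, rfl | rfl⟩ := n.eq_nat_or_neg
  · exact ⟨c ^ m, by rw [zpow_natCast, map_pow]⟩
  · refine ⟨c' ^ m, ?_⟩
    rw [zpow_neg, zpow_natCast, map_pow, eq_comm]
    apply eq_inv_of_mul_eq_one_right
    rw [← mul_pow, h, one_pow]

lemma act_L (g : 𝒢) {n : ℤ} {x : E} (h : (dvrFil E hϖ).L n x) : (dvrFil E hϖ).L n (g • x) := by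
  obtain ⟨y, rfl⟩ := h
  obtain ⟨c, c', hc, hcc⟩ := act_unif hst hϖ g
  obtain ⟨z, hz⟩ := hst g y
  obtain ⟨w, hw⟩ := zpow_int hst hϖ hcc n
  refine ⟨w * z, ?_⟩
  have h1 : g • (algebraMap O E ϖ) ^ n = (g • algebraMap O E ϖ) ^ n :=
    map_zpow₀ (MulSemiringAction.toRingHom 𝒢 E g) _ n
  rw [smul_mul', h1, hc, mul_zpow, hw, map_mul, hz]
  ring

lemma wild_L {g : 𝒢} (hg : InRam O (E := E) 1 g) {n : ℤ} {x : E} (h : (dvrFil E hϖ).L n x) :
    (dvrFil E hϖ).L (n + 1) (g • x - x) := by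
  set F := dvrFil E hϖ with hF
  obtain ⟨y, rfl⟩ := h
  obtain ⟨c, c', hc, hcc⟩ := act_unif hst hϖ g
  have hϖ0 := alg_ne (E := E) hϖ
  have hLy : F.L 0 (algebraMap O E y) := (dvrFil_L0 hϖ).mpr ⟨y, rfl⟩
  have hLc : F.L 0 (algebraMap O E c) := (dvrFil_L0 hϖ).mpr ⟨c, rfl⟩
  have hLn : ∀ (z : O) , F.L 2 (g • algebraMap O E z - algebraMap O E z) := by
    intro z
    obtain ⟨w, hw, hw'⟩ := hg z
    rw [← hw']
    exact (dvrFil_L hϖ (n := 2)).mpr hw
  have hVϖ : F.V 1 (algebraMap O E ϖ) := by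
    constructor
    · refine (dvrFil_L hϖ (n := 1)).mpr ?_
      rw [pow_one, hϖ.maximalIdeal_eq]
      exact Ideal.mem_span_singleton_self ϖ
    · intro h2
      have h3 : ϖ ∈ maximalIdeal O ^ 2 := (dvrFil_L (E := E) hϖ (n := 2)).mp h2
      obtain ⟨z, hz⟩ := (pow_irr hϖ).mp h3
      have h4 : (1 : O) = ϖ * z := by
        apply mul_left_cancel₀ hϖ.ne_zero
        rw [mul_one]
        nth_rewrite 1 [hz]
        ring
      exact hϖ.not_isUnit (IsUnit.of_mul_eq_one z h4.symm)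
  have hc1 : F.L 1 (algebraMap O E c - 1) := by
    have h1 := hLn ϖ
    rw [hc] at h1
    have h2 : algebraMap O E ϖ * algebraMap O E c - algebraMap O E ϖ =
        (algebraMap O E c - 1) * algebraMap O E ϖ := by ring
    rw [h2] at h1
    exact Fil.L_of_mul hVϖ h1 (by omega)
  have hLc' : F.L 0 (algebraMap O E c') := (dvrFil_L0 hϖ).mpr ⟨c', rfl⟩
  have hnat : ∀ m : ℕ, F.L 1 ((algebraMap O E c) ^ m - 1) := by
    intro m
    induction m with
    | zero => simpa using F.zero 1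
    | succ m ih =>
      have e : (algebraMap O E c) ^ (m + 1) - 1 =
          ((algebraMap O E c) ^ m - 1) * algebraMap O E c + (algebraMap O E c - 1) := by ring
      rw [e]
      exact F.add (Fil.mul ih hLc (by omega)) hc1
  have hint : F.L 1 ((algebraMap O E c) ^ n - 1) := by
    obtain ⟨m, rfl | rfl⟩ := n.eq_nat_or_neg
    · rw [zpow_natCast]; exact hnat m
    · have hc0 : algebraMap O E c ≠ 0 := left_ne_zero_of_mul_eq_one hcc
      have hcinv : (algebraMap O E c)⁻¹ = algebraMap O E c' := (eq_inv_of_mul_eq_one_right hcc).symm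
      have e : (algebraMap O E c) ^ (-(m : ℤ)) - 1 =
          -(((algebraMap O E c) ^ m - 1) * (algebraMap O E c') ^ m) := by
        rw [zpow_neg, zpow_natCast, ← hcinv, inv_pow]
        have := pow_ne_zero m hc0
        field_simp
        ring
      rw [e]
      exact F.neg (Fil.mul (hnat m) (Fil.L_pow hLc' m) (by omega))
  have h1 : g • (algebraMap O E ϖ) ^ n = (g • algebraMap O E ϖ) ^ n :=
    map_zpow₀ (MulSemiringAction.toRingHom 𝒢 E g) _ n
  have e : g • ((algebraMap O E ϖ) ^ n * algebraMap O E y) - (algebraMap O E ϖ) ^ n * algebraMap O E y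
      = (algebraMap O E ϖ) ^ n * (((algebraMap O E c) ^ n - 1) * (g • algebraMap O E y) +
        (g • algebraMap O E y - algebraMap O E y)) := by
    rw [smul_mul', h1, hc, mul_zpow]
    ring
  rw [e]
  have h2 : F.L n ((algebraMap O E ϖ) ^ n) := by
    have := (hVϖ.zpow n).1
    rwa [mul_one] at this
  refine Fil.mul h2 (F.add (Fil.mul hint (act_L hst hϖ g hLy) (k := 1) (by omega))
    (F.mono (hLn y) (by omega))) le_rfl

/-- the ramification groups as subgroups -/
def rg (i : ℕ) : Subgroup 𝒢 where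
  carrier := {g | InRam O (E := E) i g}
  mul_mem' := by
    intro a b ha hb x
    have h1 : (dvrFil E hϖ).L ((i + 1 : ℕ) : ℤ) ((a * b) • algebraMap O E x - algebraMap O E x) := by
      have e : (a * b) • algebraMap O E x - algebraMap O E x =
          a • (b • algebraMap O E x - algebraMap O E x) +
            (a • algebraMap O E x - algebraMap O E x) := by
        rw [mul_smul, smul_sub]; ring
      rw [e]
      exact (dvrFil E hϖ).add (act_L hst hϖ a ((dvrFil_Ln hϖ).mpr (hb x))) ((dvrFil_Ln hϖ).mpr (ha x))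
    exact (dvrFil_Ln hϖ).mp h1
  one_mem' := by
    intro x
    exact ⟨0, Ideal.zero_mem _, by rw [one_smul]; simp⟩
  inv_mem' := by
    intro a ha x
    have h1 : (dvrFil E hϖ).L ((i + 1 : ℕ) : ℤ) (a⁻¹ • algebraMap O E x - algebraMap O E x) := by
      have e : a⁻¹ • algebraMap O E x - algebraMap O E x =
          -(a⁻¹ • (a • algebraMap O E x - algebraMap O E x)) := by
        rw [smul_sub, inv_smul_smul]; ring
      rw [e]
      exact (dvrFil E hϖ).neg (act_L hst hϖ a⁻¹ ((dvrFil_Ln hϖ).mpr (ha x)))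
    exact (dvrFil_Ln hϖ).mp h1

lemma mem_rg {i : ℕ} {g : 𝒢} : g ∈ rg hst hϖ i ↔ InRam O (E := E) i g := Iff.rfl

lemma pow_shift_two (h2 : (2 : O) ∈ maximalIdeal O) {g : 𝒢} (hg : InRam O (E := E) 1 g) (k : ℕ) :
    ∀ (n : ℤ) (x : E), (dvrFil E hϖ).L n x →
      (dvrFil E hϖ).L (n + (k + 1)) (g ^ (2 ^ k) • x - x) := by
  have h2' : (dvrFil E hϖ).L 1 2 := by
    have := (dvrFil_L (E := E) hϖ (n := 1) (x := 2)).mpr (by rwa [pow_one])
    rw [map_ofNat] at this
    exact this
  induction k with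
  | zero =>
    intro n x hx
    simpa using wild_L hst hϖ hg hx
  | succ k ih =>
    intro n x hx
    set h := g ^ (2 ^ k) with hh
    have e1 : g ^ (2 ^ (k + 1)) = h * h := by rw [hh, ← pow_add, ← two_mul, ← pow_succ']
    have e : (h * h) • x - x = (h • (h • x - x) - (h • x - x)) + 2 * (h • x - x) := by
      rw [mul_smul, smul_sub]; ring
    rw [e1, e]
    have h3 := ih n x hx
    refine (dvrFil E hϖ).add ((dvrFil E hϖ).mono (ih _ _ h3) (by push_cast; omega))
      (Fil.mul h2' h3 (by push_cast; omega))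

lemma rg_pgroup (h2 : (2 : O) ∈ maximalIdeal O) (hfai : ∀ g : 𝒢, (∀ x : E, g • x = x) → g = 1) :
    IsPGroup 2 (rg hst hϖ 1) := by
  rintro ⟨g, hg⟩
  have hninj : ¬ Function.Injective (fun n : ℕ => g ^ (2 ^ n)) := not_injective_infinite_finite _
  simp only [Function.Injective, not_forall] at hninj
  obtain ⟨i, j, hij, hne⟩ := hninj
  wlog h : i < j generalizing i j
  · exact this j i hij.symm (Ne.symm hne) (by omega)
  obtain ⟨d, rfl⟩ : ∃ d, j = i + d := ⟨j - i, by omega⟩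
  have h1 : ∀ t, g ^ (2 ^ (i + t * d)) = g ^ (2 ^ i) := by
    intro t
    induction t with
    | zero => simp
    | succ t ih =>
      have e : i + (t + 1) * d = (i + t * d) + d := by ring
      rw [e, pow_add 2, pow_mul, ih, ← pow_mul, ← pow_add]
      exact hij.symm
  refine ⟨i, Subtype.ext ?_⟩
  show g ^ (2 ^ i) = 1
  apply hfai
  intro x
  by_cases hx0 : x = 0
  · rw [hx0, smul_zero]
  obtain ⟨m, hm, -⟩ := Fil.exists_V (F := dvrFil E hϖ) hx0
  rw [← sub_eq_zero]
  apply (dvrFil E hϖ).sep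
  intro k
  have h3 := pow_shift_two hst hϖ h2 hg (i + (k + m.natAbs) * d) m x hm.1
  rw [h1] at h3
  refine (dvrFil E hϖ).mono h3 ?_
  have h4 := neg_abs_le m
  have h5 : 1 ≤ d := by omega
  have h6 : (k + m.natAbs) ≤ (k + m.natAbs) * d := Nat.le_mul_of_pos_right _ h5
  have h7 : ((k + m.natAbs : ℕ) : ℤ) ≤ (((k + m.natAbs) * d : ℕ) : ℤ) := by exact_mod_cast h6
  push_cast at h7 ⊢
  omega

/-- the abstract data attached to the wild inertia group -/
def datOf [Finite (ResidueField O)] (h2 : (2 : O) ∈ maximalIdeal O)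
    (hfai : ∀ g : 𝒢, (∀ x : E, g • x = x) → g = 1)
    (hcpl : ∀ f : ℕ → O, (∀ n, f (n + 1) - f n ∈ maximalIdeal O ^ n) →
      ∃ x, ∀ n, x - f n ∈ maximalIdeal O ^ n) : Dat (rg hst hϖ 1) E where
  toFil := dvrFil E hϖ
  π := algebraMap O E ϖ
  hπ := by
    constructor
    · refine (dvrFil_L hϖ (n := 1)).mpr ?_
      rw [pow_one, hϖ.maximalIdeal_eq]
      exact Ideal.mem_span_singleton_self ϖ
    · intro h2
      have h3 : ϖ ∈ maximalIdeal O ^ 2 := (dvrFil_L (E := E) hϖ (n := 2)).mp h2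
      obtain ⟨z, hz⟩ := (pow_irr hϖ).mp h3
      have h4 : (1 : O) = ϖ * z := by
        apply mul_left_cancel₀ hϖ.ne_zero
        rw [mul_one]
        nth_rewrite 1 [hz]
        ring
      exact hϖ.not_isUnit (IsUnit.of_mul_eq_one z h4.symm)
  act g {n x} h := act_L hst hϖ (g : 𝒢) h
  wild g {n x} h := wild_L hst hϖ g.2 h
  fai g h := Subtype.ext (hfai g h)
  two := by
    have := (dvrFil_L (E := E) hϖ (n := 1) (x := 2)).mpr (by rwa [pow_one])
    rw [map_ofNat] at this
    exact this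
  pg := rg_pgroup hst hϖ h2 hfai
  sq := by
    intro u hu
    obtain ⟨y, rfl⟩ := (dvrFil_L0 hϖ).mp hu
    have h2' : (2 : ResidueField O) = 0 := by
      have := (residue_eq_zero_iff (2 : O)).mpr h2
      rwa [map_ofNat] at this
    obtain ⟨w, hw⟩ := k_sq h2' (residue O y)
    obtain ⟨z, rfl⟩ := residue_surjective w
    refine ⟨algebraMap O E z, (dvrFil_L0 hϖ).mpr ⟨z, rfl⟩, ?_⟩
    rw [← map_pow, ← map_sub]
    refine (dvrFil_L hϖ (n := 1)).mpr ?_
    rw [pow_one, ← residue_eq_zero_iff, map_sub, map_pow, hw, sub_self]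
  as1 := by
    have h2' : (2 : ResidueField O) = 0 := by
      have := (residue_eq_zero_iff (2 : O)).mpr h2
      rwa [map_ofNat] at this
    obtain ⟨a, ha⟩ := k_as1 h2'
    obtain ⟨b, rfl⟩ := residue_surjective a
    refine ⟨algebraMap O E b, (dvrFil_L0 hϖ).mpr ⟨b, rfl⟩, ?_⟩
    intro x hx h
    obtain ⟨y, rfl⟩ := (dvrFil_L0 hϖ).mp hx
    rw [← map_pow, ← map_add, ← map_sub] at h
    have h3 := (dvrFil_L (E := E) hϖ (n := 1)).mp h
    rw [pow_one, ← residue_eq_zero_iff, map_sub, map_add, map_pow, sub_eq_zero] at h3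
    exact ha _ h3
  as2 := by
    have h2' : (2 : ResidueField O) = 0 := by
      have := (residue_eq_zero_iff (2 : O)).mpr h2
      rwa [map_ofNat] at this
    intro a b ha hb
    obtain ⟨a', rfl⟩ := (dvrFil_L0 hϖ).mp ha
    obtain ⟨b', rfl⟩ := (dvrFil_L0 hϖ).mp hb
    have key : ∀ c : O, (∃ x : ResidueField O, x ^ 2 + x = residue O c) →
        ∃ x : E, (dvrFil E hϖ).L 0 x ∧ (dvrFil E hϖ).L 1 (x ^ 2 + x - algebraMap O E c) := by
      rintro c ⟨x, hx⟩
      obtain ⟨y, rfl⟩ := residue_surjective x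
      refine ⟨algebraMap O E y, (dvrFil_L0 hϖ).mpr ⟨y, rfl⟩, ?_⟩
      rw [← map_pow, ← map_add, ← map_sub]
      refine (dvrFil_L hϖ (n := 1)).mpr ?_
      rw [pow_one, ← residue_eq_zero_iff, map_sub, map_add, map_pow, hx, sub_self]
    rcases k_as2 h2' (residue O a') (residue O b') with h | h | h
    · exact Or.inl (key a' h)
    · exact Or.inr (Or.inl (key b' h))
    · refine Or.inr (Or.inr ?_)
      have := key (a' + b') (by rw [map_add]; exact h)
      rwa [map_add] at this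
  cpl := by
    intro f hf
    have h0 : ∀ n : ℕ, (dvrFil E hϖ).L 0 (f n - f 0) := by
      intro n
      induction n with
      | zero => rw [sub_self]; exact (dvrFil E hϖ).zero _
      | succ n ih =>
        have e : f (n + 1) - f 0 = (f (n + 1) - f n) + (f n - f 0) := by ring
        rw [e]
        exact (dvrFil E hϖ).add ((dvrFil E hϖ).mono (hf n) (by omega)) ih
    choose g hg using fun n => (dvrFil_L0 hϖ).mp (h0 n)
    obtain ⟨x, hx⟩ := hcpl g (fun n => by
      rw [← dvrFil_L (E := E) hϖ, map_sub, ← hg, ← hg]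
      have e : f (n + 1) - f 0 - (f n - f 0) = f (n + 1) - f n := by ring
      rw [e]
      exact hf n)
    refine ⟨algebraMap O E x + f 0, fun n => ?_⟩
    have h1 := (dvrFil_L (E := E) hϖ).mpr (hx n)
    rw [map_sub, ← hg] at h1
    have e : algebraMap O E x + f 0 - f n = algebraMap O E x - (f n - f 0) := by ring
    rw [e]
    exact h1

lemma mem_Ram_datOf [Finite (ResidueField O)] (h2 : (2 : O) ∈ maximalIdeal O)
    (hfai : ∀ g : 𝒢, (∀ x : E, g • x = x) → g = 1)
    (hcpl : ∀ f : ℕ → O, (∀ n, f (n + 1) - f n ∈ maximalIdeal O ^ n) →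
      ∃ x, ∀ n, x - f n ∈ maximalIdeal O ^ n) (i : ℕ) (g : rg hst hϖ 1) :
    g ∈ Dat.Ram (datOf hst hϖ h2 hfai hcpl) i ↔ (g : 𝒢) ∈ rg hst hϖ i := by
  set D := datOf hst hϖ h2 hfai hcpl with hD
  constructor
  · intro h x
    obtain ⟨c, hc, -, hc'⟩ := Dat.rep (D := D) ((dvrFil_L0 (E := E) hϖ).mpr ⟨x, rfl⟩)
    have h1 := h 1 _ hc'
    have e : g • (algebraMap O E x - c) - (algebraMap O E x - c) =
        g • algebraMap O E x - algebraMap O E x := by
      rw [smul_sub, hc g trivial]; ring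
    rw [e] at h1
    refine (dvrFil_Ln hϖ).mp ?_
    exact D.mono h1 (by push_cast; omega)
  · intro h
    by_cases hg : g = 1
    · rw [hg]; exact Subgroup.one_mem _
    · rw [Dat.mem_Ram hg]
      have h1 := (dvrFil_Ln (E := E) hϖ).mpr (h ϖ)
      have h2 := (Dat.e_V (D := D) hg).le h1
      push_cast at h2
      exact h2

end act

end Pool.Agent.W90.Swan
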