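import Pool.Agent.W90.Swan.Local

/-! Swan exponents, symmetric and exterior squares. -/

open scoped BigOperators TensorProduct
open Representation IsLocalRing

set_option linter.unusedSectionVars false

noncomputable section

namespace Pool.Agent.W90.Swan

section defs

variable {G : Type*} [Group G] {V : Type*} [AddCommGroup V] [Module ℂ V]

variable (V) in
/-- `Sym² V`, realised as the symmetric tensors in `V ⊗ V` -/
def symSq : Submodule ℂ (V ⊗[ℂ] V) :=
  LinearMap.eqLocus (TensorProduct.comm ℂ V V).toLinearMap LinearMap.id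

variable (V) in
/-- `∧² V`, realised as the antisymmetric tensors in `V ⊗ V` -/
def altSq : Submodule ℂ (V ⊗[ℂ] V) :=
  LinearMap.eqLocus (TensorProduct.comm ℂ V V).toLinearMap (-LinearMap.id)

lemma mem_symSq {t : V ⊗[ℂ] V} : t ∈ symSq V ↔ TensorProduct.comm ℂ V V t = t := Iff.rfl

lemma mem_altSq {t : V ⊗[ℂ] V} : t ∈ altSq V ↔ TensorProduct.comm ℂ V V t = -t := Iff.rfl

lemma comm_map (f : V →ₗ[ℂ] V) (t : V ⊗[ℂ] V) : TensorProduct.comm ℂ V V (TensorProduct.map f f t) =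
    TensorProduct.map f f (TensorProduct.comm ℂ V V t) :=
  LinearMap.congr_fun (swp_map f) t

lemma symSq_stable (ρ : Representation ℂ G V) (g : G) ⦃t : V ⊗[ℂ] V⦄ (ht : t ∈ symSq V) :
    ρ.tprod ρ g t ∈ symSq V := by
  rw [mem_symSq] at ht ⊢
  rw [Representation.tprod_apply, comm_map, ht]

lemma altSq_stable (ρ : Representation ℂ G V) (g : G) ⦃t : V ⊗[ℂ] V⦄ (ht : t ∈ altSq V) :
    ρ.tprod ρ g t ∈ altSq V := by
  rw [mem_altSq] at ht ⊢
  rw [Representation.tprod_apply, comm_map, ht, map_neg]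

/-- `Sym² V` as a subrepresentation of `V ⊗ V` -/
def symSqSub (ρ : Representation ℂ G V) : Subrepresentation (ρ.tprod ρ) :=
  ⟨symSq V, symSq_stable ρ⟩

/-- `∧² V` as a subrepresentation of `V ⊗ V` -/
def altSqSub (ρ : Representation ℂ G V) : Subrepresentation (ρ.tprod ρ) :=
  ⟨altSq V, altSq_stable ρ⟩

/-- the representation on `Sym² V` -/
def symSqRep (ρ : Representation ℂ G V) : Representation ℂ G (symSq V) :=
  (symSqSub ρ).toRepresentation

/-- the representation on `∧² V` -/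
def altSqRep (ρ : Representation ℂ G V) : Representation ℂ G (altSq V) :=
  (altSqSub ρ).toRepresentation

/-- the Swan exponent with respect to a filtration `R 0 ≥ R 1 ≥ …` of `G` by subgroups:
`∑_{i ≥ 1} (|R i| / |R 0|) dim (V / V^{R i})` -/
def swan (R : ℕ → Subgroup G) (ρ : Representation ℂ G V) : ℚ :=
  ∑ᶠ i ∈ Set.Ici 1, ((Nat.card (R i) : ℚ) / Nat.card (R 0)) *
    Module.finrank ℂ (V ⧸ invariants (ρ.comp (R i).subtype))

end defs

section dims

variable {G : Type*} [Group G] [Fintype G] {V : Type*} [AddCommGroup V] [Module ℂ V]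
  [FiniteDimensional ℂ V] (ρ : Representation ℂ G V)

lemma half_proj (ε : ℂ) (hε : ε * ε = 1) (I : Submodule ℂ (V ⊗[ℂ] V))
    (hI : ∀ t, t ∈ I ↔ (∀ g, TensorProduct.map (ρ g) (ρ g) t = t) ∧ swp V t = ε • t) :
    (Module.finrank ℂ I : ℂ) = (2 : ℂ)⁻¹ * (LinearMap.trace ℂ _ (avg2 ρ) +
      ε * LinearMap.trace ℂ _ (avg2 ρ ∘ₗ swp V)) := by
  set A : V ⊗[ℂ] V →ₗ[ℂ] V ⊗[ℂ] V := (2 : ℂ)⁻¹ • (avg2 ρ + ε • (avg2 ρ ∘ₗ swp V)) with hA
  have hAa : ∀ t, A t = (2 : ℂ)⁻¹ • (avg2 ρ t + ε • avg2 ρ (swp V t)) := fun t => by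
    simp [hA]
  have hproj : LinearMap.IsProj I A := by
    constructor
    · intro t
      rw [hI, hAa]
      refine ⟨fun g => ?_, ?_⟩
      · rw [map_smul, map_add, map_smul, tmap_avg2, tmap_avg2]
      · rw [map_smul, map_add, map_smul, avg2_swp, swp_swp_apply, smul_comm ε]
        congr 1
        rw [smul_add, smul_smul, hε, one_smul, add_comm]
    · intro t ht
      rw [hI] at ht
      rw [hAa, ht.2, map_smul, avg2_of_inv ρ ht.1, smul_smul, hε, one_smul, ← two_smul ℂ, smul_smul,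
        inv_mul_cancel₀ two_ne_zero, one_smul]
  rw [← hproj.trace, hA, map_smul, map_add, map_smul, smul_eq_mul, smul_eq_mul]

lemma finrank_sym : (Module.finrank ℂ (invariants (symSqRep ρ)) : ℂ) =
    (2 : ℂ)⁻¹ * (LinearMap.trace ℂ _ (avg2 ρ) + 1 * LinearMap.trace ℂ _ (avg2 ρ ∘ₗ swp V)) := by
  have h1 : Module.finrank ℂ ((invariants (symSqRep ρ)).map (symSq V).subtype) =
      Module.finrank ℂ (invariants (symSqRep ρ)) := Submodule.finrank_map_subtype_eq _ _
  rw [← h1]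
  apply half_proj ρ 1 (by ring)
  intro t
  constructor
  · rintro ⟨⟨u, hu⟩, hu', rfl⟩
    refine ⟨fun g => ?_, ?_⟩
    · exact congrArg Subtype.val (hu' g)
    · rw [one_smul]
      exact hu
  · rintro ⟨h2, h3⟩
    rw [one_smul] at h3
    exact ⟨⟨t, h3⟩, fun g => Subtype.ext (h2 g), rfl⟩

lemma finrank_alt : (Module.finrank ℂ (invariants (altSqRep ρ)) : ℂ) =
    (2 : ℂ)⁻¹ * (LinearMap.trace ℂ _ (avg2 ρ) + (-1) * LinearMap.trace ℂ _ (avg2 ρ ∘ₗ swp V)) := by
  have h1 : Module.finrank ℂ ((invariants (altSqRep ρ)).map (altSq V).subtype) =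
      Module.finrank ℂ (invariants (altSqRep ρ)) := Submodule.finrank_map_subtype_eq _ _
  rw [← h1]
  apply half_proj ρ (-1) (by ring)
  intro t
  constructor
  · rintro ⟨⟨u, hu⟩, hu', rfl⟩
    refine ⟨fun g => ?_, ?_⟩
    · exact congrArg Subtype.val (hu' g)
    · rw [neg_one_smul]
      exact hu
  · rintro ⟨h2, h3⟩
    rw [neg_one_smul] at h3
    exact ⟨⟨t, h3⟩, fun g => Subtype.ext (h2 g), rfl⟩

/-- `|G| (dim (Sym²V)^G - dim (∧²V)^G) = ∑ χ(g²)` -/
lemma sum_sq : (Nat.card G : ℂ) * ((Module.finrank ℂ (invariants (symSqRep ρ)) : ℂ) -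
    Module.finrank ℂ (invariants (altSqRep ρ))) = ∑ g : G, ρ.character (g ^ 2) := by
  rw [finrank_sym, finrank_alt, trace_avg2_swp]
  have := cardG_ne (G := G)
  field_simp
  ring

lemma sum_one : (Nat.card G : ℂ) * (Module.finrank ℂ (invariants ρ) : ℂ) =
    ∑ g : G, ρ.character g := by
  have : Invertible (Nat.card G : ℂ) := invertibleOfNonzero cardG_ne
  rw [← card_inv_mul_sum_char_eq_finrank, ← mul_assoc, mul_inv_cancel₀ cardG_ne, one_mul]

end dims

lemma invariants_bot {G : Type*} [Group G] {V : Type*} [AddCommGroup V] [Module ℂ V]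
    (ρ : Representation ℂ G V) (N : Subgroup G) (hN : N = ⊥) :
    invariants (ρ.comp N.subtype) = ⊤ := by
  rw [eq_top_iff]
  rintro x - ⟨g, hg⟩
  rw [hN, Subgroup.mem_bot] at hg
  show ρ g x = x
  rw [hg, map_one]
  rfl

lemma dim_sub {G : Type*} [Group G] {V : Type*} [AddCommGroup V] [Module ℂ V]
    [FiniteDimensional ℂ V] (ρ : Representation ℂ G V) :
    (Module.finrank ℂ (symSq V) : ℂ) - Module.finrank ℂ (altSq V) = Module.finrank ℂ V := by
  have h1 := sum_sq (ρ.comp (⊥ : Subgroup G).subtype)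
  have h2 : invariants (symSqRep (ρ.comp (⊥ : Subgroup G).subtype)) = ⊤ :=
    invariants_bot (symSqRep ρ) ⊥ rfl
  have h3 : invariants (altSqRep (ρ.comp (⊥ : Subgroup G).subtype)) = ⊤ :=
    invariants_bot (altSqRep ρ) ⊥ rfl
  rw [h2, h3, finrank_top, finrank_top] at h1
  have h4 : ∀ g : (⊥ : Subgroup G), Representation.character (ρ.comp (⊥ : Subgroup G).subtype)
      (g ^ 2) = Module.finrank ℂ V := by
    intro g
    rw [Subsingleton.elim (g ^ 2) 1, Representation.char_one]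
  simp only [h4] at h1
  simpa using h1

section main

variable {G : Type*} [Group G] [Finite G] {V : Type*} [AddCommGroup V] [Module ℂ V]
  [FiniteDimensional ℂ V] (ρ : Representation ℂ G V)

lemma finrank_quot (N : Subgroup G) :
    (Module.finrank ℂ (V ⧸ invariants (ρ.comp N.subtype)) : ℚ) =
      Module.finrank ℂ V - Module.finrank ℂ (invariants (ρ.comp N.subtype)) := by
  have h := Submodule.finrank_quotient_add_finrank (invariants (ρ.comp N.subtype))
  rw [← h]
  push_cast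
  ring

lemma swan_eq (R : ℕ → Subgroup G) (M : ℕ) (hM : ∀ i, M < i → R i = ⊥) :
    swan R ρ = ∑ i ∈ Finset.Icc 1 M, ((Nat.card (R i) : ℚ) / Nat.card (R 0)) *
      (Module.finrank ℂ V - Module.finrank ℂ (invariants (ρ.comp (R i).subtype))) := by
  rw [swan]
  have h1 : ∑ᶠ i ∈ Set.Ici 1, ((Nat.card (R i) : ℚ) / Nat.card (R 0)) *
      Module.finrank ℂ (V ⧸ invariants (ρ.comp (R i).subtype)) =
      ∑ i ∈ Finset.Icc 1 M, ((Nat.card (R i) : ℚ) / Nat.card (R 0)) *
      Module.finrank ℂ (V ⧸ invariants (ρ.comp (R i).subtype)) := by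
    apply finsum_mem_eq_sum_of_inter_support_eq
    ext i
    simp only [Set.mem_inter_iff, Set.mem_Ici, Function.mem_support, Finset.coe_Icc, Set.mem_Icc]
    constructor
    · rintro ⟨h1, h2⟩
      refine ⟨⟨h1, ?_⟩, h2⟩
      by_contra h3
      apply h2
      rw [finrank_quot, invariants_bot ρ _ (hM i (by omega)), finrank_top]
      ring
    · rintro ⟨⟨h1, h2⟩, h3⟩
      exact ⟨h1, h3⟩
  rw [h1]
  refine Finset.sum_congr rfl fun i _ => ?_
  rw [finrank_quot]

/-- reduction of the Swan inequality to a character sum inequality -/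
theorem swan_red (R : ℕ → Subgroup G) (M : ℕ) (hM : ∀ i, M < i → R i = ⊥) (r : ℝ) (hr : 0 ≤ r)
    (h : ∑ i ∈ Finset.Icc 1 M, ((∑ᶠ n : R i, ρ.character ((n : G) ^ 2)) -
      ∑ᶠ n : R i, ρ.character (n : G)) = (r : ℂ)) :
    swan R (symSqRep ρ) - swan R (altSqRep ρ) ≤ swan R ρ := by
  have hdim : (Module.finrank ℂ (symSq V) : ℚ) - Module.finrank ℂ (altSq V) =
      Module.finrank ℂ V := by exact_mod_cast dim_sub ρ
  rw [swan_eq ρ R M hM, swan_eq (symSqRep ρ) R M hM, swan_eq (altSqRep ρ) R M hM,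
    ← Finset.sum_sub_distrib, ← sub_nonneg, ← Finset.sum_sub_distrib]
  have key : (((∑ i ∈ Finset.Icc 1 M, ((Nat.card (R i) : ℚ) / Nat.card (R 0) *
      (Module.finrank ℂ V - Module.finrank ℂ (invariants (ρ.comp (R i).subtype))) -
      ((Nat.card (R i) : ℚ) / Nat.card (R 0) * (Module.finrank ℂ (symSq V) -
        Module.finrank ℂ (invariants ((symSqRep ρ).comp (R i).subtype))) -
      (Nat.card (R i) : ℚ) / Nat.card (R 0) * (Module.finrank ℂ (altSq V) -
        Module.finrank ℂ (invariants ((altSqRep ρ).comp (R i).subtype))))) : ℚ) : ℝ) : ℂ) =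
      (((Nat.card (R 0) : ℝ)⁻¹ * r : ℝ) : ℂ) := by
    push_cast
    rw [← h, Finset.mul_sum]
    refine Finset.sum_congr rfl fun i _ => ?_
    have := Fintype.ofFinite (R i)
    have h1 := sum_sq (ρ.comp (R i).subtype)
    have h2 := sum_one (ρ.comp (R i).subtype)
    have e1 : ∑ᶠ n : R i, ρ.character ((n : G) ^ 2) =
        ∑ g : R i, Representation.character (ρ.comp (R i).subtype) (g ^ 2) := by
      rw [finsum_eq_sum_of_fintype]
      rfl
    have e2 : ∑ᶠ n : R i, ρ.character (n : G) =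
        ∑ g : R i, Representation.character (ρ.comp (R i).subtype) g := by
      rw [finsum_eq_sum_of_fintype]
      rfl
    rw [e1, e2, ← h1, ← h2]
    have e3 : (symSqRep ρ).comp (R i).subtype = symSqRep (ρ.comp (R i).subtype) := rfl
    have e4 : (altSqRep ρ).comp (R i).subtype = altSqRep (ρ.comp (R i).subtype) := rfl
    rw [e3, e4]
    have h3 := dim_sub ρ
    rw [← h3]
    ring
  have key2 := Complex.ofReal_injective key
  have h5 : (0 : ℝ) ≤ (Nat.card (R 0) : ℝ)⁻¹ * r := by positivity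
  rw [← key2] at h5
  exact_mod_cast h5

end main

section act

variable {O : Type*} {E 𝒢 : Type*} [CommRing O] [IsDomain O] [IsDiscreteValuationRing O] [Field E]
  [Algebra O E] [IsFractionRing O E] [Group 𝒢] [Finite 𝒢] [MulSemiringAction 𝒢 E]

lemma InRam.mono {i j : ℕ} (hij : i ≤ j) {g : 𝒢} (h : InRam O (E := E) j g) :
    InRam O (E := E) i g := by
  intro x
  obtain ⟨y, hy, hy'⟩ := h x
  exact ⟨y, Ideal.pow_le_pow_right (by omega) hy, hy'⟩

/-- the Swan inequality for a complete discrete valuation ring with an action of a finite group -/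
theorem swan_act (hst : ∀ (g : 𝒢) (x : O), ∃ y : O, algebraMap O E y = g • algebraMap O E x)
    [Finite (ResidueField O)] (h2 : (2 : O) ∈ maximalIdeal O)
    (hfai : ∀ g : 𝒢, (∀ x : E, g • x = x) → g = 1)
    (hcpl : ∀ f : ℕ → O, (∀ n, f (n + 1) - f n ∈ maximalIdeal O ^ n) →
      ∃ x, ∀ n, x - f n ∈ maximalIdeal O ^ n)
    (R : ℕ → Subgroup 𝒢) (hR : ∀ i g, g ∈ R i ↔ InRam O (E := E) i g)
    {V : Type*} [AddCommGroup V] [Module ℂ V]
    [FiniteDimensional ℂ V] (ρ : Representation ℂ 𝒢 V) :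
    swan R (symSqRep ρ) - swan R (altSqRep ρ) ≤ swan R ρ := by
  obtain ⟨ϖ, hϖ⟩ := IsDiscreteValuationRing.exists_irreducible O
  have hRrg : ∀ i, R i = rg hst hϖ i := by
    intro i
    ext g
    rw [hR, mem_rg]
  set D := datOf hst hϖ h2 hfai hcpl with hD
  obtain ⟨M, hM⟩ := Dat.exists_Ram_bot D
  obtain ⟨r, hr, hFF⟩ := FF_nonneg D hM _ V (ρ.comp (rg hst hϖ 1).subtype) rfl
  have hmem : ∀ (i : ℕ) (g : rg hst hϖ 1), g ∈ Dat.Ram D i ↔ (g : 𝒢) ∈ rg hst hϖ i :=
    mem_Ram_datOf hst hϖ h2 hfai hcpl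
  apply swan_red ρ R M ?_ r hr
  · rw [← hFF, FF]
    refine Finset.sum_congr rfl fun i hi => ?_
    rw [hRrg i]
    have hi1 : 1 ≤ i := (Finset.mem_Icc.mp hi).1
    let eq : Dat.Ram D i ≃ rg hst hϖ i :=
      { toFun := fun x => ⟨((x : rg hst hϖ 1) : 𝒢), (hmem i x).mp x.2⟩
        invFun := fun x => ⟨⟨(x : 𝒢), InRam.mono hi1 x.2⟩, (hmem i _).mpr x.2⟩
        left_inv := fun x => rfl
        right_inv := fun x => rfl }
    congr 1
    · exact (finsum_comp_equiv eq (f := fun n : rg hst hϖ i => ρ.character ((n : 𝒢) ^ 2))).symm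
    · exact (finsum_comp_equiv eq (f := fun n : rg hst hϖ i => ρ.character (n : 𝒢))).symm
  · intro i hi
    rw [hRrg, eq_bot_iff]
    intro g hg
    have h1 : g ∈ rg hst hϖ 1 := InRam.mono (by omega) hg
    have h3 : (⟨g, h1⟩ : rg hst hϖ 1) ∈ Dat.Ram D M := by
      rw [hmem]
      exact InRam.mono hi.le hg
    rw [hM, Subgroup.mem_bot] at h3
    rw [Subgroup.mem_bot]
    exact congrArg Subtype.val h3

end act

end Pool.Agent.W90.Swan
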